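import Pool.Agent.helper43.NP.Alt

/-!
Adding a point: exactness of the dual Koszul complex for `L` implies it for `L + P`.
-/

namespace PoolNP

open Finset

variable {F A : Type*} [Field F] [CommRing A] [Algebra F A]

/-- Exactness of the dual Koszul complex in exterior degree `n`: every `φ` whose differential
vanishes on `(V; M0)` is a differential on `(V; M1)`. -/
def DExact (V M0 M1 : Submodule F A) : ℕ → Prop
  | 0 => ∀ φ : A [⋀^Fin 0]→ₗ[F] (A →ₗ[F] F),
      (∀ w : Fin 1 → A, (∀ l, w l ∈ V) → ∀ r ∈ M0, dd φ w r = 0) →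
      ∀ w, ∀ r ∈ M1, φ w r = 0
  | n + 1 => ∀ φ : A [⋀^Fin (n + 1)]→ₗ[F] (A →ₗ[F] F),
      (∀ w : Fin (n + 2) → A, (∀ l, w l ∈ V) → ∀ r ∈ M0, dd φ w r = 0) →
      ∃ ψ : A [⋀^Fin n]→ₗ[F] (A →ₗ[F] F),
        ∀ w : Fin (n + 1) → A, (∀ l, w l ∈ V) → ∀ r ∈ M1, φ w r = dd ψ w r

/-- `β ⊗ μ`. -/
noncomputable def tens {n : ℕ} (β : A [⋀^Fin n]→ₗ[F] F) (μ : A →ₗ[F] F) :
    A [⋀^Fin n]→ₗ[F] (A →ₗ[F] F) :=
  (LinearMap.toSpanSingleton F (A →ₗ[F] F) μ).compAlternatingMap β

theorem tens_apply {n : ℕ} (β : A [⋀^Fin n]→ₗ[F] F) (μ : A →ₗ[F] F) (w : Fin n → A) (r : A) :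
    tens β μ w r = β w * μ r := rfl

/-- evaluation at `r`. -/
noncomputable def evAt {n : ℕ} (φ : A [⋀^Fin n]→ₗ[F] (A →ₗ[F] F)) (r : A) :
    A [⋀^Fin n]→ₗ[F] F :=
  (LinearMap.applyₗ r).compAlternatingMap φ

theorem evAt_apply {n : ℕ} (φ : A [⋀^Fin n]→ₗ[F] (A →ₗ[F] F)) (r : A) (w : Fin n → A) :
    evAt φ r w = φ w r := rfl

/-- `s ∧ θ`. -/
noncomputable def sw {n : ℕ} (s : A →ₗ[F] F) (θ : A [⋀^Fin n]→ₗ[F] (A →ₗ[F] F)) :
    A [⋀^Fin (n + 1)]→ₗ[F] (A →ₗ[F] F) :=
  AlternatingMap.alternatizeUncurryFin (s.smulRight θ)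

theorem sw_apply {n : ℕ} (s : A →ₗ[F] F) (θ : A [⋀^Fin n]→ₗ[F] (A →ₗ[F] F))
    (w : Fin (n + 1) → A) (r : A) :
    sw s θ w r = ∑ l : Fin (n + 1), (-1) ^ (l : ℕ) * (s (w l) * θ (Fin.removeNth l w) r) := by
  rw [sw, AlternatingMap.alternatizeUncurryFin_apply, LinearMap.sum_apply]
  refine sum_congr rfl fun l _ => ?_
  rcases Nat.even_or_odd (l : ℕ) with h' | h' <;> simp [h'.neg_one_pow]

theorem sw_zero {n : ℕ} {V : Submodule F A} {s : A →ₗ[F] F} (hs : ∀ v ∈ V, s v = 0)
    (θ : A [⋀^Fin n]→ₗ[F] (A →ₗ[F] F)) (w : Fin (n + 1) → A) (hw : ∀ l, w l ∈ V) (r : A) :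
    sw s θ w r = 0 := by
  rw [sw_apply]
  refine sum_eq_zero fun l _ => ?_
  rw [hs _ (hw l)]
  ring

omit [CommRing A] in
theorem removeNth_zero_vecCons {n : ℕ} (v : A) (w : Fin n → A) :
    Fin.removeNth (0 : Fin (n + 1)) (Matrix.vecCons v w) = w := by
  funext l
  simp [Fin.removeNth, Matrix.vecCons]

theorem sw_cons {n : ℕ} {V : Submodule F A} {s : A →ₗ[F] F} (hs : ∀ v ∈ V, s v = 0) {σ : A}
    (hσ : s σ = 1) (θ : A [⋀^Fin n]→ₗ[F] (A →ₗ[F] F)) (w : Fin n → A) (hw : ∀ l, w l ∈ V)
    (r : A) : sw s θ (Matrix.vecCons σ w) r = θ w r := by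
  rw [sw_apply, Fin.sum_univ_succ, removeNth_zero_vecCons, sum_eq_zero]
  · simp [hσ]
  · intro l _
    rw [Matrix.cons_val_succ, hs _ (hw l)]
    ring

theorem cons_mem {n : ℕ} {V : Submodule F A} {v : A} (hv : v ∈ V) {w : Fin n → A}
    (hw : ∀ l, w l ∈ V) : ∀ l, Matrix.vecCons v w l ∈ V := by
  intro l
  refine Fin.cases ?_ (fun l => ?_) l
  · simpa using hv
  · simpa using hw l

theorem removeNth_mem {n : ℕ} {V : Submodule F A} {w : Fin (n + 1) → A}
    (hw : ∀ l, w l ∈ V) (l : Fin (n + 1)) : ∀ l', Fin.removeNth l w l' ∈ V :=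
  fun _ => hw _

theorem update_mem {n : ℕ} {V : Submodule F A} {w : Fin n → A}
    (hw : ∀ l, w l ∈ V) (l : Fin n) {v : A} (hv : v ∈ V) :
    ∀ l', Function.update w l v l' ∈ V := by
  intro l'
  by_cases h : l' = l
  · subst h; simpa using hv
  · simpa [Function.update_of_ne h] using hw l'

theorem map_update_scalar {n : ℕ} (f : A [⋀^Fin (n + 1)]→ₗ[F] F) (w : Fin (n + 1) → A)
    (l : Fin (n + 1)) (v : A) :
    f (Function.update w l v) = (-1) ^ (l : ℕ) * f (Matrix.vecCons v (Fin.removeNth l w)) := by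
  rw [update_eq_insertNth, AlternatingMap.map_insertNth]
  rcases Nat.even_or_odd (l : ℕ) with h' | h' <;> simp [h'.neg_one_pow]

/-- An alternating map that vanishes on `V` and on `(σ, V)` vanishes on `V + F σ`. -/
theorem alt_ext {n : ℕ} {V V' : Submodule F A} {σ : A}
    (dec : ∀ v ∈ V', ∃ u ∈ V, ∃ c : F, v = u + c • σ)
    (f : A [⋀^Fin (n + 1)]→ₗ[F] F)
    (h1 : ∀ w : Fin (n + 1) → A, (∀ l, w l ∈ V) → f w = 0)
    (h2 : ∀ w : Fin n → A, (∀ l, w l ∈ V) → f (Matrix.vecCons σ w) = 0) :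
    ∀ w : Fin (n + 1) → A, (∀ l, w l ∈ V') → f w = 0 := by
  have inner : ∀ (l : Fin (n + 1)) (S : Finset (Fin (n + 1))) (w : Fin (n + 1) → A),
      (∀ l' ∉ S, w l' ∈ V) → (∀ l' ∈ S, w l' ∈ V') → f (Function.update w l σ) = 0 := by
    intro l S
    induction S using Finset.induction_on with
    | empty =>
      intro w hw _
      rw [map_update_scalar, h2 _ (removeNth_mem (fun l' => hw l' (notMem_empty _)) l), mul_zero]
    | insert a S ha ih =>
      intro w hw hw'
      by_cases hal : a = l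
      · subst hal
        have e : Function.update w a σ = Function.update (Function.update w a 0) a σ := by
          rw [Function.update_idem]
        rw [e]
        refine ih _ ?_ ?_
        · intro l' hl'
          by_cases h : l' = a
          · subst h; simp
          · rw [Function.update_of_ne h]
            exact hw l' (by simp [h, hl'])
        · intro l' hl'
          have h : l' ≠ a := by rintro rfl; exact ha hl'
          rw [Function.update_of_ne h]
          exact hw' l' (mem_insert_of_mem hl')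
      · obtain ⟨u, hu, c, hc⟩ := dec _ (hw' a (mem_insert_self _ _))
        have e : Function.update w l σ
            = Function.update (Function.update w l σ) a (u + c • σ) := by
          rw [← hc, Function.update_comm (Ne.symm hal), Function.update_eq_self]
        rw [e, AlternatingMap.map_update_add, AlternatingMap.map_update_smul]
        have z : f (Function.update (Function.update w l σ) a σ) = 0 := by
          refine f.map_eq_zero_of_eq _ ?_ hal
          rw [Function.update_self, Function.update_of_ne (Ne.symm hal), Function.update_self]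
        rw [z, smul_zero, add_zero, Function.update_comm (Ne.symm hal)]
        refine ih _ ?_ ?_
        · intro l' hl'
          by_cases h : l' = a
          · subst h; simpa using hu
          · rw [Function.update_of_ne h]
            exact hw l' (by simp [h, hl'])
        · intro l' hl'
          have h : l' ≠ a := by rintro rfl; exact ha hl'
          rw [Function.update_of_ne h]
          exact hw' l' (mem_insert_of_mem hl')
  have outer : ∀ (S : Finset (Fin (n + 1))) (w : Fin (n + 1) → A),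
      (∀ l' ∉ S, w l' ∈ V) → (∀ l' ∈ S, w l' ∈ V') → f w = 0 := by
    intro S
    induction S using Finset.induction_on with
    | empty =>
      intro w hw _
      exact h1 w (fun l => hw l (notMem_empty _))
    | insert a S ha ih =>
      intro w hw hw'
      obtain ⟨u, hu, c, hc⟩ := dec _ (hw' a (mem_insert_self _ _))
      have e : w = Function.update w a (u + c • σ) := by
        rw [← hc, Function.update_eq_self]
      rw [e, AlternatingMap.map_update_add, AlternatingMap.map_update_smul]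
      rw [inner a (insert a S) w hw hw', smul_zero, add_zero]
      refine ih _ ?_ ?_
      · intro l' hl'
        by_cases h : l' = a
        · subst h; simpa using hu
        · rw [Function.update_of_ne h]
          exact hw l' (by simp [h, hl'])
      · intro l' hl'
        have h : l' ≠ a := by rintro rfl; exact ha hl'
        rw [Function.update_of_ne h]
        exact hw' l' (mem_insert_of_mem hl')
  intro w hw
  exact outer univ w (by simp) (fun l _ => hw l)

/-- The data of a point `P` added to `L`: `V = H^0(L)`, `V' = H^0(L + P) = V + F σ`,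
`S2a = H^0(2 L + a P)`, and leading coefficient functionals at `P`. -/
structure PointData (V V' S20 S21 S22 : Submodule F A) (σ v0 : A)
    (s ev μ1 μ2 μ3 : A →ₗ[F] F) : Prop where
  hVV' : V ≤ V'
  hσ : σ ∈ V'
  hv0 : v0 ∈ V
  decV : ∀ v ∈ V', ∃ u ∈ V, ∃ c : F, v = u + c • σ
  sV : ∀ v ∈ V, s v = 0
  sσ : s σ = 1
  ev0 : ev v0 = 1
  evV : ∀ v ∈ V, v * σ - ev v • (v0 * σ) ∈ S20
  hle : S20 ≤ S21
  hv0σ : v0 * σ ∈ S21
  dec21 : ∀ r ∈ S21, ∃ r0 ∈ S20, ∃ c : F, r = r0 + c • (v0 * σ)
  dec22 : ∀ r ∈ S22, ∃ r0 ∈ S21, ∃ c : F, r = r0 + c • (σ * σ)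
  m1a : ∀ v ∈ V, ∀ r ∈ S20, μ1 (v * r) = 0
  m1b : ∀ v ∈ V, μ1 (v * (v0 * σ)) = ev v
  m2a : ∀ v ∈ V, ∀ r ∈ S21, μ2 (v * r) = 0
  m2b : ∀ r ∈ S20, μ2 (σ * r) = 0
  m2c : ∀ v ∈ V, μ2 (v * (σ * σ)) = ev v
  m2d : μ2 (σ * (σ * σ)) = 0
  m3a : ∀ v ∈ V, ∀ r ∈ S21, μ3 (v * r) = 0
  m3b : ∀ r ∈ S21, μ3 (σ * r) = 0
  m3c : ∀ v ∈ V, μ3 (v * (σ * σ)) = 0
  m3d : μ3 (σ * (σ * σ)) = 1

namespace PointData

variable {V V' S20 S21 S22 : Submodule F A} {σ v0 : A} {s ev μ1 μ2 μ3 : A →ₗ[F] F}

theorem twist (h : PointData V V' S20 S21 S22 σ v0 s ev μ1 μ2 μ3) :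
    ∀ n, DExact V V S20 n → DExact V V' S21 n := by
  intro n hn
  cases n with
  | zero =>
    intro φ hφ w r hr
    obtain ⟨r0, hr0, c, rfl⟩ := h.dec21 r hr
    rw [map_add, map_smul, hn φ (fun w hw r hr => hφ w hw r (h.hVV' hr)) w r0 hr0]
    have h1 := hφ (fun _ => v0) (fun _ => h.hv0) σ h.hσ
    rw [dd_apply] at h1
    simp only [Nat.reduceAdd, Finset.univ_unique, Fin.default_eq_zero, Fin.isValue,
      Fin.val_eq_zero, pow_zero, one_mul, sum_singleton] at h1
    have e : Fin.removeNth (0 : Fin 1) (fun _ => v0) = w := by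
      funext l; exact l.elim0
    rw [e] at h1
    rw [h1, smul_zero, add_zero]
  | succ n =>
    intro φ hφ
    obtain ⟨ψ, hψ⟩ := hn φ (fun w hw r hr => hφ w hw r (h.hVV' hr))
    set φ1 := φ - dd ψ with hφ1
    have hcl : ∀ w r, dd φ1 w r = dd φ w r := by
      intro w r
      rw [hφ1, dd_sub, AlternatingMap.sub_apply, LinearMap.sub_apply, dd_dd]
      simp
    have hk : ∀ w : Fin (n + 1) → A, (∀ l, w l ∈ V) → ∀ r ∈ S20, φ1 w r = 0 := by
      intro w hw r hr
      rw [hφ1, AlternatingMap.sub_apply, LinearMap.sub_apply, hψ w hw r hr, sub_self]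
    set β := evAt φ1 (v0 * σ) with hβ
    have hval : ∀ w : Fin (n + 1) → A, (∀ l, w l ∈ V) → ∀ v ∈ V,
        φ1 w (v * σ) = ev v * β w := by
      intro w hw v hv
      have h1 := hk w hw _ (h.evV v hv)
      rw [map_sub, map_smul, sub_eq_zero] at h1
      rw [h1, hβ, evAt_apply, smul_eq_mul]
    have hβf : ∀ w : Fin (n + 1) → A, (∀ l, w l ∈ V) →
        β w = ∑ l : Fin (n + 1), (-1) ^ (l : ℕ) * (β.curryLeft v0 (Fin.removeNth l w) * ev (w l)) := by
      intro w hw
      have h1 := dd_cons φ1 v0 w σ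
      rw [hcl, hφ _ (cons_mem h.hv0 hw) σ h.hσ, eq_comm, sub_eq_zero] at h1
      rw [hβ, evAt_apply, h1]
      refine sum_congr rfl fun l _ => ?_
      rw [hval _ (update_mem hw l h.hv0) _ (hw l), map_update_scalar]
      rw [AlternatingMap.curryLeft_apply_apply]
      ring
    refine ⟨ψ + tens (β.curryLeft v0) μ1, fun w hw r hr => ?_⟩
    have hadd : dd (ψ + tens (β.curryLeft v0) μ1) w r
        = dd ψ w r + dd (tens (β.curryLeft v0) μ1) w r := by
      simp only [dd_apply, AlternatingMap.add_apply, LinearMap.add_apply, mul_add,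
        Finset.sum_add_distrib]
    have hkey : φ1 w r = dd (tens (β.curryLeft v0) μ1) w r := by
      obtain ⟨r0, hr0, c, rfl⟩ := h.dec21 r hr
      have e1 : dd (tens (β.curryLeft v0) μ1) w r0 = 0 := by
        rw [dd_apply]
        refine sum_eq_zero fun l _ => ?_
        rw [tens_apply, h.m1a _ (hw l) r0 hr0]
        ring
      have e2 : dd (tens (β.curryLeft v0) μ1) w (v0 * σ) = β w := by
        rw [dd_apply, hβf w hw]
        refine sum_congr rfl fun l _ => ?_
        rw [tens_apply, h.m1b _ (hw l)]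
      rw [map_add, map_add, map_smul, map_smul, e1, e2, hk w hw r0 hr0, hβ, evAt_apply]
    rw [hadd, ← hkey, hφ1, AlternatingMap.sub_apply, LinearMap.sub_apply]
    ring

theorem add (h : PointData V V' S20 S21 S22 σ v0 s ev μ1 μ2 μ3) (p : ℕ)
    (hex : ∀ n ≤ p, DExact V V S20 n) : ∀ n ≤ p, DExact V' V' S22 n := by
  intro n hnp
  have hn := hex n hnp
  have htw := h.twist n hn
  cases n with
  | zero =>
    intro φ hφ w r hr
    obtain ⟨r0, hr0, c, rfl⟩ := h.dec22 r hr
    rw [map_add, map_smul]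
    have h1 := hφ (fun _ => σ) (fun _ => h.hσ) σ h.hσ
    rw [dd_apply] at h1
    simp only [Nat.reduceAdd, Finset.univ_unique, Fin.default_eq_zero, Fin.isValue,
      Fin.val_eq_zero, pow_zero, one_mul, sum_singleton] at h1
    have e : Fin.removeNth (0 : Fin 1) (fun _ => σ) = w := by
      funext l; exact l.elim0
    rw [e] at h1
    have h2 := htw φ (fun w hw r hr => hφ w (fun l => h.hVV' (hw l)) r hr) w r0 hr0
    rw [h1, h2, smul_zero, add_zero]
  | succ n =>
    intro φ hφ
    -- step 1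
    obtain ⟨ψ1, hψ1⟩ := htw φ (fun w hw r hr => hφ w (fun l => h.hVV' (hw l)) r hr)
    set φ1 := φ - dd ψ1 with hφ1
    have hcl1 : ∀ w r, dd φ1 w r = dd φ w r := by
      intro w r
      rw [hφ1, dd_sub, AlternatingMap.sub_apply, LinearMap.sub_apply, dd_dd]
      simp
    have hk1 : ∀ w : Fin (n + 1) → A, (∀ l, w l ∈ V) → ∀ r ∈ S21, φ1 w r = 0 := by
      intro w hw r hr
      rw [hφ1, AlternatingMap.sub_apply, LinearMap.sub_apply, hψ1 w hw r hr, sub_self]
    have hσr : ∀ r ∈ V, σ * r ∈ S21 := by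
      intro r hr
      have h1 := S21.add_mem (h.hle (h.evV r hr)) (S21.smul_mem (ev r) h.hv0σ)
      rw [sub_add_cancel, mul_comm] at h1
      exact h1
    -- step 2
    obtain ⟨ψ2, hψ2V, hψ2σ⟩ : ∃ ψ2 : A [⋀^Fin n]→ₗ[F] (A →ₗ[F] F),
        (∀ w : Fin (n + 1) → A, (∀ l, w l ∈ V) → ∀ r, dd ψ2 w r = 0) ∧
        (∀ w : Fin n → A, (∀ l, w l ∈ V) → ∀ r ∈ S20,
          φ1 (Matrix.vecCons σ w) r = dd ψ2 (Matrix.vecCons σ w) r) := by
      have hχ : ∀ w : Fin (n + 1) → A, (∀ l, w l ∈ V) → ∀ r ∈ V,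
          dd (φ1.curryLeft σ) w r = 0 := by
        intro w hw r hr
        have h1 := dd_cons φ1 σ w r
        rw [hcl1, hφ _ (cons_mem h.hσ (fun l => h.hVV' (hw l))) r (h.hVV' hr),
          hk1 w hw _ (hσr r hr), zero_sub, eq_comm, neg_eq_zero] at h1
        rw [dd_apply, ← h1]
        refine sum_congr rfl fun l _ => ?_
        rw [map_update_eq, AlternatingMap.curryLeft_apply_apply]
      cases n with
      | zero =>
        refine ⟨0, ?_, ?_⟩
        · intro w hw r
          rw [dd_apply]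
          simp
        · intro w hw r hr
          have h1 := hex 0 (by omega) (φ1.curryLeft σ) hχ w r hr
          rw [AlternatingMap.curryLeft_apply_apply] at h1
          rw [h1, dd_apply]
          simp
      | succ n =>
        obtain ⟨θ, hθ⟩ := hex (n + 1) (by omega) (φ1.curryLeft σ) hχ
        refine ⟨-sw s θ, ?_, ?_⟩
        · intro w hw r
          rw [dd_apply]
          refine sum_eq_zero fun l _ => ?_
          rw [AlternatingMap.neg_apply, LinearMap.neg_apply,
            sw_zero h.sV θ _ (removeNth_mem hw l)]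
          ring
        · intro w hw r hr
          have h1 := hθ w hw r hr
          rw [AlternatingMap.curryLeft_apply_apply] at h1
          rw [h1, dd_cons, AlternatingMap.neg_apply, LinearMap.neg_apply,
            sw_zero h.sV θ _ hw, neg_zero, zero_sub, dd_apply, ← sum_neg_distrib]
          refine sum_congr rfl fun l _ => ?_
          rw [map_update_eq, AlternatingMap.neg_apply, LinearMap.neg_apply,
            sw_cons h.sV h.sσ θ _ (removeNth_mem hw l)]
          ring
    set φ2 := φ1 - dd ψ2 with hφ2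
    have hcl2 : ∀ w r, dd φ2 w r = dd φ w r := by
      intro w r
      rw [hφ2, dd_sub, AlternatingMap.sub_apply, LinearMap.sub_apply, dd_dd, hcl1]
      simp
    have hk2 : ∀ w : Fin (n + 1) → A, (∀ l, w l ∈ V) → ∀ r ∈ S21, φ2 w r = 0 := by
      intro w hw r hr
      rw [hφ2, AlternatingMap.sub_apply, LinearMap.sub_apply, hk1 w hw r hr, hψ2V w hw r,
        sub_self]
    have hk2σ : ∀ w : Fin n → A, (∀ l, w l ∈ V) → ∀ r ∈ S20,
        φ2 (Matrix.vecCons σ w) r = 0 := by
      intro w hw r hr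
      rw [hφ2, AlternatingMap.sub_apply, LinearMap.sub_apply, hψ2σ w hw r hr, sub_self]
    -- step 3
    set β := (evAt φ2 (v0 * σ)).curryLeft σ with hβ
    set γ := (evAt φ2 (σ * σ)).curryLeft σ with hγ
    have hβσ : ∀ (w : Fin n → A) (l : Fin n), β (Function.update w l σ) = 0 := by
      intro w l
      rw [hβ, AlternatingMap.curryLeft_apply_apply]
      refine (evAt φ2 (v0 * σ)).map_eq_zero_of_eq (i := 0) (j := l.succ) _ ?_
        (Fin.succ_ne_zero l).symm
      simp
    have hγσ : ∀ (w : Fin n → A) (l : Fin n), γ (Function.update w l σ) = 0 := by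
      intro w l
      rw [hγ, AlternatingMap.curryLeft_apply_apply]
      refine (evAt φ2 (σ * σ)).map_eq_zero_of_eq (i := 0) (j := l.succ) _ ?_
        (Fin.succ_ne_zero l).symm
      simp
    have hval : ∀ w : Fin n → A, (∀ l, w l ∈ V) → ∀ v ∈ V,
        φ2 (Matrix.vecCons σ w) (v * σ) = ev v * β w := by
      intro w hw v hv
      have h1 := hk2σ w hw _ (h.evV v hv)
      rw [map_sub, map_smul, sub_eq_zero] at h1
      rw [h1, hβ, AlternatingMap.curryLeft_apply_apply, evAt_apply, smul_eq_mul]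
    set ψ3 := tens β μ2 + tens γ μ3 with hψ3
    have hψ3a : ∀ w r, ψ3 w r = β w * μ2 r + γ w * μ3 r := by
      intro w r
      rw [hψ3, AlternatingMap.add_apply, LinearMap.add_apply, tens_apply, tens_apply]
    have main : ∀ w : Fin (n + 1) → A, (∀ l, w l ∈ V') → ∀ r ∈ S22, φ2 w r = dd ψ3 w r := by
      intro w hw r hr
      have hz := alt_ext h.decV (evAt (φ2 - dd ψ3) r) ?_ ?_ w hw
      · rw [evAt_apply, AlternatingMap.sub_apply, LinearMap.sub_apply, sub_eq_zero] at hz
        exact hz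
      · -- on `V`
        intro w hw
        obtain ⟨r0, hr0, c, rfl⟩ := h.dec22 r hr
        have e1 : dd ψ3 w r0 = 0 := by
          rw [dd_apply]
          refine sum_eq_zero fun l _ => ?_
          rw [hψ3a, h.m2a _ (hw l) r0 hr0, h.m3a _ (hw l) r0 hr0]
          ring
        have e2 : dd ψ3 w (σ * σ) = φ2 w (σ * σ) := by
          have h1 := dd_cons φ2 σ w σ
          rw [hcl2, hφ _ (cons_mem h.hσ (fun l => h.hVV' (hw l))) σ h.hσ, eq_comm,
            sub_eq_zero] at h1
          rw [h1, dd_apply]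
          refine sum_congr rfl fun l _ => ?_
          rw [hψ3a, h.m2c _ (hw l), h.m3c _ (hw l), map_update_eq,
            hval _ (removeNth_mem hw l) _ (hw l)]
          ring
        rw [evAt_apply, AlternatingMap.sub_apply, LinearMap.sub_apply, map_add, map_add,
          map_smul, map_smul, e1, e2, hk2 w hw r0 hr0]
        ring
      · -- on `(σ, V)`
        intro w hw
        have e0 : ∀ r, dd ψ3 (Matrix.vecCons σ w) r = β w * μ2 (σ * r) + γ w * μ3 (σ * r) := by
          intro r
          rw [dd_cons, hψ3a, sum_eq_zero, sub_zero]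
          intro l _
          rw [hψ3a, hβσ, hγσ]
          ring
        obtain ⟨r1, hr1, c, rfl⟩ := h.dec22 r hr
        obtain ⟨r0, hr0, c', rfl⟩ := h.dec21 r1 hr1
        have e1 : dd ψ3 (Matrix.vecCons σ w) r0 = 0 := by
          rw [e0, h.m2b r0 hr0, h.m3b r0 (h.hle hr0)]
          ring
        have e2 : dd ψ3 (Matrix.vecCons σ w) (v0 * σ) = φ2 (Matrix.vecCons σ w) (v0 * σ) := by
          have h1 : σ * (v0 * σ) = v0 * (σ * σ) := by ring
          rw [e0, h.m3b _ h.hv0σ, h1, h.m2c _ h.hv0, h.ev0, hβ,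
            AlternatingMap.curryLeft_apply_apply, evAt_apply]
          ring
        have e3 : dd ψ3 (Matrix.vecCons σ w) (σ * σ) = φ2 (Matrix.vecCons σ w) (σ * σ) := by
          have hγw : γ w = φ2 (Matrix.vecCons σ w) (σ * σ) := rfl
          rw [e0, h.m2d, h.m3d, hγw]
          ring
        rw [evAt_apply, AlternatingMap.sub_apply, LinearMap.sub_apply, map_add, map_add,
          map_add, map_add, map_smul, map_smul, map_smul, map_smul, e1, e2, e3,
          hk2σ w hw r0 hr0]
        ring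
    refine ⟨ψ1 + ψ2 + ψ3, fun w hw r hr => ?_⟩
    have hadd : dd (ψ1 + ψ2 + ψ3) w r = dd ψ1 w r + dd ψ2 w r + dd ψ3 w r := by
      simp only [dd_apply, AlternatingMap.add_apply, LinearMap.add_apply, mul_add,
        Finset.sum_add_distrib]
    have hm := main w hw r hr
    rw [hφ2, hφ1, AlternatingMap.sub_apply, LinearMap.sub_apply, AlternatingMap.sub_apply,
      LinearMap.sub_apply] at hm
    rw [hadd]
    linear_combination hm

end PointData

end PoolNP
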