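import Mathlib

/-!
The dual Koszul differential on alternating maps with values in functionals.
-/

namespace PoolNP

open Finset

variable {F A : Type*} [Field F] [CommRing A] [Algebra F A]

/-- `f ↦ (r ↦ f (v r))`, linear in `v`. -/
noncomputable def mulT : A →ₗ[F] (A →ₗ[F] F) →ₗ[F] (A →ₗ[F] F) where
  toFun v :=
    { toFun := fun f => f ∘ₗ LinearMap.mulLeft F v
      map_add' := fun f g => by ext r; rfl
      map_smul' := fun c f => by ext r; rfl }
  map_add' u v := by ext f r; simp [add_mul]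
  map_smul' c v := by ext f r; simp

@[simp] theorem mulT_apply (v : A) (f : A →ₗ[F] F) (r : A) : mulT v f r = f (v * r) := rfl

/-- `v ↦ (w ↦ v · φ w)`. -/
noncomputable def mulF {n : ℕ} (φ : A [⋀^Fin n]→ₗ[F] (A →ₗ[F] F)) :
    A →ₗ[F] (A [⋀^Fin n]→ₗ[F] (A →ₗ[F] F)) where
  toFun v := (mulT v).compAlternatingMap φ
  map_add' u v := by ext w r; simp [add_mul]
  map_smul' c v := by ext w r; simp

@[simp] theorem mulF_apply {n : ℕ} (φ : A [⋀^Fin n]→ₗ[F] (A →ₗ[F] F)) (v : A) (w : Fin n → A)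
    (r : A) : mulF φ v w r = φ w (v * r) := rfl

/-- The dual Koszul differential. -/
noncomputable def dd {n : ℕ} (φ : A [⋀^Fin n]→ₗ[F] (A →ₗ[F] F)) :
    A [⋀^Fin (n + 1)]→ₗ[F] (A →ₗ[F] F) :=
  AlternatingMap.alternatizeUncurryFin (mulF φ)

theorem dd_apply {n : ℕ} (φ : A [⋀^Fin n]→ₗ[F] (A →ₗ[F] F)) (w : Fin (n + 1) → A) (r : A) :
    dd φ w r = ∑ l : Fin (n + 1), (-1) ^ (l : ℕ) * φ (Fin.removeNth l w) (w l * r) := by
  rw [dd, AlternatingMap.alternatizeUncurryFin_apply, LinearMap.sum_apply]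
  refine sum_congr rfl fun l _ => ?_
  rcases neg_one_pow_eq_or ℤ (l : ℕ) with h | h <;> rcases Nat.even_or_odd (l : ℕ) with h' | h' <;>
    simp [h'.neg_one_pow]

theorem dd_dd {n : ℕ} (φ : A [⋀^Fin n]→ₗ[F] (A →ₗ[F] F)) : dd (dd φ) = 0 := by
  let f : A →ₗ[F] A →ₗ[F] (A [⋀^Fin n]→ₗ[F] (A →ₗ[F] F)) :=
    { toFun := fun u =>
        { toFun := fun v => (mulT u).compAlternatingMap ((mulT v).compAlternatingMap φ)
          map_add' := fun a b => by ext w r; simp [add_mul]
          map_smul' := fun c a => by ext w r; simp }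
      map_add' := fun a b => by ext v w r; simp [add_mul, mul_add]
      map_smul' := fun c a => by ext v w r; simp }
  have hf : mulF (dd φ) = AlternatingMap.alternatizeUncurryFinLM ∘ₗ f := by
    ext u w r
    rw [mulF_apply, dd_apply, LinearMap.comp_apply,
      AlternatingMap.alternatizeUncurryFinLM_apply, AlternatingMap.alternatizeUncurryFin_apply,
      LinearMap.sum_apply]
    refine sum_congr rfl fun l _ => ?_
    rcases Nat.even_or_odd (l : ℕ) with h' | h' <;> simp [h'.neg_one_pow, f]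
  rw [dd, hf]
  refine AlternatingMap.alternatizeUncurryFin_alternatizeUncurryFinLM_comp_of_symmetric ?_
  intro u v
  ext w r
  simp only [f, LinearMap.coe_mk, AddHom.coe_mk, LinearMap.compAlternatingMap_apply, mulT_apply]
  rw [mul_left_comm]

theorem dd_sub {n : ℕ} (φ ψ : A [⋀^Fin n]→ₗ[F] (A →ₗ[F] F)) : dd (φ - ψ) = dd φ - dd ψ := by
  ext w r
  simp only [dd_apply, AlternatingMap.sub_apply, LinearMap.sub_apply, mul_sub,
    Finset.sum_sub_distrib]

theorem update_eq_insertNth {n : ℕ} (w : Fin (n + 1) → A) (l : Fin (n + 1)) (v : A) :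
    Function.update w l v = Fin.insertNth (α := fun _ => A) l v (Fin.removeNth l w) := by
  rw [Fin.insertNth_removeNth]

/-- moving the inserted vector to the front. -/
theorem map_update_eq {n : ℕ} (φ : A [⋀^Fin (n + 1)]→ₗ[F] (A →ₗ[F] F)) (w : Fin (n + 1) → A)
    (l : Fin (n + 1)) (v : A) (r : A) :
    φ (Function.update w l v) r
      = (-1) ^ (l : ℕ) * φ (Matrix.vecCons v (Fin.removeNth l w)) r := by
  rw [update_eq_insertNth, AlternatingMap.map_insertNth]
  rcases Nat.even_or_odd (l : ℕ) with h' | h' <;> simp [h'.neg_one_pow]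

/-- Differential of a twisted contraction. -/
theorem dd_curry {n : ℕ} (φ : A [⋀^Fin (n + 1)]→ₗ[F] (A →ₗ[F] F)) (G : A) (lam : A →ₗ[F] A)
    (w : Fin (n + 1) → A) (r : A) :
    dd ((LinearMap.lcomp F F lam).compAlternatingMap (φ.curryLeft G)) w r
      = ∑ l, φ (Function.update w l G) (lam (w l * r)) := by
  rw [dd_apply]
  refine sum_congr rfl fun l _ => ?_
  rw [map_update_eq]
  rfl

/-- The Cartan formula. -/
theorem dd_cons {n : ℕ} (φ : A [⋀^Fin n]→ₗ[F] (A →ₗ[F] F)) (v : A) (w : Fin n → A) (r : A) :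
    dd φ (Matrix.vecCons v w) r
      = φ w (v * r) - ∑ l, φ (Function.update w l v) (w l * r) := by
  rw [dd_apply, Fin.sum_univ_succ]
  have h0 : Fin.removeNth (0 : Fin (n + 1)) (Matrix.vecCons v w) = w := by
    funext l
    simp [Fin.removeNth, Matrix.vecCons]
  rw [h0]
  simp only [Fin.val_zero, pow_zero, one_mul, Matrix.cons_val_zero, Matrix.cons_val_succ,
    sub_eq_add_neg, ← Finset.sum_neg_distrib]
  congr 1
  refine sum_congr rfl fun l _ => ?_
  cases n with
  | zero => exact l.elim0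
  | succ n =>
    rw [map_update_eq]
    have h1 : Fin.removeNth l.succ (Matrix.vecCons v w)
        = Matrix.vecCons v (Fin.removeNth l w) := by
      funext i
      refine Fin.cases ?_ (fun i => ?_) i
      · simp [Fin.removeNth, Matrix.vecCons]
      · simp [Fin.removeNth, Matrix.vecCons]
    rw [h1, Fin.val_succ, pow_succ]
    ring

end PoolNP
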