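import Pool.Agent.helper43.NP.Alt

/-!
Reduction of a closed alternating map by two elements `1` and `G` of `V`.
-/

namespace PoolNP

open Finset

variable {F A : Type*} [Field F] [CommRing A] [Algebra F A]

/-- A linear map that inverts multiplication by `G` modulo `M0` and kills `M1`. -/
theorem exists_lam (M0 M1 : Submodule F A) (G : A)
    (hG : ∀ r ∈ M1, G * r ∈ M1 → r ∈ M0) :
    ∃ lam : A →ₗ[F] A, (∀ r ∈ M1, lam (G * r) - r ∈ M0) ∧ ∀ r ∈ M1, lam r = 0 := by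
  let f : M1 →ₗ[F] A ⧸ M1 := M1.mkQ ∘ₗ LinearMap.mulLeft F G ∘ₗ M1.subtype
  obtain ⟨h, hh⟩ := f.rangeRestrict.exists_rightInverse_of_surjective
    (LinearMap.range_rangeRestrict f)
  obtain ⟨g, hg⟩ := LinearMap.exists_extend h
  refine ⟨M1.subtype ∘ₗ g ∘ₗ M1.mkQ, ?_, ?_⟩
  · intro r hr
    have h1 : f (g (f ⟨r, hr⟩)) = f ⟨r, hr⟩ := by
      have e1 : g (f ⟨r, hr⟩) = h (f.rangeRestrict ⟨r, hr⟩) := by
        rw [← hg]; rfl
      rw [e1]
      have e2 := LinearMap.congr_fun hh (f.rangeRestrict ⟨r, hr⟩)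
      exact congrArg Subtype.val e2
    have h2 : f (g (f ⟨r, hr⟩) - ⟨r, hr⟩) = 0 := by rw [map_sub, h1, sub_self]
    have h3 : G * ((g (f ⟨r, hr⟩) : A) - r) ∈ M1 := by
      have : M1.mkQ (G * ((g (f ⟨r, hr⟩) : A) - r)) = 0 := h2
      rwa [Submodule.mkQ_apply, Submodule.Quotient.mk_eq_zero] at this
    exact hG _ (M1.sub_mem (g (f ⟨r, hr⟩)).2 hr) h3
  · intro r hr
    have : M1.mkQ r = 0 := by
      rwa [Submodule.mkQ_apply, Submodule.Quotient.mk_eq_zero]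
    simp [this]

theorem reduce {n : ℕ} (V M0 M1 : Submodule F A) (G : A) (h1V : (1 : A) ∈ V) (hGV : G ∈ V)
    (hVM : ∀ v ∈ V, ∀ r ∈ M0, v * r ∈ M1)
    (hG : ∀ r ∈ M1, G * r ∈ M1 → r ∈ M0)
    (hkill : ∀ φ : A [⋀^Fin (n + 1)]→ₗ[F] (A →ₗ[F] F),
      (∀ w : Fin (n + 2) → A, (∀ l, w l ∈ V) → ∀ r ∈ M0, dd φ w r = 0) →
      (∀ w : Fin (n + 1) → A, (∀ l, w l ∈ V) → ∀ r ∈ M0, φ w r = 0) →
      (∀ w : Fin (n + 1) → A, (∀ l, w l ∈ V) → ∀ r ∈ M0, φ w (G * r) = 0) →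
      ∀ w : Fin (n + 1) → A, (∀ l, w l ∈ V) → ∀ r ∈ M1, φ w r = 0)
    (φ : A [⋀^Fin (n + 1)]→ₗ[F] (A →ₗ[F] F))
    (hφ : ∀ w : Fin (n + 2) → A, (∀ l, w l ∈ V) → ∀ r ∈ M0, dd φ w r = 0) :
    ∃ ψ : A [⋀^Fin n]→ₗ[F] (A →ₗ[F] F),
      ∀ w : Fin (n + 1) → A, (∀ l, w l ∈ V) → ∀ r ∈ M1, φ w r = dd ψ w r := by
  obtain ⟨lam, hl1, hl2⟩ := exists_lam M0 M1 G hG
  have hup : ∀ (w : Fin (n + 1) → A), (∀ l, w l ∈ V) → ∀ (l : Fin (n + 1)) (v : A), v ∈ V →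
      ∀ l', Function.update w l v l' ∈ V := by
    intro w hw l v hv l'
    by_cases h : l' = l
    · subst h; simpa using hv
    · simpa [Function.update_of_ne h] using hw l'
  -- first reduction
  set ψ1 : A [⋀^Fin n]→ₗ[F] (A →ₗ[F] F) :=
    (LinearMap.lcomp F F LinearMap.id).compAlternatingMap (φ.curryLeft 1) with hψ1
  set φ1 : A [⋀^Fin (n + 1)]→ₗ[F] (A →ₗ[F] F) := φ - dd ψ1 with hφ1
  have hφ1c : ∀ w r, dd φ1 w r = dd φ w r := by
    intro w r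
    rw [hφ1, dd_sub, AlternatingMap.sub_apply, LinearMap.sub_apply, dd_dd]
    simp
  have hφ1k : ∀ w : Fin (n + 1) → A, (∀ l, w l ∈ V) → ∀ r ∈ M0, φ1 w r = 0 := by
    intro w hw r hr
    have h1 := dd_cons φ 1 w r
    rw [hφ (Matrix.vecCons 1 w) (by
      intro l
      refine Fin.cases ?_ (fun l => ?_) l
      · simpa using h1V
      · simpa using hw l) r hr, one_mul] at h1
    rw [hφ1, AlternatingMap.sub_apply, LinearMap.sub_apply, hψ1, dd_curry]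
    simpa using h1.symm
  -- second reduction
  set ψ2 : A [⋀^Fin n]→ₗ[F] (A →ₗ[F] F) :=
    (LinearMap.lcomp F F lam).compAlternatingMap (φ1.curryLeft G) with hψ2
  set φ2 : A [⋀^Fin (n + 1)]→ₗ[F] (A →ₗ[F] F) := φ1 - dd ψ2 with hφ2
  have hφ2c : ∀ w r, dd φ2 w r = dd φ w r := by
    intro w r
    rw [hφ2, dd_sub, AlternatingMap.sub_apply, LinearMap.sub_apply, dd_dd, hφ1c]
    simp
  have hk0 : ∀ w : Fin (n + 1) → A, (∀ l, w l ∈ V) → ∀ r ∈ M0, φ2 w r = 0 := by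
    intro w hw r hr
    rw [hφ2, AlternatingMap.sub_apply, LinearMap.sub_apply, hφ1k w hw r hr, hψ2, dd_curry,
      zero_sub, neg_eq_zero]
    refine sum_eq_zero fun l _ => ?_
    rw [hl2 _ (hVM _ (hw l) r hr), map_zero]
  have hk1 : ∀ w : Fin (n + 1) → A, (∀ l, w l ∈ V) → ∀ r ∈ M0, φ2 w (G * r) = 0 := by
    intro w hw r hr
    have h1 := dd_cons φ1 G w r
    rw [hφ1c, hφ (Matrix.vecCons G w) (by
      intro l
      refine Fin.cases ?_ (fun l => ?_) l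
      · simpa using hGV
      · simpa using hw l) r hr] at h1
    rw [hφ2, AlternatingMap.sub_apply, LinearMap.sub_apply, hψ2, dd_curry]
    rw [eq_comm, sub_eq_zero] at h1
    rw [h1, sub_eq_zero]
    refine sum_congr rfl fun l _ => ?_
    have h2 : w l * (G * r) = G * (w l * r) := by ring
    have h3 := hφ1k _ (hup w hw l G hGV) _ (hl1 (w l * r) (hVM _ (hw l) r hr))
    rw [map_sub, sub_eq_zero] at h3
    rw [h2, h3]
  refine ⟨ψ1 + ψ2, fun w hw r hr => ?_⟩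
  have hz := hkill φ2 (fun w hw r hr => by rw [hφ2c]; exact hφ w hw r hr) hk0 hk1 w hw r hr
  have hadd : dd (ψ1 + ψ2) w r = dd ψ1 w r + dd ψ2 w r := by
    simp only [dd_apply, AlternatingMap.add_apply, LinearMap.add_apply, mul_add,
      Finset.sum_add_distrib]
  rw [hφ2, hφ1, AlternatingMap.sub_apply, LinearMap.sub_apply, AlternatingMap.sub_apply,
    LinearMap.sub_apply] at hz
  rw [hadd]
  linear_combination hz

end PoolNP
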