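import Mathlib

/-!
Abstract section spaces `W e = H^0(e A)` inside an algebra, with the element `x`.
-/

namespace PoolNP

open Finset

/-- The properties of the spaces `W e = H^0(X, e A)` used in the proof. -/
structure SecData {F A : Type*} [Field F] [CommRing A] [Algebra F A] (x : A)
    (W : ℕ → Submodule F A) (q : ℕ) : Prop where
  one0 : (1 : A) ∈ W 0
  one1 : (1 : A) ∈ W 1
  x1 : x ∈ W 1
  mul : ∀ e e', ∀ f ∈ W e, ∀ g ∈ W e', f * g ∈ W (e + e')
  div : ∀ e e' i, ∀ h ∈ W e', x ^ i * h ∈ W (e + i) → h ∈ W e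
  gen : ∀ e, q + 1 ≤ e → ∀ c ∈ W (e + 1), ∃ a ∈ W e, ∃ b ∈ W e, c = a + x * b

namespace SecData

variable {F A : Type*} [Field F] [CommRing A] [Algebra F A] {x : A}
  {W : ℕ → Submodule F A} {q : ℕ}

theorem mono (h : SecData x W q) {e e' : ℕ} (hee : e ≤ e') : W e ≤ W e' := by
  induction e', hee using Nat.le_induction with
  | base => exact le_rfl
  | succ n _ ih =>
    intro f hf
    have := h.mul n 1 f (ih hf) 1 h.one1
    rwa [mul_one] at this

theorem xpow (h : SecData x W q) {i e : ℕ} (hie : i ≤ e) : x ^ i ∈ W e := by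
  refine h.mono hie ?_
  clear hie
  induction i with
  | zero => simpa using h.one0
  | succ n ih =>
    rw [pow_succ]
    exact h.mul n 1 _ ih _ h.x1

theorem xpow_mul (h : SecData x W q) {i e e' : ℕ} (hie : i + e ≤ e') {c : A} (hc : c ∈ W e) :
    x ^ i * c ∈ W e' :=
  h.mono hie (h.mul i e _ (h.xpow le_rfl) _ hc)

theorem mul_mem (h : SecData x W q) {e e' e'' : ℕ} (hie : e + e' ≤ e'') {c d : A} (hc : c ∈ W e)
    (hd : d ∈ W e') : c * d ∈ W e'' :=
  h.mono hie (h.mul e e' _ hc _ hd)

theorem span (h : SecData x W q) {e : ℕ} (he : q + 1 ≤ e) (n : ℕ) :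
    ∀ U : Submodule F A, (∀ i ≤ n, ∀ c ∈ W e, x ^ i * c ∈ U) → W (e + n) ≤ U := by
  induction n with
  | zero =>
    intro U hU c hc
    simpa using hU 0 le_rfl c hc
  | succ n ih =>
    intro U hU c hc
    obtain ⟨a, ha, b, hb, rfl⟩ := h.gen (e + n) (by omega) c hc
    refine U.add_mem ?_ ?_
    · exact ih U (fun i hi c hc => hU i (by omega) c hc) ha
    · have := ih (U.comap (LinearMap.mulLeft F x)) (fun i hi c hc => by
        have h2 := hU (i + 1) (by omega) c hc
        rw [pow_succ', mul_assoc] at h2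
        exact h2) hb
      exact this

/-- the linear factor. -/
noncomputable def lin (x : A) (τ : F) : A := x - algebraMap F A τ

theorem lin_mem (h : SecData x W q) (τ : F) : lin x τ ∈ W 1 := by
  refine (W 1).sub_mem h.x1 ?_
  rw [Algebra.algebraMap_eq_smul_one]
  exact (W 1).smul_mem _ h.one1

/-- sections of `m A` that vanish on the fibre of `τ`. -/
noncomputable def fib (x : A) (W : ℕ → Submodule F A) (m : ℕ) (τ : F) : Submodule F A :=
  (W (m - 1)).map (LinearMap.mulLeft F (lin x τ))

theorem mem_fib {m : ℕ} {τ : F} {f : A} :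
    f ∈ fib x W m τ ↔ ∃ g ∈ W (m - 1), lin x τ * g = f := by
  rw [fib, Submodule.mem_map]
  rfl

/-- `z τ = (x ^ m - τ ^ m) / (x - τ)`. -/
noncomputable def zz (x : A) (m : ℕ) (τ : F) : A :=
  ∑ i ∈ range m, x ^ i * (algebraMap F A τ) ^ (m - 1 - i)

theorem zz_mul_lin (m : ℕ) (τ : F) :
    zz x m τ * lin x τ = x ^ m - algebraMap F A (τ ^ m) := by
  rw [zz, lin, geom_sum₂_mul, map_pow]

theorem zz_mul (m : ℕ) (τ : F) (c : A) :
    zz x m τ * c = ∑ i ∈ range m, τ ^ (m - 1 - i) • (x ^ i * c) := by
  rw [zz, Finset.sum_mul]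
  refine sum_congr rfl fun i _ => ?_
  rw [← map_pow, Algebra.smul_def]
  ring

theorem zz_mem (h : SecData x W q) (m : ℕ) (τ : F) : zz x m τ ∈ W m := by
  have := zz_mul (x := x) m τ 1
  rw [mul_one] at this
  rw [this]
  refine Submodule.sum_mem _ fun i hi => Submodule.smul_mem _ _ ?_
  rw [mul_one]
  exact h.xpow (mem_range.1 hi).le

/-- `R_1 + x^m R_1`. -/
noncomputable def nn (x : A) (W : ℕ → Submodule F A) (m : ℕ) : Submodule F A :=
  W m ⊔ (W m).map (LinearMap.mulLeft F (x ^ m))

theorem mem_nn_left {m : ℕ} {f : A} (hf : f ∈ W m) : f ∈ nn x W m :=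
  Submodule.mem_sup_left hf

theorem mem_nn_right {m : ℕ} {f : A} (hf : f ∈ W m) : x ^ m * f ∈ nn x W m :=
  Submodule.mem_sup_right (Submodule.mem_map_of_mem (f := LinearMap.mulLeft F (x ^ m)) hf)

theorem zz_mul_fib (h : SecData x W q) {m : ℕ} (τ : F) {c : A} (hc : c ∈ fib x W m τ) :
    zz x m τ * c ∈ nn x W m := by
  obtain ⟨g, hg, rfl⟩ := mem_fib.1 hc
  have hg' : g ∈ W m := h.mono (Nat.sub_le _ _) hg
  rw [← mul_assoc, zz_mul_lin, sub_mul, ← Algebra.smul_def]
  exact Submodule.sub_mem _ (mem_nn_right hg') (mem_nn_left (Submodule.smul_mem _ _ hg'))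

theorem xpow_mem_nn (h : SecData x W q) {m i : ℕ} (hi : i ≤ 2 * m) : x ^ i ∈ nn x W m := by
  by_cases him : i ≤ m
  · exact mem_nn_left (h.xpow him)
  · have : x ^ i = x ^ m * x ^ (i - m) := by rw [← pow_add]; congr 1; omega
    rw [this]
    exact mem_nn_right (h.xpow (by omega))

theorem zz_mul_zz (h : SecData x W q) {m : ℕ} (τ τ' : F) :
    zz x m τ * zz x m τ' ∈ nn x W m := by
  rw [zz_mul]
  refine Submodule.sum_mem _ fun i hi => Submodule.smul_mem _ _ ?_
  rw [mul_comm, zz_mul]
  refine Submodule.sum_mem _ fun j hj => Submodule.smul_mem _ _ ?_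
  rw [← pow_add]
  rw [mem_range] at hi hj
  exact h.xpow_mem_nn (by omega)

/-- Lagrange decomposition along the fibres of the nodes in `Y`. -/
theorem lagrange [DecidableEq F] (h : SecData x W q) (Y : Finset F) (hY : Y.Nonempty) :
    ∀ e, q + 1 ≤ e → ∀ c ∈ W (e + (Y.card - 1)), ∃ g : F → A,
      (∀ y ∈ Y, g y ∈ W (e + (Y.card - 1))) ∧ c = ∑ y ∈ Y, g y ∧
        ∀ y ∈ Y, ∀ y' ∈ Y, y' ≠ y → g y ∈ fib x W (e + (Y.card - 1)) y' := by
  induction hY using Finset.Nonempty.cons_induction with
  | singleton a =>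
    intro e he c hc
    refine ⟨fun _ => c, by simpa using hc, by simp, ?_⟩
    intro y hy y' hy' hne
    rw [mem_singleton] at hy hy'
    exact absurd (hy'.trans hy.symm) hne
  | cons a s has hs ih =>
    intro e he c hc
    have hpos : 0 < s.card := hs.card_pos
    have hcard : (Finset.cons a s has).card = s.card + 1 := card_cons _
    have hcard1 : e + ((Finset.cons a s has).card - 1) = e + (s.card - 1) + 1 := by omega
    rw [hcard1] at hc ⊢
    set E := e + (s.card - 1) with hE
    -- write `c = b + (x - a) d`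
    obtain ⟨b', hb', d, hd, hcd⟩ := h.gen E (by omega) c hc
    obtain ⟨b, hb, hcb⟩ : ∃ b ∈ W E, c = b + lin x a * d := by
      refine ⟨b' + a • d, (W E).add_mem hb' ((W E).smul_mem _ hd), ?_⟩
      rw [hcd, lin, Algebra.smul_def]
      ring
    obtain ⟨g1, hg1V, hg1s, hg1Z⟩ := ih e he b hb
    obtain ⟨g2, hg2V, hg2s, hg2Z⟩ := ih e he d hd
    have hne : ∀ y ∈ s, y - a ≠ 0 := by
      intro y hy h0
      rw [sub_eq_zero] at h0
      exact has (h0 ▸ hy)
    -- type `y ∈ s`: `(x - a) g1 y / (y - a) + (x - a) g2 y`, type `a`: the rest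
    set ga : A := ∑ y ∈ s, (-(y - a)⁻¹) • (lin x y * g1 y) with hga
    set gy : F → A := fun y => (y - a)⁻¹ • (lin x a * g1 y) + lin x a * g2 y with hgy
    have hlinm : ∀ (t : F) (f : A), f ∈ W E → lin x t * f ∈ W (E + 1) := by
      intro t f hf
      rw [mul_comm]
      exact h.mul E 1 _ hf _ (h.lin_mem t)
    have hfibm : ∀ (t t' : F) (f : A), f ∈ fib x W E t' → lin x t * f ∈ fib x W (E + 1) t' := by
      intro t t' f hf
      obtain ⟨g, hg, rfl⟩ := mem_fib.1 hf
      refine mem_fib.2 ⟨lin x t * g, ?_, by ring⟩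
      refine h.mul_mem (e := 1) (e' := E - 1) ?_ (h.lin_mem t) hg
      omega
    have hga_mem : ga ∈ W (E + 1) :=
      Submodule.sum_mem _ fun y hy => Submodule.smul_mem _ _ (hlinm y _ (hg1V y hy))
    refine ⟨fun y => if y = a then ga else gy y, ?_, ?_, ?_⟩
    · intro y hy
      rw [mem_cons] at hy
      beta_reduce
      by_cases hya : y = a
      · rw [if_pos hya]; exact hga_mem
      · rw [if_neg hya]
        have hys : y ∈ s := hy.resolve_left hya
        exact Submodule.add_mem _ (Submodule.smul_mem _ _ (hlinm a _ (hg1V y hys)))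
          (hlinm a _ (hg2V y hys))
    · rw [sum_cons, if_pos rfl, sum_congr rfl (g := gy) (fun y hy => by
        rw [if_neg]
        rintro rfl
        exact has hy)]
      rw [hga, hgy, sum_add_distrib, ← mul_sum, ← hg2s, hcb, hg1s, ← add_assoc,
        ← sum_add_distrib]
      congr 1
      refine sum_congr rfl fun y hy => ?_
      have h1 : lin x y * g1 y = lin x a * g1 y - (y - a) • g1 y := by
        rw [lin, lin, Algebra.smul_def, map_sub]
        ring
      rw [h1, smul_sub, smul_smul, neg_mul, inv_mul_cancel₀ (hne y hy), neg_smul, neg_smul,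
        one_smul]
      abel
    · intro y hy y' hy' hyy'
      rw [mem_cons] at hy hy'
      beta_reduce
      by_cases hya : y = a
      · rw [if_pos hya]
        have hys' : y' ∈ s := hy'.resolve_left (fun h => hyy' (h.trans hya.symm))
        refine Submodule.sum_mem _ fun t ht => Submodule.smul_mem _ _ ?_
        by_cases hty : y' = t
        · subst hty
          exact mem_fib.2 ⟨g1 y', by simpa using hg1V y' ht, rfl⟩
        · exact hfibm _ _ _ (hg1Z t ht y' hys' hty)
      · rw [if_neg hya]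
        have hys : y ∈ s := hy.resolve_left hya
        by_cases hya' : y' = a
        · subst hya'
          refine Submodule.add_mem _ (Submodule.smul_mem _ _ ?_) ?_
          · exact mem_fib.2 ⟨g1 y, by simpa using hg1V y hys, rfl⟩
          · exact mem_fib.2 ⟨g2 y, by simpa using hg2V y hys, rfl⟩
        · have hys' : y' ∈ s := hy'.resolve_left hya'
          exact Submodule.add_mem _
            (Submodule.smul_mem _ _ (hfibm _ _ _ (hg1Z y hys y' hys' hyy')))
            (hfibm _ _ _ (hg2Z y hys y' hys' hyy'))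

/-- The elements `1`, `x^m` and `z τ` (for `τ` outside a finite set) generate `R_2`. -/
theorem h3 [Infinite F] (h : SecData x W q) {m : ℕ} (hm : q + 1 ≤ m) (T : Finset F)
    (f : A →ₗ[F] F) (hf : ∀ n ∈ nn x W m, f n = 0)
    (hfz : ∀ τ ∉ T, ∀ c ∈ W m, f (zz x m τ * c) = 0) : ∀ r ∈ W (m + m), f r = 0 := by
  have hmon : ∀ i ≤ m, ∀ c ∈ W m, f (x ^ i * c) = 0 := by
    intro i hi c hc
    rcases hi.lt_or_eq with hi | rfl
    · let P : Polynomial F :=
        ∑ j ∈ range m, Polynomial.C (f (x ^ j * c)) * Polynomial.X ^ (m - 1 - j)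
      have hP : P = 0 := by
        refine Polynomial.eq_zero_of_infinite_isRoot P ?_
        refine Set.Infinite.mono ?_ (T.finite_toSet.infinite_compl)
        intro τ hτ
        have h1 := hfz τ (by simpa using hτ) c hc
        rw [zz_mul, map_sum] at h1
        change P.eval τ = 0
        rw [← h1, Polynomial.eval_finsetSum]
        refine sum_congr rfl fun j _ => ?_
        rw [Polynomial.eval_mul, Polynomial.eval_C, Polynomial.eval_pow, Polynomial.eval_X,
          map_smul, smul_eq_mul, mul_comm]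
      have hco := congrArg (fun p => Polynomial.coeff p (m - 1 - i)) hP
      simp only [P, Polynomial.finsetSum_coeff, Polynomial.coeff_C_mul_X_pow,
        Polynomial.coeff_zero] at hco
      rw [sum_eq_single i] at hco
      · simpa using hco
      · intro j hj hji
        rw [mem_range] at hj
        rw [if_neg]
        omega
      · intro hni
        exact absurd (mem_range.2 hi) hni
    · exact hf _ (mem_nn_right hc)
  have := h.span hm m (LinearMap.ker f) (fun i hi c hc => LinearMap.mem_ker.2 (hmon i hi c hc))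
  intro r hr
  exact LinearMap.mem_ker.1 (this hr)

end SecData

end PoolNP
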