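import Pool.Agent.helper43.NP.Heart
import Pool.Agent.helper43.NP.Reduce
import Pool.Agent.helper43.NP.Sec

/-!
Exactness of the dual Koszul complex of the section spaces.
-/

namespace PoolNP

open Finset

variable {F A : Type*} [Field F] [CommRing A] [Algebra F A] {x : A}
  {W : ℕ → Submodule F A} {q : ℕ}

theorem main_dual [Infinite F] (h : SecData x W q) {m s n j : ℕ} (hm : m = q + 1 + s)
    (hn : n + 1 ≤ 2 * s + 1) (hj : 1 ≤ j)
    (φ : A [⋀^Fin (n + 1)]→ₗ[F] (A →ₗ[F] F))
    (hφ : ∀ w : Fin (n + 2) → A, (∀ l, w l ∈ W m) → ∀ r ∈ W (j * m), dd φ w r = 0) :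
    ∃ ψ : A [⋀^Fin n]→ₗ[F] (A →ₗ[F] F),
      ∀ w : Fin (n + 1) → A, (∀ l, w l ∈ W m) → ∀ r ∈ W ((j + 1) * m), φ w r = dd ψ w r := by
  classical
  have hqm : q + 1 ≤ m := by omega
  refine reduce (W m) (W (j * m)) (W ((j + 1) * m)) (x ^ m) ?_ ?_ ?_ ?_ ?_ φ hφ
  · simpa using h.xpow (Nat.zero_le m)
  · exact h.xpow le_rfl
  · intro v hv r hr
    exact h.mul_mem (by rw [add_mul]; omega) hv hr
  · intro r hr hr'
    refine h.div (j * m) ((j + 1) * m) m r hr ?_
    have : j * m + m = (j + 1) * m := by ring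
    rw [this]
    exact hr'
  · intro φ' hcl hk0 hk1 w hw r hr
    rcases hj.eq_or_lt with rfl | hj
    · -- the case `j = 1`: the heart
      rw [one_mul] at hcl hk0 hk1
      refine heart (ι := Fin (n + 1)) (W m) (SecData.nn x W m) (W ((1 + 1) * m))
        (fun τ => SecData.fib x W m τ) (fun τ => SecData.zz x m τ) s ?_ ?_ ?_ ?_ ?_ ?_
        φ'.toMultilinearMap ?_ ?_ ?_ w hw r hr
      · exact fun τ => h.zz_mem m τ
      · exact fun τ c hc => h.zz_mul_fib τ hc
      · exact fun τ τ' => h.zz_mul_zz τ τ'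
      · intro T f hf hfz r hr
        refine h.h3 hqm T f hf hfz r ?_
        have : (1 + 1) * m = m + m := by ring
        rwa [this] at hr
      · intro Y hY hYc c hc
        have hpos := hY.card_pos
        have he : m - (Y.card - 1) + (Y.card - 1) = m := by omega
        have := h.lagrange Y hY (m - (Y.card - 1)) (by omega) c (by rwa [he])
        rwa [he] at this
      · intro v hv r hr
        exact h.mul_mem (by omega) hv hr
      · intro v hv w hw r hr
        have h1 := dd_cons φ' v w r
        rw [hcl (Matrix.vecCons v w) (by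
          intro l
          refine Fin.cases ?_ (fun l => ?_) l
          · simpa using hv
          · simpa using hw l) r hr] at h1
        exact (sub_eq_zero.1 h1.symm)
      · intro w hw n hn
        obtain ⟨a, ha, b, hb, rfl⟩ := Submodule.mem_sup.1 hn
        obtain ⟨b', hb', rfl⟩ := Submodule.mem_map.1 hb
        have e1 : φ' w a = 0 := hk0 w hw a ha
        have e2 : φ' w (x ^ m * b') = 0 := hk1 w hw b' hb'
        change φ' w (a + x ^ m * b') = 0
        rw [map_add, e1, e2, add_zero]
      · rw [Fintype.card_fin]; exact hn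
    · -- `j ≥ 2`
      have hsub : W (m + j * m) ≤ LinearMap.ker (φ' w) := by
        refine h.span hqm (j * m) _ ?_
        intro i hi c hc
        rw [LinearMap.mem_ker]
        by_cases hi' : i + m ≤ j * m
        · exact hk0 w hw _ (h.xpow_mul hi' hc)
        · have h2 : 2 * m ≤ j * m := Nat.mul_le_mul_right m hj
          have e : x ^ i * c = x ^ m * (x ^ (i - m) * c) := by
            rw [← mul_assoc, ← pow_add]; congr 2; omega
          rw [e]
          exact hk1 w hw _ (h.xpow_mul (by omega) hc)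
      have e : (j + 1) * m = m + j * m := by ring
      rw [e] at hr
      exact LinearMap.mem_ker.1 (hsub hr)

/-- Generation of `R_{j+1}` by `V R_j`. -/
theorem main_zero (h : SecData x W q) {m j : ℕ} (hqm : q + 1 ≤ m)
    (f : A →ₗ[F] F) (hf : ∀ v ∈ W m, ∀ r ∈ W (j * m), f (v * r) = 0) :
    ∀ r ∈ W ((j + 1) * m), f r = 0 := by
  have hsub : W (m + j * m) ≤ LinearMap.ker f := by
    refine h.span hqm (j * m) _ ?_
    intro i hi c hc
    rw [LinearMap.mem_ker, mul_comm]
    exact hf c hc _ (h.xpow hi)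
  intro r hr
  have e : (j + 1) * m = m + j * m := by ring
  rw [e] at hr
  exact LinearMap.mem_ker.1 (hsub hr)

end PoolNP
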