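import Mathlib

/-!
The Koszul differential `⋀^{i+1} V ⊗ M → ⋀^i V ⊗ N` for subspaces `V, M, N` of an algebra `A`
with `V M ⊆ N`, and Property `(N_p)` of a graded family of subspaces.
-/

open scoped TensorProduct

namespace PoolNP

section General

variable {F : Type*} [CommRing F] {V M N B : Type*} [AddCommGroup V] [Module F V]
  [AddCommGroup M] [Module F M] [AddCommGroup N] [Module F N] [AddCommGroup B] [Module F B]

/-- The map `v ↦ (w ↦ (r ↦ ω(w) ⊗ μ(v, r)))`. -/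
noncomputable def wedgeTensor {i : ℕ} (ω : V [⋀^Fin i]→ₗ[F] B) (μ : V →ₗ[F] M →ₗ[F] N) :
    V →ₗ[F] (V [⋀^Fin i]→ₗ[F] (M →ₗ[F] B ⊗[F] N)) where
  toFun v := ((TensorProduct.mk F B N).compl₂ (μ v)).compAlternatingMap ω
  map_add' u v := by
    ext w r
    simp [TensorProduct.tmul_add]
  map_smul' c v := by
    ext w r
    simp

/-- The map
`(v_0 ∧ ⋯ ∧ v_i) ⊗ r ↦ ∑_l (-1)^l ω(v_0, …, v̂_l, …, v_i) ⊗ μ(v_l, r)`. -/
noncomputable def koszulGen {i : ℕ} (ω : V [⋀^Fin i]→ₗ[F] B) (μ : V →ₗ[F] M →ₗ[F] N) :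
    (⋀[F]^(i + 1) V) ⊗[F] M →ₗ[F] B ⊗[F] N :=
  TensorProduct.lift (exteriorPower.alternatingMapLinearEquiv
    (AlternatingMap.alternatizeUncurryFin (wedgeTensor ω μ)))

theorem koszulGen_apply {i : ℕ} (ω : V [⋀^Fin i]→ₗ[F] B) (μ : V →ₗ[F] M →ₗ[F] N)
    (v : Fin (i + 1) → V) (r : M) :
    koszulGen ω μ (exteriorPower.ιMulti F (i + 1) v ⊗ₜ[F] r)
      = ∑ l : Fin (i + 1), (-1 : F) ^ (l : ℕ) • (ω (Fin.removeNth l v) ⊗ₜ[F] μ (v l) r) := by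
  rw [koszulGen, TensorProduct.lift.tmul, exteriorPower.alternatingMapLinearEquiv_apply_ιMulti,
    AlternatingMap.alternatizeUncurryFin_apply, LinearMap.sum_apply]
  refine Finset.sum_congr rfl fun l _ => ?_
  rcases Nat.even_or_odd (l : ℕ) with h' | h' <;> simp [h'.neg_one_pow, wedgeTensor]

end General

variable {F A : Type*} [Field F] [CommRing A] [Algebra F A]

/-- The multiplication `V × M → N`, `(v, r) ↦ v r`. -/
noncomputable def mulMap (V M N : Submodule F A) (h : ∀ v ∈ V, ∀ r ∈ M, v * r ∈ N) :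
    V →ₗ[F] M →ₗ[F] N :=
  LinearMap.mk₂ F (fun v r => ⟨(v : A) * (r : A), h v v.2 r r.2⟩)
    (fun a b c => by ext; simp [add_mul])
    (fun c a b => by ext; simp)
    (fun a b c => by ext; simp [mul_add])
    (fun c a b => by ext; simp)

/-- The Koszul differential `⋀^{i+1} V ⊗ M → ⋀^i V ⊗ N`,
`(v_0 ∧ ⋯ ∧ v_i) ⊗ r ↦ ∑_l (-1)^l (v_0 ∧ ⋯ v̂_l ⋯ ∧ v_i) ⊗ v_l r`. -/
noncomputable def koszul (V M N : Submodule F A) (h : ∀ v ∈ V, ∀ r ∈ M, v * r ∈ N) (i : ℕ) :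
    (⋀[F]^(i + 1) V) ⊗[F] M →ₗ[F] (⋀[F]^i V) ⊗[F] N :=
  koszulGen (exteriorPower.ιMulti F i) (mulMap V M N h)

/-- The formula for the Koszul differential. -/
theorem koszul_apply (V M N : Submodule F A) (h : ∀ v ∈ V, ∀ r ∈ M, v * r ∈ N) (i : ℕ)
    (v : Fin (i + 1) → V) (r : M) :
    koszul V M N h i (exteriorPower.ιMulti F (i + 1) v ⊗ₜ[F] r)
      = ∑ l : Fin (i + 1), (-1 : F) ^ (l : ℕ) •
        ((exteriorPower.ιMulti F i (Fin.removeNth l v)) ⊗ₜ[F]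
          (⟨(v l : A) * (r : A), h _ (v l).2 _ r.2⟩ : N)) :=
  koszulGen_apply _ _ _ _

/-- Property `(N_p)` for a graded family `R` of subspaces of `A` with `R 1 * R j ⊆ R (j + 1)`
(the section ring `R j = H^0(X, L^j)` inside the function field), in its Koszul cohomology form:
`K_{i,j} = 0` for all `0 ≤ i ≤ p` and `j ≥ 2`, where `K_{i,j}` is the cohomology of
`⋀^{i+1} R_1 ⊗ R_{j-1} → ⋀^i R_1 ⊗ R_j → ⋀^{i-1} R_1 ⊗ R_{j+1}`. -/
def PropertyN (R : ℕ → Submodule F A) (hR : ∀ j, ∀ v ∈ R 1, ∀ r ∈ R j, v * r ∈ R (j + 1))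
    (p : ℕ) : Prop :=
  (∀ j, 1 ≤ j → Function.Surjective (koszul (R 1) (R j) (R (j + 1)) (hR j) 0)) ∧
  ∀ i j, i + 1 ≤ p → 1 ≤ j →
    Function.Exact (koszul (R 1) (R j) (R (j + 1)) (hR j) (i + 1))
      (koszul (R 1) (R (j + 1)) (R (j + 1 + 1)) (hR (j + 1)) i)

end PoolNP
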