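import Pool.Agent.helper43.NP.Alt
import Pool.Agent.helper43.NP.Koszul

/-!
Exactness of the Koszul complex from exactness of its dual.
-/

open scoped TensorProduct

namespace PoolNP

open Finset

variable {F A : Type*} [Field F] [CommRing A] [Algebra F A]

theorem exists_sep {E G : Type*} [AddCommGroup E] [Module F E] [AddCommGroup G]
    [Module F G] (f : E →ₗ[F] G) (ζ : G) (h : ¬ ∃ y, f y = ζ) :
    ∃ lam : G →ₗ[F] F, lam ζ ≠ 0 ∧ ∀ y, lam (f y) = 0 := by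
  have hn' : ζ ∉ LinearMap.range f := h
  obtain ⟨lam, hlam, hle⟩ := Submodule.exists_le_ker_of_notMem hn'
  exact ⟨lam, hlam, fun y => LinearMap.mem_ker.1 (hle (LinearMap.mem_range_self _ _))⟩

/-- A functional on `⋀^n V ⊗ M` as an alternating map on `A` with values in functionals on `A`. -/
noncomputable def toAlt {V M : Submodule F A} (π : A →ₗ[F] V) (ρ : A →ₗ[F] M) {n : ℕ}
    (lam : (⋀[F]^n V) ⊗[F] M →ₗ[F] F) : A [⋀^Fin n]→ₗ[F] (A →ₗ[F] F) :=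
  (((LinearMap.lcomp F F ρ) ∘ₗ (TensorProduct.curry lam)).compAlternatingMap
    (exteriorPower.ιMulti F n)).compLinearMap π

theorem toAlt_apply {V M : Submodule F A} (π : A →ₗ[F] V) (ρ : A →ₗ[F] M) {n : ℕ}
    (lam : (⋀[F]^n V) ⊗[F] M →ₗ[F] F) (w : Fin n → A) (r : A) :
    toAlt π ρ lam w r = lam (exteriorPower.ιMulti F n (fun l => π (w l)) ⊗ₜ[F] ρ r) := rfl

/-- An alternating map on `A` with values in functionals on `A` as a functional
on `⋀^n V ⊗ M`. -/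
noncomputable def ofAlt (V M : Submodule F A) {n : ℕ} (ψ : A [⋀^Fin n]→ₗ[F] (A →ₗ[F] F)) :
    (⋀[F]^n V) ⊗[F] M →ₗ[F] F :=
  TensorProduct.lift (exteriorPower.alternatingMapLinearEquiv
    ((LinearMap.lcomp F F M.subtype).compAlternatingMap (ψ.compLinearMap V.subtype)))

theorem ofAlt_apply (V M : Submodule F A) {n : ℕ} (ψ : A [⋀^Fin n]→ₗ[F] (A →ₗ[F] F))
    (w : Fin n → V) (r : M) :
    ofAlt V M ψ (exteriorPower.ιMulti F n w ⊗ₜ[F] r) = ψ (fun l => (w l : A)) r := by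
  rw [ofAlt, TensorProduct.lift.tmul, exteriorPower.alternatingMapLinearEquiv_apply_ιMulti]
  rfl

/-- Two functionals on `⋀^n V ⊗ M` that agree on decomposable elements are equal. -/
theorem ext_decomp {V M : Submodule F A} {n : ℕ} {f g : (⋀[F]^n V) ⊗[F] M →ₗ[F] F}
    (h : ∀ (w : Fin n → V) (r : M), f (exteriorPower.ιMulti F n w ⊗ₜ[F] r)
      = g (exteriorPower.ιMulti F n w ⊗ₜ[F] r)) : f = g := by
  refine TensorProduct.ext ?_
  refine exteriorPower.linearMap_ext ?_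
  ext w r
  exact h w r

theorem ofAlt_koszul (V M N : Submodule F A) (h : ∀ v ∈ V, ∀ r ∈ M, v * r ∈ N) (i : ℕ)
    (ψ : A [⋀^Fin i]→ₗ[F] (A →ₗ[F] F)) (w : Fin (i + 1) → V) (r : M) :
    ofAlt V N ψ (koszul V M N h i (exteriorPower.ιMulti F (i + 1) w ⊗ₜ[F] r))
      = dd ψ (fun l => (w l : A)) r := by
  rw [koszul_apply, map_sum, dd_apply]
  refine sum_congr rfl fun l _ => ?_
  rw [map_smul, ofAlt_apply, smul_eq_mul]
  rfl

theorem ofAlt_comp_koszul (V M N : Submodule F A) (h : ∀ v ∈ V, ∀ r ∈ M, v * r ∈ N) (i : ℕ)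
    (ψ : A [⋀^Fin i]→ₗ[F] (A →ₗ[F] F)) :
    ofAlt V N ψ ∘ₗ koszul V M N h i = ofAlt V M (dd ψ) := by
  refine ext_decomp fun w r => ?_
  rw [LinearMap.comp_apply, ofAlt_koszul, ofAlt_apply]

/-- every functional on `⋀^n V ⊗ M` comes from an alternating map on `A`. -/
theorem exists_ofAlt (V M : Submodule F A) {n : ℕ} (lam : (⋀[F]^n V) ⊗[F] M →ₗ[F] F) :
    ∃ ψ : A [⋀^Fin n]→ₗ[F] (A →ₗ[F] F), ofAlt V M ψ = lam := by
  obtain ⟨π, hπ⟩ := V.subtype.exists_leftInverse_of_injective (Submodule.ker_subtype V)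
  obtain ⟨ρ, hρ⟩ := M.subtype.exists_leftInverse_of_injective (Submodule.ker_subtype M)
  refine ⟨toAlt π ρ lam, ext_decomp fun w r => ?_⟩
  rw [ofAlt_apply, toAlt_apply]
  have h1 : ∀ v : V, π (v : A) = v := fun v => LinearMap.congr_fun hπ v
  have h2 : ∀ v : M, ρ (v : A) = v := fun v => LinearMap.congr_fun hρ v
  simp only [h1, h2]

/-- The Koszul differentials form a complex. -/
theorem koszul_koszul (V M0 M1 M2 : Submodule F A) (h0 : ∀ v ∈ V, ∀ r ∈ M0, v * r ∈ M1)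
    (h1 : ∀ v ∈ V, ∀ r ∈ M1, v * r ∈ M2) (i : ℕ) (ζ : (⋀[F]^(i + 1 + 1) V) ⊗[F] M0) :
    koszul V M1 M2 h1 i (koszul V M0 M1 h0 (i + 1) ζ) = 0 := by
  rw [← Module.forall_dual_apply_eq_zero_iff F]
  intro μ
  obtain ⟨ψ, rfl⟩ := exists_ofAlt V M2 μ
  have h2 := ofAlt_comp_koszul V M1 M2 h1 i ψ
  have h3 := ofAlt_comp_koszul V M0 M1 h0 (i + 1) (dd ψ)
  have h4 : ofAlt V M2 ψ (koszul V M1 M2 h1 i (koszul V M0 M1 h0 (i + 1) ζ))
      = ofAlt V M0 (dd (dd ψ)) ζ := by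
    rw [← h3, ← h2]; rfl
  rw [h4]
  have h5 : ofAlt V M0 (dd (dd ψ)) = 0 := by
    refine ext_decomp fun w r => ?_
    rw [ofAlt_apply, dd_dd]
    rfl
  rw [h5]
  rfl

/-- Exactness of the Koszul complex from exactness of its dual. -/
theorem koszul_exact (V M0 M1 M2 : Submodule F A) (h0 : ∀ v ∈ V, ∀ r ∈ M0, v * r ∈ M1)
    (h1 : ∀ v ∈ V, ∀ r ∈ M1, v * r ∈ M2) (i : ℕ)
    (hex : ∀ φ : A [⋀^Fin (i + 1)]→ₗ[F] (A →ₗ[F] F),
      (∀ w : Fin (i + 2) → A, (∀ l, w l ∈ V) → ∀ r ∈ M0, dd φ w r = 0) →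
      ∃ ψ : A [⋀^Fin i]→ₗ[F] (A →ₗ[F] F),
        ∀ w : Fin (i + 1) → A, (∀ l, w l ∈ V) → ∀ r ∈ M1, φ w r = dd ψ w r) :
    Function.Exact (koszul V M0 M1 h0 (i + 1)) (koszul V M1 M2 h1 i) := by
  intro ζ
  constructor
  · intro hζ
    by_contra hn
    have hn' : ¬ ∃ y, koszul V M0 M1 h0 (i + 1) y = ζ := hn
    obtain ⟨lam, hlam, hle⟩ := exists_sep (F := F) (E := (⋀[F]^(i + 1 + 1) V) ⊗[F] M0)
      (G := (⋀[F]^(i + 1) V) ⊗[F] M1) (koszul V M0 M1 h0 (i + 1)) ζ hn'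
    obtain ⟨φ, rfl⟩ := exists_ofAlt V M1 lam
    obtain ⟨ψ, hψ⟩ := hex φ (by
      intro w hw r hr
      have h2 := ofAlt_koszul V M0 M1 h0 (i + 1) φ (fun l => ⟨w l, hw l⟩) ⟨r, hr⟩
      rw [← h2]
      exact hle _)
    have h3 : ofAlt V M1 φ = ofAlt V M2 ψ ∘ₗ koszul V M1 M2 h1 i := by
      refine ext_decomp fun w r => ?_
      rw [ofAlt_apply, LinearMap.comp_apply, ofAlt_koszul]
      exact hψ _ (fun l => (w l).2) r r.2
    apply hlam
    rw [h3, LinearMap.comp_apply, hζ, map_zero]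
  · rintro ⟨η, rfl⟩
    exact koszul_koszul V M0 M1 M2 h0 h1 i η

/-- Surjectivity of the last Koszul differential. -/
theorem koszul_surjective (V M N : Submodule F A) (h : ∀ v ∈ V, ∀ r ∈ M, v * r ∈ N)
    (hf : ∀ f : A →ₗ[F] F, (∀ v ∈ V, ∀ r ∈ M, f (v * r) = 0) → ∀ r ∈ N, f r = 0) :
    Function.Surjective (koszul V M N h 0) := by
  intro ζ
  by_contra hn
  obtain ⟨lam, hlam, hle⟩ := exists_sep (F := F) (E := (⋀[F]^(0 + 1) V) ⊗[F] M)
    (G := (⋀[F]^0 V) ⊗[F] N) (koszul V M N h 0) ζ hn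
  obtain ⟨φ, rfl⟩ := exists_ofAlt V N lam
  have h0 : ∀ r ∈ N, φ (fun l => Fin.elim0 l) r = 0 := by
    refine hf (φ (fun l => Fin.elim0 l)) ?_
    intro v hv r hr
    have h2 := ofAlt_koszul V M N h 0 φ (fun _ => ⟨v, hv⟩) ⟨r, hr⟩
    have h3 : ofAlt V N φ (koszul V M N h 0
        (exteriorPower.ιMulti F (0 + 1) (fun _ => (⟨v, hv⟩ : V)) ⊗ₜ[F] (⟨r, hr⟩ : M))) = 0 :=
      hle _
    rw [h3, dd_apply] at h2
    simp only [Nat.reduceAdd, Finset.univ_unique, Fin.default_eq_zero, Fin.isValue,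
      Fin.val_eq_zero, pow_zero, one_mul, sum_singleton] at h2
    rw [h2]
    congr 2
    funext l
    exact l.elim0
  apply hlam
  have h4 : ofAlt V N φ = 0 := by
    refine ext_decomp fun w r => ?_
    rw [ofAlt_apply]
    have : (fun l => ((w l : V) : A)) = (fun l => Fin.elim0 l) := by
      funext l; exact l.elim0
    rw [this]
    exact h0 r r.2
  rw [h4]
  rfl

end PoolNP
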