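import Pool.Agent.helper43.NP.Divisor
import Pool.Agent.helper43.NP.AddPoint
import Pool.Agent.helper43.NP.MainDual
import Pool.Agent.helper43.NP.Primal

/-!
Property `(N_p)` for `L = m A + E`, `A` a base point free pencil, `E` effective.
-/

namespace PoolNP

open Finset

variable {K : Type*} [Field K] [Algebra ℂ K]

theorem gen_of_dim (U0 U1 U2 : Submodule ℂ K) (G : K) (hG : G ≠ 0)
    (hfin : FiniteDimensional ℂ U2) (h01 : U0 ≤ U1) (h12 : U1 ≤ U2)
    (hG12 : ∀ r ∈ U1, G * r ∈ U2) (hG01 : ∀ r ∈ U0, G * r ∈ U1)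
    (hdiv : ∀ r ∈ U1, G * r ∈ U1 → r ∈ U0)
    (hdim : Module.finrank ℂ U2 + Module.finrank ℂ U0 = 2 * Module.finrank ℂ U1) :
    ∀ c ∈ U2, ∃ a ∈ U1, ∃ b ∈ U1, c = a + G * b := by
  have hinj : Function.Injective (LinearMap.mulLeft ℂ G) := by
    intro a b hab
    exact mul_left_cancel₀ hG hab
  have hfin1 : FiniteDimensional ℂ U1 := Submodule.finiteDimensional_of_le h12
  have hfin0 : FiniteDimensional ℂ U0 := Submodule.finiteDimensional_of_le h01
  set G1 := U1.map (LinearMap.mulLeft ℂ G) with hG1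
  set G0 := U0.map (LinearMap.mulLeft ℂ G) with hG0
  have hf1 : Module.finrank ℂ G1 = Module.finrank ℂ U1 :=
    (LinearEquiv.finrank_eq (Submodule.equivMapOfInjective _ hinj U1)).symm
  have hf0 : Module.finrank ℂ G0 = Module.finrank ℂ U0 :=
    (LinearEquiv.finrank_eq (Submodule.equivMapOfInjective _ hinj U0)).symm
  have hinf : U1 ⊓ G1 = G0 := by
    apply le_antisymm
    · rintro _ ⟨h1, r, hr, rfl⟩
      exact ⟨r, hdiv r hr h1, rfl⟩
    · rintro _ ⟨r, hr, rfl⟩
      exact ⟨hG01 r hr, r, h01 hr, rfl⟩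
  have hsup : U1 ⊔ G1 ≤ U2 := by
    refine sup_le h12 ?_
    rintro _ ⟨r, hr, rfl⟩
    exact hG12 r hr
  have hd := Submodule.finrank_sup_add_finrank_inf_eq U1 G1
  rw [hinf, hf1, hf0] at hd
  have heq : U1 ⊔ G1 = U2 := Submodule.eq_of_le_of_finrank_eq hsup (by omega)
  intro c hc
  rw [← heq] at hc
  obtain ⟨a, ha, b, hb, rfl⟩ := Submodule.mem_sup.1 hc
  obtain ⟨b', hb', rfl⟩ := hb
  exact ⟨a, ha, b', hb', rfl⟩

theorem one_mem_space {D : Divisor K} (hD : 0 ≤ D) : (1 : K) ∈ space D := by
  rw [mem_space]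
  intro P
  right
  rw [P.ord_one]
  have := hD P
  simp only [Finsupp.coe_zero, Pi.zero_apply] at this
  omega

section Pencil

variable {x : K} [Algebra.IsAlgebraic (IntermediateField.adjoin ℂ ({x} : Set K)) K]
  {g : ℕ} {A : Divisor K} {q : ℕ}

omit [Algebra.IsAlgebraic (IntermediateField.adjoin ℂ ({x} : Set K)) K] in
theorem A_nonneg (hA : ∀ P : Place K, A P = max 0 (-P.ord x)) : 0 ≤ A := by
  intro P
  simp only [Finsupp.coe_zero, Pi.zero_apply, hA P]
  omega

theorem exists_place_of_degree (hk : 0 < degree A) : Nonempty (Place K) := by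
  by_contra hcon
  rw [not_nonempty_iff] at hcon
  have : A = 0 := by ext P; exact hcon.elim P
  rw [this, degree_zero] at hk
  exact lt_irrefl _ hk

theorem nsmul_A_mono (hA : ∀ P : Place K, A P = max 0 (-P.ord x)) {a b : ℕ} (h : a ≤ b) :
    a • A ≤ b • A :=
  nsmul_le_nsmul_left (A_nonneg hA) h

/-- The section data of the multiples of the pencil. -/
theorem secData_pencil (hx : x ≠ 0) (hA : ∀ P : Place K, A P = max 0 (-P.ord x))
    (hg : IsGenus K g) (hfin : ∀ D : Divisor K, FiniteDimensional ℂ (space D))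
    (hq : (ell (q • A) : ℤ) + g = degree (q • A) + 1) :
    SecData (F := ℂ) x (fun e => space (e • A)) q where
  one0 := by
    refine one_mem_space ?_
    rw [zero_nsmul]
  one1 := by
    refine one_mem_space ?_
    rw [one_nsmul]
    exact A_nonneg hA
  x1 := by
    rw [one_nsmul, mem_space]
    intro P
    right
    rw [hA P]
    omega
  mul := by
    intro e e' f hf g hg
    rw [add_nsmul]
    exact space_mul hf hg
  div := by
    intro e e' i h hh hxh
    by_cases h0 : h = 0
    · rw [h0]; exact Submodule.zero_mem _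
    rw [mem_space] at hh hxh ⊢
    intro P
    have h1 := hh P
    have h2 := hxh P
    rw [Place.mem_O_of_ne h0] at h1 ⊢
    rw [Place.mem_O_of_ne (mul_ne_zero (pow_ne_zero i hx) h0),
      P.ord_mul _ _ (pow_ne_zero i hx) h0, P.ord_pow hx] at h2
    simp only [Finsupp.smul_apply, nsmul_eq_mul] at h1 h2 ⊢
    have h3 := hA P
    by_cases h4 : 0 ≤ P.ord x
    · have h5 : A P = 0 := by omega
      rw [h5] at h1 ⊢
      simpa using h1
    · have h5 : A P = -P.ord x := by omega
      rw [h5] at h2 ⊢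
      push_cast at h2
      linarith
  gen := by
    intro e he c hc
    obtain ⟨e, rfl⟩ : ∃ e', e = e' + 1 := ⟨e - 1, by omega⟩
    have hmono : ∀ a b : ℕ, a ≤ b → space (a • A) ≤ space (b • A) :=
      fun a b hab => space_mono (nsmul_A_mono hA hab)
    have hxm : ∀ a : ℕ, ∀ r ∈ space (a • A), x * r ∈ space ((a + 1) • A) := by
      intro a r hr
      rw [succ_nsmul, mul_comm]
      refine space_mul hr ?_
      rw [mem_space]
      intro P
      right
      rw [hA P]
      omega
    have hell : ∀ a : ℕ, q ≤ a → (ell (a • A) : ℤ) + g = a * degree A + 1 := by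
      intro a ha
      have := ell_eq (x := x) hg hfin hq (nsmul_A_mono hA ha)
      rwa [degree_nsmul] at this
    refine gen_of_dim (space (e • A)) (space ((e + 1) • A)) (space ((e + 2) • A)) x hx
      (hfin _) (hmono _ _ (by omega)) (hmono _ _ (by omega)) (hxm _) (hxm _) ?_ ?_ c hc
    · intro r hr hxr
      rw [mem_space] at hr hxr ⊢
      intro P
      by_cases h0 : r = 0
      · left; exact h0
      have h1 := hr P
      have h2 := hxr P
      rw [Place.mem_O_of_ne h0] at h1 ⊢
      rw [Place.mem_O_of_ne (mul_ne_zero hx h0), P.ord_mul _ _ hx h0] at h2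
      simp only [Finsupp.smul_apply, nsmul_eq_mul] at h1 h2 ⊢
      have h3 := hA P
      by_cases h4 : 0 ≤ P.ord x
      · have h5 : A P = 0 := by omega
        rw [h5] at h1 ⊢
        simpa using h1
      · have h5 : A P = -P.ord x := by omega
        rw [h5] at h2 ⊢
        push_cast at h2
        linarith
    · have h1 := hell e (by omega)
      have h2 := hell (e + 1) (by omega)
      have h3 := hell (e + 2) (by omega)
      have h4 : ((ell ((e + 2) • A) + ell (e • A) : ℕ) : ℤ) = ((2 * ell ((e + 1) • A) : ℕ) : ℤ) := by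
        push_cast at h1 h2 h3 ⊢
        linarith
      exact_mod_cast h4

end Pencil

/-- The data needed to add the point `P` to `D`. -/
theorem pointData {x : K} [Algebra.IsAlgebraic (IntermediateField.adjoin ℂ ({x} : Set K)) K]
    {g : ℕ} {D : Divisor K} {P : Place K}
    (hell : (ell D : ℤ) + g = degree D + 1)
    (hell' : (ell (D + Finsupp.single P 1) : ℤ) + g = degree (D + Finsupp.single P 1) + 1)
    (hfin : ∀ D : Divisor K, FiniteDimensional ℂ (space D))
    (hv : ∃ v ∈ space D, v ∉ P.O (D P - 1)) :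
    ∃ σ v0 : K, ∃ s ev μ1 μ2 μ3 : K →ₗ[ℂ] ℂ,
      PointData (F := ℂ) (space D) (space (D + Finsupp.single P 1)) (space (2 • D))
        (space (2 • D + Finsupp.single P 1)) (space (2 • (D + Finsupp.single P 1)))
        σ v0 s ev μ1 μ2 μ3 := by
  obtain ⟨lc, hlc1, hlc2, hlc3⟩ := P.exists_lc (x := x)
  set n := D P with hn
  have hle : D ≤ D + Finsupp.single P 1 := le_add_of_nonneg_right (single_nonneg P)
  -- local membership
  have hOD : ∀ f ∈ space D, f ∈ P.O n := fun f hf => mem_space.1 hf P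
  have hOD1 : ∀ f ∈ space (D + Finsupp.single P 1), f ∈ P.O (n + 1) := by
    intro f hf
    have := mem_space.1 hf P
    rwa [Finsupp.add_apply, Finsupp.single_eq_same] at this
  have hO2 : ∀ f ∈ space (2 • D), f ∈ P.O (2 * n) := by
    intro f hf
    have := mem_space.1 hf P
    simpa using this
  have hO21 : ∀ f ∈ space (2 • D + Finsupp.single P 1), f ∈ P.O (2 * n + 1) := by
    intro f hf
    have := mem_space.1 hf P
    rw [Finsupp.add_apply, Finsupp.single_eq_same] at this
    simpa using this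
  have hO22 : ∀ f ∈ space (2 • (D + Finsupp.single P 1)), f ∈ P.O (2 * n + 2) := by
    intro f hf
    have := mem_space.1 hf P
    simp only [Finsupp.smul_apply, Finsupp.add_apply, Finsupp.single_eq_same, nsmul_eq_mul]
      at this
    have e : ((2 : ℕ) : ℤ) * (D P + 1) = 2 * n + 2 := by push_cast; ring
    rwa [e] at this
  -- `σ`
  obtain ⟨σ0, hσ0, hσ0D⟩ : ∃ σ0 ∈ space (D + Finsupp.single P 1), σ0 ∉ space D := by
    by_contra hcon
    push Not at hcon
    have := hfin D
    have h1 : ell (D + Finsupp.single P 1) ≤ ell D := Submodule.finrank_mono hcon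
    rw [degree_add, degree_single] at hell'
    omega
  have hlσ0 : lc (n + 1) σ0 ≠ 0 := by
    intro h0
    apply hσ0D
    refine mem_space_of_lc hσ0 ?_
    have := hlc1 _ _ (hOD1 _ hσ0) h0
    rwa [add_sub_cancel_right] at this
  set σ := (lc (n + 1) σ0)⁻¹ • σ0 with hσdef
  have hσ : σ ∈ space (D + Finsupp.single P 1) := Submodule.smul_mem _ _ hσ0
  have hlσ : lc (n + 1) σ = 1 := by
    rw [hσdef, map_smul, smul_eq_mul, inv_mul_cancel₀ hlσ0]
  -- `v0`
  obtain ⟨v, hv, hvP⟩ := hv
  have hlv : lc n v ≠ 0 := fun h0 => hvP (hlc1 _ _ (hOD v hv) h0)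
  set v0 := (lc n v)⁻¹ • v with hv0def
  have hv0 : v0 ∈ space D := Submodule.smul_mem _ _ hv
  have hlv0 : lc n v0 = 1 := by
    rw [hv0def, map_smul, smul_eq_mul, inv_mul_cancel₀ hlv]
  -- leading coefficients of products
  have l1 : ∀ v ∈ space D, lc (2 * n + 1) (v * σ) = lc n v := by
    intro v hv
    have := hlc3 n (n + 1) v (hOD v hv) σ (hOD1 σ hσ)
    rw [hlσ, mul_one] at this
    rw [← this]; congr 2; ring
  have l2 : lc (2 * n + 2) (σ * σ) = 1 := by
    have := hlc3 (n + 1) (n + 1) σ (hOD1 σ hσ) σ (hOD1 σ hσ)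
    rw [hlσ, mul_one] at this
    rw [← this]; congr 2; ring
  have lz : ∀ (a b : ℤ) (f : K), f ∈ P.O b → b + 1 ≤ a → lc a f = 0 := by
    intro a b f hf hab
    exact hlc2 a f (P.O_mono (by omega) hf)
  have m21 : ∀ v ∈ space D, v * σ ∈ space (2 • D + Finsupp.single P 1) := by
    intro v hv
    have := space_mul hv hσ
    rwa [← add_assoc, ← two_nsmul] at this
  have mσσ : σ * σ ∈ space (2 • (D + Finsupp.single P 1)) := by
    have := space_mul hσ hσ
    rwa [← two_nsmul] at this
  have d20 : ∀ r ∈ space (2 • D + Finsupp.single P 1), lc (2 * n + 1) r = 0 → r ∈ space (2 • D) := by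
    intro r hr h0
    refine mem_space_of_lc hr ?_
    have := hlc1 _ _ (hO21 r hr) h0
    rw [add_sub_cancel_right] at this
    simpa using this
  have e22 : (2 • D + Finsupp.single P 1) + Finsupp.single P 1
      = 2 • (D + Finsupp.single P (1 : ℤ)) := by
    rw [nsmul_add, two_nsmul, two_nsmul]
    abel
  have d21 : ∀ r ∈ space (2 • (D + Finsupp.single P 1)), lc (2 * n + 2) r = 0 →
      r ∈ space (2 • D + Finsupp.single P 1) := by
    intro r hr h0
    have h1 := hlc1 _ _ (hO22 r hr) h0
    have e : 2 * n + 2 - 1 = (2 • D + Finsupp.single P (1 : ℤ)) P := by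
      simp only [Finsupp.add_apply, Finsupp.single_eq_same, Finsupp.smul_apply, nsmul_eq_mul]
      push_cast
      ring
    rw [← e22] at hr
    refine mem_space_of_lc hr ?_
    rwa [e] at h1
  have o3a : ∀ v ∈ space D, ∀ r ∈ space (2 • D), v * r ∈ P.O (3 * n) := by
    intro v hv r hr
    have := Place.mul_mem_O (hOD v hv) (hO2 r hr)
    have e : n + 2 * n = 3 * n := by ring
    rwa [e] at this
  have o3b : ∀ v ∈ space D, ∀ r ∈ space (2 • D + Finsupp.single P 1), v * r ∈ P.O (3 * n + 1) := by
    intro v hv r hr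
    have := Place.mul_mem_O (hOD v hv) (hO21 r hr)
    have e : n + (2 * n + 1) = 3 * n + 1 := by ring
    rwa [e] at this
  have o3c : ∀ r ∈ space (2 • D), σ * r ∈ P.O (3 * n + 1) := by
    intro r hr
    have := Place.mul_mem_O (hOD1 σ hσ) (hO2 r hr)
    have e : n + 1 + 2 * n = 3 * n + 1 := by ring
    rwa [e] at this
  have o3d : ∀ r ∈ space (2 • D + Finsupp.single P 1), σ * r ∈ P.O (3 * n + 2) := by
    intro r hr
    have := Place.mul_mem_O (hOD1 σ hσ) (hO21 r hr)
    have e : n + 1 + (2 * n + 1) = 3 * n + 2 := by ring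
    rwa [e] at this
  have oσσ : σ * σ ∈ P.O (2 * n + 2) := hO22 _ mσσ
  have o3e : ∀ v ∈ space D, v * (σ * σ) ∈ P.O (3 * n + 2) := by
    intro v hv
    have := Place.mul_mem_O (hOD v hv) oσσ
    have e : n + (2 * n + 2) = 3 * n + 2 := by ring
    rwa [e] at this
  have l3 : lc (3 * n + 3) (σ * (σ * σ)) = 1 := by
    have := hlc3 (n + 1) (2 * n + 2) σ (hOD1 σ hσ) (σ * σ) oσσ
    rw [hlσ, l2, mul_one] at this
    rw [← this]; congr 2; ring
  have l4 : ∀ v ∈ space D, lc (3 * n + 2) (v * (σ * σ)) = lc n v := by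
    intro v hv
    have := hlc3 n (2 * n + 2) v (hOD v hv) (σ * σ) oσσ
    rw [l2, mul_one] at this
    rw [← this]; congr 2; ring
  have l5 : ∀ v ∈ space D, lc (3 * n + 1) (v * (v0 * σ)) = lc n v := by
    intro v hv
    have := hlc3 n (2 * n + 1) v (hOD v hv) (v0 * σ) (hO21 _ (m21 v0 hv0))
    rw [l1 v0 hv0, hlv0, mul_one] at this
    rw [← this]; congr 2; ring
  refine ⟨σ, v0, lc (n + 1), lc n, lc (3 * n + 1),
    lc (3 * n + 2) - lc (3 * n + 2) (σ * (σ * σ)) • lc (3 * n + 3), lc (3 * n + 3), ?_⟩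
  exact
    { hVV' := space_mono hle
      hσ := hσ
      hv0 := hv0
      decV := by
        intro v hv
        refine ⟨v - lc (n + 1) v • σ, ?_, lc (n + 1) v, by ring⟩
        refine mem_space_of_lc (Submodule.sub_mem _ hv (Submodule.smul_mem _ _ hσ)) ?_
        have h1 : lc (n + 1) (v - lc (n + 1) v • σ) = 0 := by
          rw [map_sub, map_smul, hlσ, smul_eq_mul, mul_one, sub_self]
        have := hlc1 _ _ (Submodule.sub_mem _ (hOD1 v hv)
          (Submodule.smul_mem _ _ (hOD1 σ hσ))) h1
        rwa [add_sub_cancel_right] at this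
      sV := fun v hv => lz _ n v (hOD v hv) (by omega)
      sσ := hlσ
      ev0 := hlv0
      evV := by
        intro v hv
        refine d20 _ (Submodule.sub_mem _ (m21 v hv) (Submodule.smul_mem _ _ (m21 v0 hv0))) ?_
        rw [map_sub, map_smul, l1 v hv, l1 v0 hv0, hlv0, smul_eq_mul, mul_one, sub_self]
      hle := space_mono (le_add_of_nonneg_right (single_nonneg P))
      hv0σ := m21 v0 hv0
      dec21 := by
        intro r hr
        refine ⟨r - lc (2 * n + 1) r • (v0 * σ), ?_, lc (2 * n + 1) r, by ring⟩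
        refine d20 _ (Submodule.sub_mem _ hr (Submodule.smul_mem _ _ (m21 v0 hv0))) ?_
        rw [map_sub, map_smul, l1 v0 hv0, hlv0, smul_eq_mul, mul_one, sub_self]
      dec22 := by
        intro r hr
        refine ⟨r - lc (2 * n + 2) r • (σ * σ), ?_, lc (2 * n + 2) r, by ring⟩
        refine d21 _ (Submodule.sub_mem _ hr (Submodule.smul_mem _ _ mσσ)) ?_
        rw [map_sub, map_smul, l2, smul_eq_mul, mul_one, sub_self]
      m1a := fun v hv r hr => lz _ _ _ (o3a v hv r hr) (by omega)
      m1b := fun v hv => l5 v hv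
      m2a := by
        intro v hv r hr
        rw [LinearMap.sub_apply, LinearMap.smul_apply, lz _ _ _ (o3b v hv r hr) (by omega),
          lz _ _ _ (o3b v hv r hr) (by omega)]
        simp
      m2b := by
        intro r hr
        rw [LinearMap.sub_apply, LinearMap.smul_apply, lz _ _ _ (o3c r hr) (by omega),
          lz _ _ _ (o3c r hr) (by omega)]
        simp
      m2c := by
        intro v hv
        rw [LinearMap.sub_apply, LinearMap.smul_apply, l4 v hv,
          lz (3 * n + 3) _ _ (o3e v hv) (by omega)]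
        simp
      m2d := by
        rw [LinearMap.sub_apply, LinearMap.smul_apply, l3]
        simp
      m3a := fun v hv r hr => lz _ _ _ (o3b v hv r hr) (by omega)
      m3b := fun r hr => lz _ _ _ (o3d r hr) (by omega)
      m3c := fun v hv => lz _ _ _ (o3e v hv) (by omega)
      m3d := l3 }

end PoolNP
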