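import Pool.Agent.helper43.NP.Final

/-!
The Clifford index of a curve with a pencil.
-/

namespace PoolNP

variable {K : Type*} [Field K] [Algebra ℂ K]

/-- `A = (x)_∞`, the divisor of poles of `x`: the base point free pencil given by `x`. -/
def IsPoleDivisor (x : K) (A : Divisor K) : Prop := ∀ P : Place K, A P = max 0 (-P.ord x)

/-- `h^1(D) = h^0(D) - (deg D + 1 - g)` (Riemann-Roch). -/
noncomputable def h1 (g : ℕ) (D : Divisor K) : ℤ := ell D - (degree D + 1 - g)

/-- `L` satisfies Property `(N_p)`. -/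
def SatisfiesN (L : Divisor K) (p : ℕ) : Prop :=
  PropertyN (fun j => space (j • L)) (space_ring L) p

/-- There is a line bundle of degree two with two sections. -/
def Hyperelliptic (K : Type*) [Field K] [Algebra ℂ K] : Prop :=
  ∃ D : Divisor K, degree D = 2 ∧ 2 ≤ ell D

/-- `c` is the Clifford index of the curve of genus `g` with function field `K`. -/
def IsCliff (K : Type*) [Field K] [Algebra ℂ K] (g : ℕ) (c : ℤ) : Prop :=
  (4 ≤ g → IsLeast {e : ℤ | ∃ D : Divisor K, 2 ≤ ell D ∧ 2 ≤ h1 g D ∧
    e = degree D - 2 * ((ell D : ℤ) - 1)} c) ∧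
  (g ≤ 2 → c = 0) ∧ (g = 3 → (Hyperelliptic K → c = 0) ∧ (¬ Hyperelliptic K → c = 1))

theorem two_le_ell {x : K} (hx : Transcendental ℂ x) {A : Divisor K} (hA : IsPoleDivisor x A)
    (hfin : FiniteDimensional ℂ (space A)) : 2 ≤ ell A := by
  have hA0 : 0 ≤ A := A_nonneg' hA
  have h1 : (1 : K) ∈ space A := one_mem_space hA0
  have h2 : x ∈ space A := by
    rw [mem_space]
    intro P
    right
    rw [hA P]
    omega
  have hli : LinearIndependent ℂ ![(⟨1, h1⟩ : space A), ⟨x, h2⟩] := by
    rw [LinearIndependent.pair_iff]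
    intro s t hst
    have hst' : s • (1 : K) + t • x = 0 := congrArg Subtype.val hst
    have hp : Polynomial.aeval x (Polynomial.C s + Polynomial.C t * Polynomial.X) = 0 := by
      rw [map_add, map_mul, Polynomial.aeval_C, Polynomial.aeval_C, Polynomial.aeval_X,
        ← hst', Algebra.smul_def, Algebra.smul_def, mul_one]
    have hp0 := (transcendental_iff.1 hx) _ hp
    have c0 := congrArg (fun p => Polynomial.coeff p 0) hp0
    have c1 := congrArg (fun p => Polynomial.coeff p 1) hp0
    simp at c0 c1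
    exact ⟨c0, c1⟩
  have := hli.fintype_card_le_finrank
  rw [Fintype.card_fin] at this
  exact this

/-- The Clifford index is at most `k - 2`. -/
theorem cliff_le {x : K} (hx : Transcendental ℂ x)
    {g : ℕ} {A : Divisor K} (hA : IsPoleDivisor x A)
    (hfin : ∀ D : Divisor K, FiniteDimensional ℂ (space D)) {q m : ℕ}
    (hq : h1 g (q • A) = 0) (hqm : q < m) {ε : ℤ} (hε : 0 ≤ ε) (hk : 2 ≤ degree A)
    (hnum : (degree A - 2) * (m + 1) + 2 * q + ε ≤ 2 * g) {c : ℤ} (hc : IsCliff K g c) :
    c ≤ degree A - 2 := by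
  have hA2 := two_le_ell hx hA (hfin A)
  obtain ⟨c1, c2, c3⟩ := hc
  by_cases hg2 : g ≤ 2
  · rw [c2 hg2]; omega
  by_cases hg3 : g = 3
  · by_cases hh : Hyperelliptic K
    · rw [(c3 hg3).1 hh]; omega
    · rw [(c3 hg3).2 hh]
      by_contra hcon
      exact hh ⟨A, by omega, hA2⟩
  have hg4 : 4 ≤ g := by omega
  have hmem := (c1 hg4).2
  have hgk : degree A + 1 ≤ g := by
    have hm : (q : ℤ) + 1 ≤ m := by exact_mod_cast hqm
    have hk2 : 0 ≤ degree A - 2 := by omega
    have hmul : (degree A - 2) * (q + 2) ≤ (degree A - 2) * (m + 1) :=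
      mul_le_mul_of_nonneg_left (by omega) hk2
    rcases Nat.lt_or_ge q 2 with hq2 | hq2
    · exfalso
      interval_cases q
      · rw [h1, zero_nsmul, degree_zero] at hq
        have h0 : 1 ≤ ell (0 : Divisor K) := by
          have := hfin 0
          have h1' : (1 : K) ∈ space (0 : Divisor K) := one_mem_space le_rfl
          refine Nat.one_le_iff_ne_zero.2 fun h0 => ?_
          have h2 : space (0 : Divisor K) = ⊥ := Submodule.finrank_eq_zero.1 h0
          rw [h2, Submodule.mem_bot] at h1'
          exact one_ne_zero h1'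
        omega
      · rw [h1, one_nsmul] at hq
        push_cast at hmul hnum
        have h3 : (degree A - 2) * 3 = 3 * degree A - 6 := by ring
        rw [h3] at hmul
        omega
    · have h3 : (degree A - 2) * (2 + 2) ≤ (degree A - 2) * (q + 2) :=
        mul_le_mul_of_nonneg_left (by omega) hk2
      have h4 : (degree A - 2) * (2 + 2) = 4 * degree A - 8 := by ring
      rw [h4] at h3
      omega
  have hin : degree A - 2 * ((ell A : ℤ) - 1) ∈ {e : ℤ | ∃ D : Divisor K, 2 ≤ ell D ∧
      2 ≤ h1 g D ∧ e = degree D - 2 * ((ell D : ℤ) - 1)} := by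
    refine ⟨A, hA2, ?_, rfl⟩
    rw [h1]
    omega
  have := hmem hin
  omega

end PoolNP
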