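import Pool.Agent.helper43.NP.MainDual
import Pool.Agent.helper43.NP.Primal

/-!
The spaces `H^0(X, e A)` of a curve `X` with function field `K` and base point free pencil
`A = O_X((x)_∞)`.
-/

namespace PoolNP

open Finset

/-- `(N_p)` from the section data. -/
theorem propertyN_of_secData {F A : Type*} [Field F] [Infinite F] [CommRing A] [Algebra F A]
    {x : A} {W : ℕ → Submodule F A} {q : ℕ} (h : SecData x W q) {m s p : ℕ}
    (hm : m = q + 1 + s) (hp : p ≤ 2 * s + 1)
    (hR : ∀ j, ∀ v ∈ W (1 * m), ∀ r ∈ W (j * m), v * r ∈ W ((j + 1) * m)) :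
    PropertyN (fun j => W (j * m)) hR p := by
  have e1 : W (1 * m) = W m := by rw [one_mul]
  constructor
  · intro j hj
    refine koszul_surjective _ _ _ _ ?_
    intro f hf
    refine main_zero h (by omega) f ?_
    intro v hv r hr
    exact hf v (by beta_reduce; rw [e1]; exact hv) r hr
  · intro i j hi hj
    refine koszul_exact _ _ _ _ _ _ i ?_
    intro φ hφ
    obtain ⟨ψ, hψ⟩ := main_dual h hm (n := i) (by omega) hj φ (by
      intro w hw r hr
      exact hφ w (fun l => by beta_reduce; rw [e1]; exact hw l) r hr)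
    refine ⟨ψ, fun w hw r hr => hψ w (fun l => ?_) r hr⟩
    have := hw l
    beta_reduce at this
    rw [e1] at this
    exact this

variable {K : Type*} [Field K] [Algebra ℂ K]

/-- `H^0(X, e A)` inside the function field `K` of `X`, where `A = O_X((x)_∞)`:
the `f` which are integral over `ℂ[x]` (no pole outside the poles of `x`) and for which
`f x^{-e}` is integral over `ℂ[x⁻¹]` (at the poles of `x`, poles bounded by `e (x)_∞`). -/
noncomputable def sec (x : K) (e : ℕ) : Submodule ℂ K where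
  carrier := {f | IsIntegral (Algebra.adjoin ℂ ({x} : Set K)) f ∧
    IsIntegral (Algebra.adjoin ℂ ({x⁻¹} : Set K)) (f * x⁻¹ ^ e)}
  add_mem' := by
    rintro a b ⟨ha, ha'⟩ ⟨hb, hb'⟩
    refine ⟨ha.add hb, ?_⟩
    rw [add_mul]
    exact ha'.add hb'
  zero_mem' := by
    refine ⟨isIntegral_zero, ?_⟩
    rw [zero_mul]
    exact isIntegral_zero
  smul_mem' := by
    rintro c a ⟨ha, ha'⟩
    have hc : ∀ y : K, IsIntegral (Algebra.adjoin ℂ ({y} : Set K)) (algebraMap ℂ K c) :=
      fun y => isIntegral_algebraMap (R := Algebra.adjoin ℂ ({y} : Set K))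
        (x := algebraMap ℂ (Algebra.adjoin ℂ ({y} : Set K)) c)
    refine ⟨?_, ?_⟩
    · rw [Algebra.smul_def]
      exact (hc x).mul ha
    · rw [Algebra.smul_def, mul_assoc]
      exact (hc x⁻¹).mul ha'

theorem mem_sec {x : K} {e : ℕ} {f : K} :
    f ∈ sec x e ↔ IsIntegral (Algebra.adjoin ℂ ({x} : Set K)) f ∧
      IsIntegral (Algebra.adjoin ℂ ({x⁻¹} : Set K)) (f * x⁻¹ ^ e) := Iff.rfl

theorem isIntegral_self (y : K) : IsIntegral (Algebra.adjoin ℂ ({y} : Set K)) y :=
  isIntegral_algebraMap (R := Algebra.adjoin ℂ ({y} : Set K))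
    (x := ⟨y, Algebra.subset_adjoin (Set.mem_singleton y)⟩)

theorem sec_mul {x : K} {e e' : ℕ} {f g : K} (hf : f ∈ sec x e) (hg : g ∈ sec x e') :
    f * g ∈ sec x (e + e') := by
  refine ⟨hf.1.mul hg.1, ?_⟩
  have : f * g * x⁻¹ ^ (e + e') = (f * x⁻¹ ^ e) * (g * x⁻¹ ^ e') := by rw [pow_add]; ring
  rw [this]
  exact hf.2.mul hg.2

theorem one_mem_sec0 (x : K) : (1 : K) ∈ sec x 0 := by
  refine ⟨isIntegral_one, ?_⟩
  simpa using isIntegral_one

theorem one_mem_sec1 (x : K) : (1 : K) ∈ sec x 1 := by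
  refine ⟨isIntegral_one, ?_⟩
  simpa using isIntegral_self x⁻¹

theorem x_mem_sec1 {x : K} (hx : x ≠ 0) : x ∈ sec x 1 := by
  refine ⟨isIntegral_self x, ?_⟩
  rw [pow_one, mul_inv_cancel₀ hx]
  exact isIntegral_one

theorem sec_mono {x : K} {e e' : ℕ} (h : e ≤ e') : sec x e ≤ sec x e' := by
  induction e', h using Nat.le_induction with
  | base => exact le_rfl
  | succ n _ ih =>
    intro f hf
    have := sec_mul (ih hf) (one_mem_sec1 x)
    rwa [mul_one] at this

theorem sec_div {x : K} (hx : x ≠ 0) {e e' i : ℕ} {h : K} (hh : h ∈ sec x e')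
    (hi : x ^ i * h ∈ sec x (e + i)) : h ∈ sec x e := by
  refine ⟨hh.1, ?_⟩
  have h2 := hi.2
  have : x ^ i * h * x⁻¹ ^ (e + i) = h * x⁻¹ ^ e := by
    rw [pow_add, inv_pow, inv_pow]
    field_simp
  rwa [this] at h2

/-- `x · H^0(e A)` as a subspace. -/
noncomputable def xsec (x : K) (e : ℕ) : Submodule ℂ K :=
  (sec x e).map (LinearMap.mulLeft ℂ x)

theorem xsec_le {x : K} (hx : x ≠ 0) (e : ℕ) : xsec x e ≤ sec x (e + 1) := by
  rintro _ ⟨f, hf, rfl⟩
  have := sec_mul hf (x_mem_sec1 hx)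
  rw [mul_comm] at this
  exact this

theorem sec_inf_xsec {x : K} (hx : x ≠ 0) (e : ℕ) :
    sec x (e + 1) ⊓ xsec x (e + 1) = xsec x e := by
  apply le_antisymm
  · rintro _ ⟨h1, f, hf, rfl⟩
    refine ⟨f, ?_, rfl⟩
    refine sec_div (i := 1) hx hf ?_
    rw [pow_one]
    exact h1
  · refine le_inf (xsec_le hx e) ?_
    exact Submodule.map_mono (sec_mono (Nat.le_succ e))

theorem finrank_xsec {x : K} (hx : x ≠ 0) (e : ℕ) :
    Module.finrank ℂ (xsec x e) = Module.finrank ℂ (sec x e) := by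
  have hinj : Function.Injective (LinearMap.mulLeft ℂ x) := by
    intro a b hab
    exact mul_left_cancel₀ hx hab
  exact (LinearEquiv.finrank_eq (Submodule.equivMapOfInjective _ hinj (sec x e))).symm

theorem xsec_finite {x : K} (e : ℕ) (h : FiniteDimensional ℂ (sec x e)) :
    FiniteDimensional ℂ (xsec x e) := by
  haveI := h
  exact inferInstanceAs (FiniteDimensional ℂ ((sec x e).map (LinearMap.mulLeft ℂ x)))

theorem finrank_sup_sec {x : K} (hx : x ≠ 0) (hfin : ∀ e, FiniteDimensional ℂ (sec x e))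
    (e : ℕ) :
    Module.finrank ℂ ↥(sec x (e + 1) ⊔ xsec x (e + 1)) + Module.finrank ℂ (sec x e)
      = 2 * Module.finrank ℂ (sec x (e + 1)) := by
  haveI := hfin (e + 1)
  haveI := xsec_finite (e + 1) (hfin (e + 1))
  have h1 := Submodule.finrank_sup_add_finrank_inf_eq (sec x (e + 1)) (xsec x (e + 1))
  rw [sec_inf_xsec hx, finrank_xsec hx, finrank_xsec hx] at h1
  omega

theorem sup_sec_le {x : K} (hx : x ≠ 0) (e : ℕ) :
    sec x (e + 1) ⊔ xsec x (e + 1) ≤ sec x (e + 2) :=
  sup_le (sec_mono (Nat.le_succ _)) (xsec_le hx _)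

/-- The function `e ↦ h^0(e A)` is convex. -/
theorem finrank_convex {x : K} (hx : x ≠ 0) (hfin : ∀ e, FiniteDimensional ℂ (sec x e))
    (e : ℕ) :
    2 * Module.finrank ℂ (sec x (e + 1))
      ≤ Module.finrank ℂ (sec x (e + 2)) + Module.finrank ℂ (sec x e) := by
  haveI := hfin (e + 2)
  have h1 := finrank_sup_sec hx hfin e
  have h2 := Submodule.finrank_mono (sup_sec_le hx e)
  omega

theorem sec_finite {x : K} {g k : ℕ} (hk : 0 < k)
    (hg : ∀ᶠ e in Filter.atTop, Module.finrank ℂ (sec x e) + g = e * k + 1) (e : ℕ) :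
    FiniteDimensional ℂ (sec x e) := by
  obtain ⟨N, hN⟩ := Filter.eventually_atTop.1 hg
  set M := N + e + g with hM
  have h1 := hN M (by omega)
  have h2 : M ≤ M * k := Nat.le_mul_of_pos_right _ hk
  haveI : FiniteDimensional ℂ (sec x M) := by
    refine Module.finite_of_finrank_pos ?_
    omega
  exact Submodule.finiteDimensional_of_le (sec_mono (by omega : e ≤ M))

/-- If `h^0(q A)` has the value given by Riemann's formula, i.e. `h^1(q A) = 0`, then so have
all `h^0(e A)`, `e ≥ q`. -/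
theorem finrank_sec {x : K} (hx : x ≠ 0) {g k q : ℕ} (hk : 0 < k)
    (hg : ∀ᶠ e in Filter.atTop, Module.finrank ℂ (sec x e) + g = e * k + 1)
    (hq : Module.finrank ℂ (sec x q) + g = q * k + 1) :
    ∀ e, q ≤ e → Module.finrank ℂ (sec x e) + g = e * k + 1 := by
  have hfin := sec_finite hk hg
  obtain ⟨N, hN⟩ := Filter.eventually_atTop.1 hg
  let D : ℕ → ℤ := fun e => (Module.finrank ℂ (sec x (e + 1)) : ℤ) - Module.finrank ℂ (sec x e)
  have hDmono : Monotone D := by
    refine monotone_nat_of_le_succ fun e => ?_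
    have := finrank_convex hx hfin e
    simp only [D]
    rw [show e + 1 + 1 = e + 2 from rfl]
    omega
  have hDk : ∀ e, D e ≤ k := by
    intro e
    have h1 : D e ≤ D (N + e) := hDmono (by omega)
    have h2 := hN (N + e) (by omega)
    have h3 := hN (N + e + 1) (by omega)
    have h4 : ((N + e + 1) * k : ℕ) = (N + e) * k + k := by ring
    have h5 : D (N + e) = k := by
      simp only [D]
      omega
    omega
  let u : ℕ → ℤ := fun e => (Module.finrank ℂ (sec x e) : ℤ) + g - e * k - 1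
  have hu : Antitone u := by
    refine antitone_nat_of_succ_le fun e => ?_
    have h1 := hDk e
    simp only [u, D] at h1 ⊢
    push_cast
    linarith
  intro e he
  have h1 : u e ≤ u q := hu he
  have h2 : u (N + e) ≤ u e := hu (by omega)
  have h3 : u (N + e) = 0 := by
    have := hN (N + e) (by omega)
    have h4 : ((Module.finrank ℂ (sec x (N + e)) + g : ℕ) : ℤ) = (((N + e) * k + 1 : ℕ) : ℤ) := by
      rw [this]
    simp only [u]
    push_cast at h4 ⊢
    linarith
  have h5 : u q = 0 := by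
    have h4 : ((Module.finrank ℂ (sec x q) + g : ℕ) : ℤ) = ((q * k + 1 : ℕ) : ℤ) := by
      rw [hq]
    simp only [u]
    push_cast at h4 ⊢
    linarith
  have h6 : u e = 0 := by omega
  simp only [u] at h6
  have h7 : ((Module.finrank ℂ (sec x e) + g : ℕ) : ℤ) = ((e * k + 1 : ℕ) : ℤ) := by
    push_cast
    linarith
  exact_mod_cast h7

/-- The section spaces of a curve satisfy the abstract properties. -/
theorem secData {x : K} (hx : x ≠ 0) {g k q : ℕ} (hk : 0 < k)
    (hg : ∀ᶠ e in Filter.atTop, Module.finrank ℂ (sec x e) + g = e * k + 1)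
    (hq : Module.finrank ℂ (sec x q) + g = q * k + 1) :
    SecData (F := ℂ) x (sec x) q where
  one0 := one_mem_sec0 x
  one1 := one_mem_sec1 x
  x1 := x_mem_sec1 hx
  mul := fun e e' f hf g hg => sec_mul hf hg
  div := fun e e' i h hh hi => sec_div hx hh hi
  gen := by
    intro e he c hc
    have hfin := sec_finite hk hg
    have hr := finrank_sec hx hk hg hq
    obtain ⟨e, rfl⟩ : ∃ e', e = e' + 1 := ⟨e - 1, by omega⟩
    have h1 := finrank_sup_sec hx hfin e
    have h2 := hr e (by omega)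
    have h3 := hr (e + 1) (by omega)
    have h4 := hr (e + 2) (by omega)
    have h5 : (e + 1) * k = e * k + k := by ring
    have h6 : (e + 2) * k = e * k + 2 * k := by ring
    haveI := hfin (e + 2)
    have h7 : sec x (e + 1) ⊔ xsec x (e + 1) = sec x (e + 2) := by
      refine Submodule.eq_of_le_of_finrank_eq (sup_sec_le hx e) ?_
      omega
    have hc' : c ∈ sec x (e + 1) ⊔ xsec x (e + 1) := by rw [h7]; exact hc
    obtain ⟨a, ha, b, hb, rfl⟩ := Submodule.mem_sup.1 hc'
    obtain ⟨b', hb', rfl⟩ := hb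
    exact ⟨a, ha, b', hb', rfl⟩

end PoolNP
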