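import Pool.Agent.helper43.NP.Place

/-!
Divisors of a function field, their spaces of sections, degree, genus.
-/

namespace PoolNP

open Finset

variable {K : Type*} [Field K] [Algebra ℂ K]

/-- Divisors. -/
abbrev Divisor (K : Type*) [Field K] [Algebra ℂ K] := Place K →₀ ℤ

/-- The degree of a divisor. -/
noncomputable def degree (D : Divisor K) : ℤ := D.sum fun _ n => n

/-- `H^0(X, O_X(D))` inside the function field. -/
noncomputable def space (D : Divisor K) : Submodule ℂ K := ⨅ P : Place K, P.O (D P)

/-- `h^0(D)`. -/
noncomputable def ell (D : Divisor K) : ℕ := Module.finrank ℂ (space D)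

/-- `g` is the genus: the maximum of `deg D + 1 - h^0(D)` (Riemann's theorem). -/
def IsGenus (K : Type*) [Field K] [Algebra ℂ K] (g : ℕ) : Prop :=
  (∀ D : Divisor K, degree D + 1 ≤ ell D + g) ∧ ∃ D : Divisor K, (ell D : ℤ) + g = degree D + 1

theorem mem_space {D : Divisor K} {f : K} : f ∈ space D ↔ ∀ P : Place K, f ∈ P.O (D P) := by
  rw [space, Submodule.mem_iInf]

theorem space_mono {D D' : Divisor K} (h : D ≤ D') : space D ≤ space D' := by
  intro f hf
  rw [mem_space] at hf ⊢
  exact fun P => P.O_mono (h P) (hf P)

theorem space_mul {D D' : Divisor K} {f g : K} (hf : f ∈ space D) (hg : g ∈ space D') :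
    f * g ∈ space (D + D') := by
  rw [mem_space] at hf hg ⊢
  exact fun P => Place.mul_mem_O (hf P) (hg P)

theorem degree_add (D D' : Divisor K) : degree (D + D') = degree D + degree D' := by
  rw [degree, Finsupp.sum_add_index' (fun _ => rfl) (fun _ _ _ => rfl)]
  rfl

theorem degree_single (P : Place K) (n : ℤ) : degree (Finsupp.single P n) = n := by
  rw [degree, Finsupp.sum_single_index rfl]

theorem degree_zero : degree (0 : Divisor K) = 0 := by
  rw [degree, Finsupp.sum_zero_index]

theorem degree_nsmul (n : ℕ) (D : Divisor K) : degree (n • D) = n * degree D := by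
  induction n with
  | zero => simp [degree_zero]
  | succ n ih => rw [succ_nsmul, degree_add, ih]; push_cast; ring

theorem degree_nonneg {E : Divisor K} (hE : 0 ≤ E) : 0 ≤ degree E :=
  Finset.sum_nonneg fun P _ => hE P

/-- Induction on effective divisors. -/
theorem eff_induction {motive : Divisor K → Prop} (h0 : motive 0)
    (hadd : ∀ (E : Divisor K) (P : Place K), 0 ≤ E → motive E → motive (E + Finsupp.single P 1)) :
    ∀ E : Divisor K, 0 ≤ E → motive E := by
  have key : ∀ (n : ℕ) (E : Divisor K), 0 ≤ E → degree E = n → motive E := by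
    intro n
    induction n with
    | zero =>
      intro E hE hd
      have : E = 0 := by
        ext P
        by_contra hP
        have h1 : 0 < degree E := by
          refine Finset.sum_pos' (fun Q _ => hE Q) ⟨P, Finsupp.mem_support_iff.2 hP, ?_⟩
          exact lt_of_le_of_ne (hE P) (Ne.symm hP)
        rw [hd] at h1
        simp at h1
      rw [this]; exact h0
    | succ n ih =>
      intro E hE hd
      obtain ⟨P, hP⟩ : ∃ P, E P ≠ 0 := by
        by_contra hcon
        push Not at hcon
        have : E = 0 := by ext P; exact hcon P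
        rw [this, degree_zero] at hd
        omega
      have hP1 : 1 ≤ E P := by
        have := hE P
        simp only [Finsupp.coe_zero, Pi.zero_apply] at this
        omega
      have e : E = (E - Finsupp.single P 1) + Finsupp.single P 1 := by rw [sub_add_cancel]
      have hE' : 0 ≤ E - Finsupp.single P 1 := by
        intro Q
        simp only [Finsupp.coe_zero, Pi.zero_apply, Finsupp.coe_sub, Pi.sub_apply]
        by_cases hQ : P = Q
        · subst hQ
          rw [Finsupp.single_eq_same]
          omega
        · rw [Finsupp.single_eq_of_ne (Ne.symm hQ)]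
          have := hE Q
          simp only [Finsupp.coe_zero, Pi.zero_apply] at this
          omega
      have hd' : degree (E - Finsupp.single P 1) = n := by
        have h1 := degree_add (E - Finsupp.single P 1) (Finsupp.single P 1)
        rw [sub_add_cancel, degree_single, hd] at h1
        push_cast at h1
        omega
      rw [e]
      exact hadd _ P hE' (ih _ hE' hd')
  intro E hE
  have h1 := degree_nonneg hE
  exact key (degree E).toNat E hE (by omega)

theorem single_nonneg (P : Place K) : (0 : Divisor K) ≤ Finsupp.single P 1 := by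
  intro Q
  by_cases hQ : P = Q
  · subst hQ; simp
  · rw [Finsupp.single_eq_of_ne (Ne.symm hQ)]; simp

/-- Riemann's inequality gives finite dimension. -/
theorem space_finite {g : ℕ} (hg : IsGenus K g) (P0 : Place K) (D : Divisor K) :
    FiniteDimensional ℂ (space D) := by
  set n : ℕ := (g - degree D).toNat + 1 with hn
  set D' : Divisor K := D + n • Finsupp.single P0 1 with hD'
  have h1 := hg.1 D'
  have h2 : degree D' = degree D + n := by
    rw [hD', degree_add, degree_nsmul, degree_single, mul_one]
  have h3 : 0 < ell D' := by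
    rw [h2] at h1
    omega
  have : FiniteDimensional ℂ (space D') := Module.finite_of_finrank_pos h3
  refine Submodule.finiteDimensional_of_le (space_mono ?_ : space D ≤ space D')
  rw [hD']
  exact le_add_of_nonneg_right (nsmul_nonneg (single_nonneg P0) n)

theorem ell_mono {D D' : Divisor K} (h : D ≤ D') (hfin : FiniteDimensional ℂ (space D')) :
    ell D ≤ ell D' :=
  Submodule.finrank_mono (space_mono h)

theorem mem_space_of_lc {P : Place K} {D : Divisor K} {f : K}
    (hf : f ∈ space (D + Finsupp.single P 1)) (hfP : f ∈ P.O (D P)) : f ∈ space D := by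
  rw [mem_space] at hf ⊢
  intro Q
  by_cases hQ : P = Q
  · subst hQ; exact hfP
  · have := hf Q
    rwa [Finsupp.add_apply, Finsupp.single_eq_of_ne (Ne.symm hQ), add_zero] at this

/-- `h^0(D + P) ≤ h^0(D) + 1`. -/
theorem ell_add_single_le {x : K}
    [Algebra.IsAlgebraic (IntermediateField.adjoin ℂ ({x} : Set K)) K]
    (hfin : ∀ D : Divisor K, FiniteDimensional ℂ (space D)) (D : Divisor K) (P : Place K) :
    ell (D + Finsupp.single P 1) ≤ ell D + 1 := by
  obtain ⟨lc, hlc1, hlc2, hlc3⟩ := P.exists_lc (x := x)
  have := hfin D
  have := hfin (D + Finsupp.single P 1)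
  have hO : ∀ f ∈ space (D + Finsupp.single P 1), f ∈ P.O (D P + 1) := by
    intro f hf
    have := mem_space.1 hf P
    rwa [Finsupp.add_apply, Finsupp.single_eq_same] at this
  have hker : ∀ f ∈ space (D + Finsupp.single P 1), lc (D P + 1) f = 0 → f ∈ space D := by
    intro f hf h0
    refine mem_space_of_lc hf ?_
    have := hlc1 _ f (hO f hf) h0
    rwa [add_sub_cancel_right] at this
  by_cases h : ∀ f ∈ space (D + Finsupp.single P 1), lc (D P + 1) f = 0
  · have : space (D + Finsupp.single P 1) ≤ space D := fun f hf => hker f hf (h f hf)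
    exact (Submodule.finrank_mono this).trans (Nat.le_succ _)
  · push Not at h
    obtain ⟨σ, hσ, hσ0⟩ := h
    have hle : space (D + Finsupp.single P 1) ≤ space D ⊔ Submodule.span ℂ {σ} := by
      intro f hf
      have h1 : f - (lc (D P + 1) f / lc (D P + 1) σ) • σ ∈ space D := by
        refine hker _ (Submodule.sub_mem _ hf (Submodule.smul_mem _ _ hσ)) ?_
        rw [map_sub, map_smul, smul_eq_mul, div_mul_cancel₀ _ hσ0, sub_self]
      have e : f = (f - (lc (D P + 1) f / lc (D P + 1) σ) • σ)
          + (lc (D P + 1) f / lc (D P + 1) σ) • σ := by ring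
      rw [e]
      exact Submodule.add_mem_sup h1 (Submodule.smul_mem _ _ (Submodule.mem_span_singleton_self σ))
    calc ell (D + Finsupp.single P 1)
        ≤ Module.finrank ℂ ↥(space D ⊔ Submodule.span ℂ {σ}) := Submodule.finrank_mono hle
      _ ≤ Module.finrank ℂ (space D) + Module.finrank ℂ (Submodule.span ℂ {σ}) :=
          Submodule.finrank_add_le_finrank_add_finrank _ _
      _ ≤ ell D + 1 := by
          have h2 : Module.finrank ℂ (Submodule.span ℂ {σ}) ≤ 1 :=
            (finrank_span_le_card {σ}).trans (by simp)
          exact Nat.add_le_add_left h2 _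

/-- If `h^1(D0) = 0` then `h^0(D) = deg D + 1 - g` for all `D ≥ D0`. -/
theorem ell_eq {x : K} [Algebra.IsAlgebraic (IntermediateField.adjoin ℂ ({x} : Set K)) K]
    {g : ℕ} (hg : IsGenus K g) (hfin : ∀ D : Divisor K, FiniteDimensional ℂ (space D))
    {D0 : Divisor K} (h0 : (ell D0 : ℤ) + g = degree D0 + 1) {D : Divisor K} (hD : D0 ≤ D) :
    (ell D : ℤ) + g = degree D + 1 := by
  have key : ∀ E : Divisor K, 0 ≤ E → (ell (D0 + E) : ℤ) + g ≤ degree (D0 + E) + 1 := by
    refine eff_induction ?_ ?_
    · rw [add_zero, h0]
    · intro E P hE ih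
      rw [← add_assoc, degree_add (D0 + E), degree_single]
      have := ell_add_single_le (x := x) hfin (D0 + E) P
      omega
  have h1 := key (D - D0) (sub_nonneg.2 hD)
  rw [add_sub_cancel] at h1
  have h2 := hg.1 D
  omega

end PoolNP
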