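import Pool.Agent.helper43.NP.General

/-!
Invariance under linear equivalence.
-/

open scoped TensorProduct

namespace PoolNP

open Finset

section Rank

theorem finrank_map_le' {F T S : Type*} [Field F] [AddCommGroup T] [Module F T]
    [AddCommGroup S] [Module F S] (f : T →ₗ[F] S) {p : Submodule F T} {p' : Submodule F S}
    (h : p' ≤ p.map f) (hp : Module.Finite F p) :
    Module.finrank F p' ≤ Module.finrank F p :=
  (Submodule.finrank_mono h).trans (Submodule.finrank_map_le f p)

theorem finrank_map_le {F T S : Type*} [Field F] [AddCommMonoid T] [Module F T]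
    [AddCommMonoid S] [Module F S] (f : T →ₗ[F] S) {p : Submodule F T} {p' : Submodule F S}
    (h : p' ≤ p.map f) (hp : Module.Finite F p) :
    Module.finrank F p' ≤ Module.finrank F p := by
  let _ : AddCommGroup T := Module.addCommMonoidToAddCommGroup F
  let _ : AddCommGroup S := Module.addCommMonoidToAddCommGroup F
  exact finrank_map_le' f h hp

variable {F A : Type*} [Field F] [CommRing A] [Algebra F A]

variable (F A) in
/-- The identity. -/
noncomputable def ofAmb (i : ℕ) : Amb F A i →ₗ[F] (⋀[F]^i A) ⊗[F] A where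
  toFun x := x
  map_add' _ _ := rfl
  map_smul' _ _ := rfl

/-- multiplication by `f` on all factors and by `f u` on the last factor. -/
noncomputable def mulAmb (i : ℕ) (f u : A) : Amb F A i →ₗ[F] Amb F A i :=
  toAmb F A i ∘ₗ TensorProduct.map (exteriorPower.map i (LinearMap.mulLeft F f))
    (LinearMap.mulLeft F (f * u)) ∘ₗ ofAmb F A i

theorem mulAmb_dA (i : ℕ) (f u : A) (w : Fin (i + 1) → A) (r : A) :
    mulAmb i f u (dA F A i (exteriorPower.ιMulti F (i + 1) w ⊗ₜ[F] r))
      = dA F A i (exteriorPower.ιMulti F (i + 1) (fun l => f * w l) ⊗ₜ[F] (u * r)) := by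
  have h : TensorProduct.map (exteriorPower.map i (LinearMap.mulLeft F f))
      (LinearMap.mulLeft F (f * u)) (dK F A i (exteriorPower.ιMulti F (i + 1) w ⊗ₜ[F] r))
      = dK F A i (exteriorPower.ιMulti F (i + 1) (fun l => f * w l) ⊗ₜ[F] (u * r)) := by
    rw [dK_apply, dK_apply, map_sum]
    refine sum_congr rfl fun l _ => ?_
    rw [map_smul, TensorProduct.map_tmul, exteriorPower.map_apply_ιMulti,
      LinearMap.mulLeft_apply]
    congr 2
    ring
  exact congrArg (toAmb F A i) h

theorem kSet_rank_le (i : ℕ) (V V' M M' : Submodule F A) [FiniteDimensional F V']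
    [FiniteDimensional F M'] (f u : A)
    (hV : ∀ v ∈ V, ∃ v' ∈ V', v = f * v') (hM : ∀ r ∈ M, ∃ r' ∈ M', r = u * r') :
    Module.finrank F (Submodule.span F (kSet F i (V : Set A) (M : Set A)))
      ≤ Module.finrank F (Submodule.span F (kSet F i (V' : Set A) (M' : Set A))) := by
  refine finrank_map_le (mulAmb i f u) ?_ (finite_kSet V' M' i)
  rw [Submodule.span_le]
  rintro s ⟨w, r, hw, hr, rfl⟩
  choose w' hw' hww' using fun l => hV (w l) (hw l)
  obtain ⟨r', hr', rfl⟩ := hM r hr
  have e : w = fun l => f * w' l := funext hww'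
  refine ⟨dA F A i (exteriorPower.ιMulti F (i + 1) w' ⊗ₜ[F] r'),
    Submodule.subset_span ⟨w', r', hw', hr', rfl⟩, ?_⟩
  rw [mulAmb_dA, e]

end Rank

variable {K : Type*} [Field K] [Algebra ℂ K] {x : K} {g : ℕ} {A D0 : Divisor K}

/-- multiplication by `f` maps `H^0(L + div f)` onto `H^0(L)`. -/
theorem mem_space_div {f : K} (hf : f ≠ 0) {B : Divisor K}
    (hB : ∀ P : Place K, B P = P.ord f) {L : Divisor K} {r : K} (hr : r ∈ space (L + B)) :
    f * r ∈ space L := by
  by_cases hr0 : r = 0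
  · rw [hr0, mul_zero]; exact Submodule.zero_mem _
  rw [mem_space] at hr ⊢
  intro P
  have h1 := hr P
  rw [Place.mem_O_of_ne hr0, Finsupp.add_apply, hB P] at h1
  rw [Place.mem_O_of_ne (mul_ne_zero hf hr0), P.ord_mul _ _ hf hr0]
  omega

theorem mem_space_div' {f : K} (hf : f ≠ 0) {B : Divisor K}
    (hB : ∀ P : Place K, B P = P.ord f) {L : Divisor K} {r : K} (hr : r ∈ space L) :
    f⁻¹ * r ∈ space (L + B) := by
  refine mem_space_div (inv_ne_zero hf) (B := -B) ?_ ?_
  · intro P
    rw [Finsupp.neg_apply, hB P, P.ord_inv hf]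
  · rwa [add_neg_cancel_right]

theorem pow_div {f : K} (hf : f ≠ 0) {B : Divisor K}
    (hB : ∀ P : Place K, B P = P.ord f) (j : ℕ) : ∀ P : Place K, (j • B) P = P.ord (f ^ j) := by
  intro P
  rw [Finsupp.smul_apply, hB P, P.ord_pow hf, nsmul_eq_mul]

/-- Goodness is invariant under linear equivalence. -/
theorem Good.equiv (C : Curve x g A D0) {f : K} (hf : f ≠ 0) {B : Divisor K}
    (hB : ∀ P : Place K, B P = P.ord f) {L : Divisor K} {p : ℕ} (h : Good g (L + B) p) :
    Good g L p := by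
  have hB2 := pow_div hf hB 2
  have hf2 : f ^ 2 ≠ 0 := pow_ne_zero 2 hf
  have d2 : 2 • (L + B) = 2 • L + 2 • B := nsmul_add L B 2
  have e1 : ell (L + B) = ell L := C.ell_add_div hf hB L
  have e2 : ell (2 • (L + B)) = ell (2 • L) := by
    rw [d2]
    exact C.ell_add_div hf2 hB2 (2 • L)
  have hdeg : degree (L + B) = degree L := by
    rw [degree_add, C.degree_div hf hB, add_zero]
  have f1 := C.hfin L
  have f1' := C.hfin (L + B)
  have f2 := C.hfin (2 • L)
  have f2' := C.hfin (2 • (L + B))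
  have inv_mul : ∀ y z : K, y ≠ 0 → z = y * (y⁻¹ * z) := by
    intro y z hy
    rw [mul_inv_cancel_left₀ hy]
  have a1 : ∀ v ∈ space L, ∃ v' ∈ space (L + B), v = f * v' := fun v hv =>
    ⟨f⁻¹ * v, mem_space_div' hf hB hv, inv_mul f v hf⟩
  have a2 : ∀ v ∈ space (L + B), ∃ v' ∈ space L, v = f⁻¹ * v' := fun v hv =>
    ⟨f * v, mem_space_div hf hB hv, by rw [inv_mul_cancel_left₀ hf]⟩
  have b1 : ∀ v ∈ space (2 • L), ∃ v' ∈ space (2 • (L + B)), v = f ^ 2 * v' := fun v hv =>
    ⟨(f ^ 2)⁻¹ * v, by rw [d2]; exact mem_space_div' hf2 hB2 hv, inv_mul _ v hf2⟩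
  have b2 : ∀ v ∈ space (2 • (L + B)), ∃ v' ∈ space (2 • L), v = (f ^ 2)⁻¹ * v' := fun v hv =>
    ⟨f ^ 2 * v, mem_space_div hf2 hB2 (by rw [← d2]; exact hv),
      by rw [inv_mul_cancel_left₀ hf2]⟩
  have k1 : ∀ i, rk1 i (L + B) = rk1 i L := fun i => le_antisymm
    (kSet_rank_le i (space (L + B)) (space L) (space (L + B)) (space L) f⁻¹ f⁻¹ a2 a2)
    (kSet_rank_le i (space L) (space (L + B)) (space L) (space (L + B)) f f a1 a1)
  have k3 : ∀ i, rk3 i (L + B) = rk3 i L := fun i => le_antisymm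
    (kSet_rank_le i (space (L + B)) (space L) (space (2 • (L + B))) (space (2 • L))
      f⁻¹ (f ^ 2)⁻¹ a2 b2)
    (kSet_rank_le i (space L) (space (L + B)) (space (2 • L)) (space (2 • (L + B)))
      f (f ^ 2) a1 b1)
  obtain ⟨a, b, hp⟩ := h.pencil
  refine ⟨?_, ⟨f * a, f * b, mul_ne_zero hf hp.f0, mul_ne_zero hf hp.G0,
    mem_space_div hf hB hp.memf, mem_space_div hf hB hp.memG, ?_⟩, ?_, ?_⟩
  · have h1 := h.rr
    rwa [e1, hdeg] at h1
  · intro P
    rcases hp.free P with h1 | h1
    · left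
      rw [Place.mem_O_of_ne hp.f0, Finsupp.add_apply, hB P] at h1
      rw [Place.mem_O_of_ne (mul_ne_zero hf hp.f0), P.ord_mul _ _ hf hp.f0]
      omega
    · right
      rw [Place.mem_O_of_ne hp.G0, Finsupp.add_apply, hB P] at h1
      rw [Place.mem_O_of_ne (mul_ne_zero hf hp.G0), P.ord_mul _ _ hf hp.G0]
      omega
  · change rk1 0 L = _
    rw [← k1 0, ← e2]
    exact h.surj
  · intro i hi
    change rk1 (i + 1) L + rk3 i L = _
    rw [← k1, ← k3, ← e1, ← e2]
    exact h.exact i hi

/-- Goodness for smaller `p`. -/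
theorem Good.mono {L : Divisor K} {p p' : ℕ} (h : Good g L p) (hp : p' ≤ p) : Good g L p' :=
  ⟨h.rr, h.pencil, h.surj, fun i hi => h.exact i (hi.trans hp)⟩

/-- If `h^0(D - m A) ≥ 1` then `D - Z` is good for general effective `Z` of degree
`N ≤ deg (D - m A)`. -/
theorem forGeneral_equiv [Algebra.IsAlgebraic (IntermediateField.adjoin ℂ ({x} : Set K)) K]
    {q m : ℕ} (hx : x ≠ 0) (hA : ∀ P : Place K, A P = max 0 (-P.ord x))
    (hk : 0 < degree A) (hg : IsGenus K g)
    (hfin : ∀ D : Divisor K, FiniteDimensional ℂ (space D))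
    (hq : (ell (q • A) : ℤ) + g = degree (q • A) + 1) {D : Divisor K}
    (hD : 0 < ell (D - m • A)) {p : ℕ} (hp : p + 1 ≤ 2 * (m - q)) {N : ℕ}
    (hN : m * degree A + N ≤ degree D) :
    ForGeneral N (fun Z => Good g (D - Z) p) := by
  have C : Curve x g A (q • A) := ⟨inferInstance, hA, hg, hfin, hq⟩
  have h4 : space (D - m • A) ≠ ⊥ := by
    intro hbot
    have : ell (D - m • A) = 0 := by
      rw [ell, hbot]
      exact finrank_bot ℂ K
    omega
  obtain ⟨f, hfm, hf⟩ := Submodule.exists_mem_ne_zero_of_ne_bot h4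
  obtain ⟨B, hB⟩ := C.exists_div hf
  have hE : 0 ≤ D - m • A + B := by
    intro P
    have h6 := mem_space.1 hfm P
    rw [Place.mem_O_of_ne hf] at h6
    rw [Finsupp.add_apply, hB P]
    simp only [Finsupp.coe_zero, Pi.zero_apply]
    omega
  have hdeg : degree (D - m • A + B) = degree D - m * degree A := by
    have h7 : degree D = degree (D - m • A) + degree (m • A) := by
      rw [← degree_add, sub_add_cancel]
    rw [degree_nsmul] at h7
    rw [degree_add, C.degree_div hf hB]
    omega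
  have h5 := forGeneral_main hx hA hk hg hfin hq hE hp (N := N) (by omega)
  refine ForGeneral.mono' N ?_ h5
  intro Z _ _ hZ
  have e : m • A + (D - m • A + B) - Z = D - Z + B := by abel
  rw [e] at hZ
  exact hZ.equiv C hf hB

end PoolNP
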