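import Pool.Agent.helper43.NP.Proj

/-!
Property `(N_p)` for `m A + E - Z` and for general line bundles.
-/

namespace PoolNP

open Finset

variable {K : Type*} [Field K] [Algebra ℂ K] {x : K} {g : ℕ} {A D0 : Divisor K}

/-- `m A + E` is good. -/
theorem goodD_base [Algebra.IsAlgebraic (IntermediateField.adjoin ℂ ({x} : Set K)) K] {q m : ℕ}
    (hx : x ≠ 0) (hA : ∀ P : Place K, A P = max 0 (-P.ord x))
    (hk : 0 < degree A) (hg : IsGenus K g)
    (hfin : ∀ D : Divisor K, FiniteDimensional ℂ (space D))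
    (hq : (ell (q • A) : ℤ) + g = degree (q • A) + 1) {E : Divisor K} (hE : 0 ≤ E) {p : ℕ}
    (hp : p + 1 ≤ 2 * (m - q)) : GoodD g (m • A + E) p := by
  have hgood := good_base (p := p) hx hA hk hg hfin hq hE hp
  obtain ⟨s, hm⟩ : ∃ s, m = q + 1 + s := ⟨m - q - 1, by omega⟩
  exact ⟨hgood.rr, hgood.pencil, fun n hn => dexact_two hx hA hg hfin hq hm E hE n (by omega)⟩

/-- `g ≤ q k`. -/
theorem genus_le (hA : ∀ P : Place K, A P = max 0 (-P.ord x))
    (hfin : ∀ D : Divisor K, FiniteDimensional ℂ (space D)) {q : ℕ}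
    (hq : (ell (q • A) : ℤ) + g = degree (q • A) + 1) : (g : ℤ) ≤ q * degree A := by
  have := hfin (q • A)
  have h1 : (1 : K) ∈ space (q • A) := one_mem_space (nsmul_nonneg (A_nonneg' hA) q)
  have h2 : 0 < ell (q • A) := by
    refine Nat.pos_of_ne_zero fun h0 => ?_
    have h3 : space (q • A) = ⊥ := Submodule.finrank_eq_zero.1 h0
    rw [h3, Submodule.mem_bot] at h1
    exact one_ne_zero h1
  rw [degree_nsmul] at hq
  omega

/-- `m A + E - Z` is good. -/
theorem goodD_special [Algebra.IsAlgebraic (IntermediateField.adjoin ℂ ({x} : Set K)) K]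
    {q m : ℕ} (hx : x ≠ 0) (hA : ∀ P : Place K, A P = max 0 (-P.ord x))
    (hk : 2 ≤ degree A) (hg : IsGenus K g)
    (hfin : ∀ D : Divisor K, FiniteDimensional ℂ (space D))
    (hq : (ell (q • A) : ℤ) + g = degree (q • A) + 1) {E Z : Divisor K} (hE : 0 ≤ E)
    (hZ : 0 ≤ Z) {p : ℕ} (hp : p + 1 + degree Z ≤ 2 * ((m : ℤ) - q)) :
    GoodD g (m • A + E - Z) p := by
  have C : Curve x g A (q • A) := ⟨inferInstance, hA, hg, hfin, hq⟩
  have hZ0 := degree_nonneg hZ
  have hE0 := degree_nonneg hE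
  obtain ⟨j, hj⟩ : ∃ j : ℕ, degree Z = j := ⟨(degree Z).toNat, by omega⟩
  have hbase := goodD_base (m := m) (p := p + j) hx hA (by omega) hg hfin hq hE (by omega)
  refine hbase.sub C (Z := Z) hbase.rr hZ p (p + j) (by push_cast; omega) ?_
  have h1 := hbase.rr
  have h2 := genus_le hA hfin hq
  rw [degree_add, degree_nsmul] at h1
  have h3 : 2 * ((m : ℤ) - q) ≤ ((m : ℤ) - q) * degree A := by
    rw [mul_comm]
    exact mul_le_mul_of_nonneg_left hk (by omega)
  have h4 : ((m : ℤ) - q) * degree A = m * degree A - q * degree A := by ring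
  omega

/-- `L` is good if `h^0(L + Z - m A) ≥ 1`. -/
theorem good_special [Algebra.IsAlgebraic (IntermediateField.adjoin ℂ ({x} : Set K)) K]
    {q m : ℕ} (hx : x ≠ 0) (hA : ∀ P : Place K, A P = max 0 (-P.ord x))
    (hk : 2 ≤ degree A) (hg : IsGenus K g)
    (hfin : ∀ D : Divisor K, FiniteDimensional ℂ (space D))
    (hq : (ell (q • A) : ℤ) + g = degree (q • A) + 1) {L Z : Divisor K} (hZ : 0 ≤ Z)
    (hL : 0 < ell (L + Z - m • A)) {p : ℕ} (hp : p + 1 + degree Z ≤ 2 * ((m : ℤ) - q)) :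
    Good g L p := by
  have C : Curve x g A (q • A) := ⟨inferInstance, hA, hg, hfin, hq⟩
  obtain ⟨f, hfm, hf⟩ := exists_ne_zero hL
  obtain ⟨B, hB⟩ := C.exists_div hf
  set E := L + Z - m • A + B with hEdef
  have hE : 0 ≤ E := by
    intro P
    have h6 := mem_space.1 hfm P
    rw [Place.mem_O_of_ne hf] at h6
    rw [hEdef, Finsupp.add_apply, hB P]
    simp only [Finsupp.coe_zero, Pi.zero_apply]
    omega
  have hgood := (goodD_special hx hA hk hg hfin hq hE hZ hp).good hfin
  have e : m • A + E - Z = L + B := by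
    rw [hEdef]
    abel
  rw [e] at hgood
  exact hgood.equiv C hf hB

/-- The general line bundle of degree `d ≥ m k - j`. -/
theorem forGeneral_final [Algebra.IsAlgebraic (IntermediateField.adjoin ℂ ({x} : Set K)) K]
    {q m : ℕ} (hx : x ≠ 0) (hA : ∀ P : Place K, A P = max 0 (-P.ord x))
    (hk : 2 ≤ degree A) (hg : IsGenus K g)
    (hfin : ∀ D : Divisor K, FiniteDimensional ℂ (space D))
    (hq : (ell (q • A) : ℤ) + g = degree (q • A) + 1) (P0 : Place K) {j p : ℕ}
    (hp : p + 1 + j ≤ 2 * (m - q)) {D : Divisor K} {N : ℕ} (hN : g ≤ N)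
    (hD : m * degree A ≤ degree D - N + j) :
    ForGeneral N (fun Z => Good g (D - Z) p) := by
  have C : Curve x g A (q • A) := ⟨inferInstance, hA, hg, hfin, hq⟩
  set Z' : Divisor K := j • Finsupp.single P0 1 with hZ'
  have hZ'0 : 0 ≤ Z' := nsmul_nonneg (single_nonneg P0) j
  have hdZ' : degree Z' = j := by rw [hZ', degree_nsmul, degree_single, mul_one]
  have hdeg : degree (D + Z' - m • A) = degree D + j - m * degree A := by
    have h3 : degree (D + Z') = degree (D + Z' - m • A) + degree (m • A) := by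
      rw [← degree_add, sub_add_cancel]
    rw [degree_add, hdZ', degree_nsmul] at h3
    omega
  have h1 := hg.1 (D + Z' - m • A)
  obtain ⟨f, hfm, hf⟩ := exists_ne_zero (D := D + Z' - m • A) (by omega)
  obtain ⟨B, hB⟩ := C.exists_div hf
  set E := D + Z' - m • A + B with hEdef
  have hE : 0 ≤ E := by
    intro P
    have h6 := mem_space.1 hfm P
    rw [Place.mem_O_of_ne hf] at h6
    rw [hEdef, Finsupp.add_apply, hB P]
    simp only [Finsupp.coe_zero, Pi.zero_apply]
    omega
  have hdE : degree E = degree D + j - m * degree A := by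
    rw [hEdef, degree_add, C.degree_div hf hB, add_zero, hdeg]
  obtain ⟨E0, h1, h2, h3⟩ := exists_sub N hE (by omega)
  have hgood := (goodD_special (p := p) hx hA hk hg hfin hq h2 hZ'0
    (by rw [hdZ']; omega) (m := m)).good hfin
  have e : m • A + (E - E0) - Z' = D + B - E0 := by
    rw [hEdef]
    abel
  rw [e] at hgood
  have h5 := forGeneral_good C N ⟨E0, h1, h3, hgood⟩
  refine ForGeneral.mono' N ?_ h5
  intro Z _ _ hZ
  have e2 : D + B - Z = D - Z + B := by abel
  rw [e2] at hZ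
  exact hZ.equiv C hf hB

end PoolNP
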