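import Pool.Agent.helper43.NP.Step

/-!
General points; Property `(N_p)` for `m A + E - (general points)`.
-/

open scoped TensorProduct

namespace PoolNP

open Finset

variable {K : Type*} [Field K] [Algebra ℂ K]

/-- `Φ (P_1 + ⋯ + P_N)` holds for general points `P_1, …, P_N`: for all but finitely many `P_1`,
for all but finitely many `P_2` (depending on `P_1`), and so on. -/
def ForGeneral : ℕ → (Divisor K → Prop) → Prop
  | 0, Φ => Φ 0
  | N + 1, Φ => {P : Place K | ¬ ForGeneral N (fun E => Φ (Finsupp.single P 1 + E))}.Finite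

theorem ForGeneral.mono' : ∀ (N : ℕ) {Φ Ψ : Divisor K → Prop},
    (∀ E : Divisor K, 0 ≤ E → degree E = N → Φ E → Ψ E) → ForGeneral N Φ → ForGeneral N Ψ
  | 0, Φ, Ψ, h, hΦ => h 0 le_rfl (by rw [degree_zero]; rfl) hΦ
  | N + 1, Φ, Ψ, h, hΦ => by
    change {P : Place K | ¬ ForGeneral N (fun E => Φ (Finsupp.single P 1 + E))}.Finite at hΦ
    change {P : Place K | ¬ ForGeneral N (fun E => Ψ (Finsupp.single P 1 + E))}.Finite
    refine hΦ.subset ?_
    intro P hP hP'
    refine hP (ForGeneral.mono' N ?_ hP')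
    intro E hE hd hΦE
    refine h _ (add_nonneg (single_nonneg P) hE) ?_ hΦE
    rw [degree_add, degree_single, hd]
    push_cast
    ring

/-- An effective divisor of degree zero is zero. -/
theorem eq_zero_of_degree {E : Divisor K} (hE : 0 ≤ E) (hd : degree E = 0) : E = 0 := by
  ext P
  by_contra hP
  have h1 : 0 < degree E := by
    refine Finset.sum_pos' (fun Q _ => hE Q) ⟨P, Finsupp.mem_support_iff.2 hP, ?_⟩
    exact lt_of_le_of_ne (hE P) (Ne.symm hP)
  omega

/-- A point of an effective divisor. -/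
theorem exists_point {E : Divisor K} (hE : 0 ≤ E) (hd : 0 < degree E) :
    ∃ P : Place K, 0 ≤ E - Finsupp.single P 1 := by
  obtain ⟨P, hP⟩ : ∃ P, E P ≠ 0 := by
    by_contra hcon
    push Not at hcon
    have : E = 0 := by ext P; exact hcon P
    rw [this, degree_zero] at hd
    exact lt_irrefl _ hd
  refine ⟨P, fun Q => ?_⟩
  have hQ0 := hE Q
  simp only [Finsupp.coe_zero, Pi.zero_apply] at hQ0 ⊢
  by_cases hQ : P = Q
  · subst hQ
    rw [Finsupp.sub_apply, Finsupp.single_eq_same]
    omega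
  · rw [sub_single_apply_of_ne hQ]
    exact hQ0

theorem exists_sub : ∀ (N : ℕ) {E : Divisor K}, 0 ≤ E → (N : ℤ) ≤ degree E →
    ∃ E0 : Divisor K, 0 ≤ E0 ∧ 0 ≤ E - E0 ∧ degree E0 = N
  | 0, E, hE, _ => ⟨0, le_rfl, by rwa [sub_zero], by rw [degree_zero]; rfl⟩
  | N + 1, E, hE, hd => by
    obtain ⟨E0, h1, h2, h3⟩ := exists_sub N hE (by push_cast at hd; omega)
    have h4 : degree E = degree (E - E0) + degree E0 := by
      rw [← degree_add, sub_add_cancel]
    obtain ⟨P, hP⟩ := exists_point h2 (by push_cast at hd; omega)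
    refine ⟨E0 + Finsupp.single P 1, add_nonneg h1 (single_nonneg P), ?_, ?_⟩
    · rwa [sub_add_eq_sub_sub]
    · rw [degree_add, degree_single, h3]
      push_cast
      rfl

variable {x : K} {g : ℕ} {A D0 : Divisor K}

/-- From one good subtraction to general ones. -/
theorem forGeneral_good (C : Curve x g A D0) {p : ℕ} : ∀ (N : ℕ) {D : Divisor K},
    (∃ E0 : Divisor K, 0 ≤ E0 ∧ degree E0 = N ∧ Good g (D - E0) p) →
    ForGeneral N (fun E => Good g (D - E) p)
  | 0, D, ⟨E0, h1, h2, h3⟩ => by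
    have e : E0 = 0 := eq_zero_of_degree h1 h2
    rw [e] at h3
    exact h3
  | N + 1, D, ⟨E0, h1, h2, h3⟩ => by
    obtain ⟨P0, hP0⟩ := exists_point h1 (by rw [h2]; positivity)
    set E1 := E0 - Finsupp.single P0 1 with hE1
    have e0 : D - E0 = D - E1 - Finsupp.single P0 1 := by
      rw [hE1]
      abel
    rw [e0] at h3
    have hst := step C h3
    change {P : Place K | ¬ ForGeneral N
      (fun E => Good g (D - (Finsupp.single P 1 + E)) p)}.Finite
    refine hst.subset ?_
    intro P hP hP'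
    apply hP
    have h4 := forGeneral_good C (p := p) N (D := D - Finsupp.single P 1) ⟨E1, hP0, by
      rw [hE1, degree_sub_single, h2]
      push_cast
      ring, by rwa [sub_right_comm]⟩
    have e : (fun E => Good g (D - (Finsupp.single P 1 + E)) p)
        = fun E => Good g (D - Finsupp.single P 1 - E) p := by
      funext E
      rw [sub_add_eq_sub_sub]
    rw [e]
    exact h4

/-- `m A + E` is good. -/
theorem good_base [Algebra.IsAlgebraic (IntermediateField.adjoin ℂ ({x} : Set K)) K] {q m : ℕ}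
    (hx : x ≠ 0) (hA : ∀ P : Place K, A P = max 0 (-P.ord x))
    (hk : 0 < degree A) (hg : IsGenus K g)
    (hfin : ∀ D : Divisor K, FiniteDimensional ℂ (space D))
    (hq : (ell (q • A) : ℤ) + g = degree (q • A) + 1) {E : Divisor K} (hE : 0 ≤ E) {p : ℕ}
    (hp : p + 1 ≤ 2 * (m - q)) : Good g (m • A + E) p := by
  obtain ⟨s, hm⟩ : ∃ s, m = q + 1 + s := ⟨m - q - 1, by omega⟩
  have hps : p ≤ 2 * s + 1 := by omega
  have h2 := dexact_two hx hA hg hfin hq hm E hE
  set D := m • A + E with hD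
  have hA0 : 0 ≤ A := A_nonneg' hA
  have hmA : q • A ≤ m • A := nsmul_le_nsmul_left hA0 (by omega)
  have hqD : q • A ≤ D := hmA.trans (le_add_of_nonneg_right hE)
  have hD0 : 0 ≤ D := add_nonneg (nsmul_nonneg hA0 m) hE
  have hP : ∀ P : Place K, 0 < D P → (q • A) P + 1 ≤ D P := by
    intro P hDP
    have h1 := hA0 P
    have h2 := hE P
    simp only [Finsupp.coe_zero, Pi.zero_apply] at h1 h2
    rw [hD] at hDP ⊢
    simp only [Finsupp.add_apply, Finsupp.smul_apply, nsmul_eq_mul] at hDP ⊢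
    rw [hm] at hDP ⊢
    push_cast at hDP ⊢
    by_cases h3 : A P = 0
    · rw [h3] at hDP ⊢
      simp only [mul_zero, zero_add] at hDP ⊢
      omega
    · have h4 : 1 ≤ A P := by omega
      have h5 : 0 ≤ (s : ℤ) * A P := mul_nonneg (by positivity) h1
      nlinarith
  obtain ⟨G, hGD, hG⟩ := exists_generic (D := D)
    (fun P hDP => exists_exact (x := x) hg hfin hq hD0 hqD P (hP P))
  have hdeg : 0 < degree D := by
    rw [hD, degree_add, degree_nsmul]
    have h3 := degree_nonneg hE
    have h4 : (0 : ℤ) < m := by omega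
    have := mul_pos h4 hk
    linarith
  obtain ⟨P1, hP1⟩ : ∃ P : Place K, 0 < D P := by
    by_contra hcon
    push Not at hcon
    have : degree D ≤ 0 := Finset.sum_nonpos fun P _ => hcon P
    omega
  have hG0 : G ≠ 0 := by
    rintro rfl
    exact hG P1 hP1 (Submodule.zero_mem _)
  have f1 := hfin D
  have f2 := hfin (2 • D)
  refine ⟨ell_eq (x := x) hg hfin hq hqD,
    ⟨1, G, ⟨one_ne_zero, hG0, one_mem_space hD0, hGD, ?_⟩⟩, ?_, ?_⟩
  · intro P
    by_cases hDP : 0 < D P
    · exact Or.inr (hG P hDP)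
    · left
      have h3 := hD0 P
      simp only [Finsupp.coe_zero, Pi.zero_apply] at h3
      rw [Place.mem_O_of_ne one_ne_zero, P.ord_one]
      omega
  · exact (surj_iff_rank (space D) (space D) (space (2 • D)) (hmul1 D)).1
      (koszul_surjective _ _ _ _ (surj_of_dexact (h2 0 (by omega))))
  · intro i hi
    exact (exact_iff_rank (space D) (space D) (space (2 • D)) (space (3 • D)) (hmul1 D)
      (hmul2 D) i).1 (koszul_exact _ _ _ _ _ _ i (h2 (i + 1) (by omega)))

/-- `m A + E - Z` is good for a general effective divisor `Z` of degree `N ≤ deg E`. -/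
theorem forGeneral_main [Algebra.IsAlgebraic (IntermediateField.adjoin ℂ ({x} : Set K)) K]
    {q m : ℕ} (hx : x ≠ 0) (hA : ∀ P : Place K, A P = max 0 (-P.ord x))
    (hk : 0 < degree A) (hg : IsGenus K g)
    (hfin : ∀ D : Divisor K, FiniteDimensional ℂ (space D))
    (hq : (ell (q • A) : ℤ) + g = degree (q • A) + 1) {E : Divisor K} (hE : 0 ≤ E) {p : ℕ}
    (hp : p + 1 ≤ 2 * (m - q)) {N : ℕ} (hN : (N : ℤ) ≤ degree E) :
    ForGeneral N (fun Z => Good g (m • A + E - Z) p) := by
  have C : Curve x g A (q • A) := ⟨inferInstance, hA, hg, hfin, hq⟩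
  obtain ⟨E0, h1, h2, h3⟩ := exists_sub N hE hN
  refine forGeneral_good C N ⟨E0, h1, h3, ?_⟩
  have h4 := good_base hx hA hk hg hfin hq h2 hp
  rwa [← add_sub_assoc] at h4

end PoolNP
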