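import Mathlib

/-!
Multilinear core: a multilinear map `φ` with values in functionals, which satisfies the closedness
relation `φ w (v r) = ∑ l, φ (w with w l replaced by v) (w l r)` and whose values kill `N`,
has values that kill `R2`.
-/

namespace PoolNP

open Finset

variable {F A ι : Type*} [Field F] [CommRing A] [Algebra F A] [Fintype ι]
  [DecidableEq ι]

/-- If all products `w l * z` lie in `N`, then `φ w` kills `z * V`. -/
theorem two_star (V N : Submodule F A)
    (φ : MultilinearMap F (fun _ : ι => A) (A →ₗ[F] F))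
    (hC : ∀ v ∈ V, ∀ w : ι → A, (∀ l, w l ∈ V) → ∀ r ∈ V,
      φ w (v * r) = ∑ l, φ (Function.update w l v) (w l * r))
    (hN : ∀ w : ι → A, (∀ l, w l ∈ V) → ∀ n ∈ N, φ w n = 0)
    (w : ι → A) (hw : ∀ l, w l ∈ V) (z : A) (hz : z ∈ V) (hk : ∀ l, w l * z ∈ N) :
    ∀ v ∈ V, φ w (z * v) = 0 := by
  intro v hv
  rw [mul_comm, hC v hv w hw z hz]
  refine sum_eq_zero fun l _ => hN _ ?_ _ (hk l)
  intro l'
  by_cases h : l' = l
  · subst h; simpa using hv
  · simpa [Function.update_of_ne h] using hw l'

theorem heart [DecidableEq F] (V N R2 : Submodule F A) (Z : F → Submodule F A) (z : F → A) (s : ℕ)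
    (hz : ∀ τ, z τ ∈ V)
    (h1 : ∀ τ, ∀ c ∈ Z τ, z τ * c ∈ N) (h2 : ∀ τ τ', z τ * z τ' ∈ N)
    (h3 : ∀ (T : Finset F) (f : A →ₗ[F] F), (∀ n ∈ N, f n = 0) →
      (∀ τ ∉ T, ∀ c ∈ V, f (z τ * c) = 0) → ∀ r ∈ R2, f r = 0)
    (h4 : ∀ Y : Finset F, Y.Nonempty → Y.card ≤ s + 1 → ∀ c ∈ V, ∃ g : F → A,
      (∀ y ∈ Y, g y ∈ V) ∧ c = ∑ y ∈ Y, g y ∧ ∀ y ∈ Y, ∀ y' ∈ Y, y' ≠ y → g y ∈ Z y')
    (h5 : ∀ v ∈ V, ∀ r ∈ V, v * r ∈ R2)
    (φ : MultilinearMap F (fun _ : ι => A) (A →ₗ[F] F))
    (hC : ∀ v ∈ V, ∀ w : ι → A, (∀ l, w l ∈ V) → ∀ r ∈ V,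
      φ w (v * r) = ∑ l, φ (Function.update w l v) (w l * r))
    (hN : ∀ w : ι → A, (∀ l, w l ∈ V) → ∀ n ∈ N, φ w n = 0)
    (hs : Fintype.card ι ≤ 2 * s + 1) :
    ∀ w : ι → A, (∀ l, w l ∈ V) → ∀ r ∈ R2, φ w r = 0 := by
  have key : ∀ (n : ℕ) (S : Finset ι), Sᶜ.card = n → ∀ (t : ι → F) (w : ι → A),
      Set.InjOn t S → (∀ l ∈ S, w l = z (t l)) → (∀ l, w l ∈ V) → ∀ r ∈ R2, φ w r = 0 := by
    intro n
    induction n using Nat.strong_induction_on with
    | _ n IH =>
    intro S hSn t w hinj hwS hwV
    refine h3 (S.image t) (φ w) (hN w hwV) ?_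
    intro τ hτ c hc
    have hτt : ∀ l ∈ S, τ ≠ t l := by
      intro l hl h
      exact hτ (mem_image.2 ⟨l, hl, h.symm⟩)
    -- choose nodes
    obtain ⟨N', hN'S, hN'card⟩ : ∃ N' ⊆ S, N'.card = min S.card s :=
      Finset.exists_subset_card_eq (min_le_left _ _)
    set Y : Finset F := insert τ (N'.image t) with hY
    have hYc : Y.card ≤ s + 1 := by
      refine (card_insert_le _ _).trans ?_
      have : (N'.image t).card ≤ N'.card := card_image_le
      omega
    have hτY : τ ∈ Y := mem_insert_self _ _
    have hex : ∀ l, ∃ g : F → A, (∀ y ∈ Y, g y ∈ V) ∧ w l = ∑ y ∈ Y, g y ∧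
        ∀ y ∈ Y, ∀ y' ∈ Y, y' ≠ y → g y ∈ Z y' :=
      fun l => h4 Y ⟨τ, hτY⟩ hYc (w l) (hwV l)
    choose g hgV hgsum hgZ using hex
    set G : ι → F → A := fun l y => if l ∈ S then (if y = τ then w l else 0) else g l y with hG
    have hwG : w = fun l => ∑ y ∈ Y, G l y := by
      funext l
      by_cases hl : l ∈ S
      · simp [hG, hl, hτY]
      · simp only [hG, hl, if_false]
        exact hgsum l
    have hexp : φ w = ∑ ρ ∈ Fintype.piFinset (fun _ : ι => Y), φ (fun l => G l (ρ l)) := by
      conv_lhs => rw [hwG]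
      exact φ.map_sum_finset (fun l y => G l y) (fun _ => Y)
    rw [hexp, LinearMap.sum_apply]
    refine sum_eq_zero fun ρ hρ => ?_
    rw [Fintype.mem_piFinset] at hρ
    by_cases hbad : ∃ l ∈ S, ρ l ≠ τ
    · obtain ⟨l, hl, hne⟩ := hbad
      have h0 : (fun l => G l (ρ l)) l = 0 := by simp [hG, hl, hne]
      rw [φ.map_coord_zero l h0]
      rfl
    push Not at hbad
    set w' : ι → A := fun l => G l (ρ l) with hw'
    have hw'S : ∀ l ∈ S, w' l = z (t l) := by
      intro l hl
      have : w' l = w l := by simp [hw', hG, hl, hbad l hl]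
      rw [this, hwS l hl]
    have hw'n : ∀ l ∉ S, w' l = g l (ρ l) := by
      intro l hl
      simp [hw', hG, hl]
    have hw'V : ∀ l, w' l ∈ V := by
      intro l
      by_cases hl : l ∈ S
      · rw [hw'S l hl]; exact hz _
      · rw [hw'n l hl]; exact hgV l _ (hρ l)
    have hw'Z : ∀ l ∉ S, ∀ y' ∈ Y, y' ≠ ρ l → w' l ∈ Z y' := by
      intro l hl y' hy' hne
      rw [hw'n l hl]
      exact hgZ l _ (hρ l) y' hy' hne
    by_cases hcase : ∀ l ∉ S, ρ l ≠ τ
    · refine two_star V N φ hC hN w' hw'V (z τ) (hz τ) ?_ c hc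
      intro l
      by_cases hl : l ∈ S
      · rw [hw'S l hl]; exact h2 _ _
      · rw [mul_comm]
        exact h1 τ _ (hw'Z l hl τ hτY (hcase l hl).symm)
    push Not at hcase
    obtain ⟨l0, hl0S, hl0τ⟩ := hcase
    set J : Finset ι := N'.filter (fun l => ∀ l' ∉ S, ρ l' ≠ t l) with hJ
    have hJN : J ⊆ N' := filter_subset _ _
    have hc1 : (N' \ J).card ≤ Sᶜ.card - 1 := by
      have hi1 : ((N' \ J).image t).card = (N' \ J).card := by
        refine card_image_of_injOn (hinj.mono ?_)
        intro l hl
        exact hN'S (mem_sdiff.1 hl).1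
      have hi2 : (N' \ J).image t ⊆ (Sᶜ.erase l0).image ρ := by
        intro y hy
        obtain ⟨l, hl, rfl⟩ := mem_image.1 hy
        obtain ⟨hlN, hlJ⟩ := mem_sdiff.1 hl
        have : ∃ l' ∉ S, ρ l' = t l := by
          by_contra hcon
          push Not at hcon
          exact hlJ (mem_filter.2 ⟨hlN, hcon⟩)
        obtain ⟨l', hl'S, hl't⟩ := this
        refine mem_image.2 ⟨l', mem_erase.2 ⟨?_, mem_compl.2 hl'S⟩, hl't⟩
        rintro rfl
        exact hτt l (hN'S hlN) (hl0τ.symm.trans hl't)
      calc (N' \ J).card = ((N' \ J).image t).card := hi1.symm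
        _ ≤ ((Sᶜ.erase l0).image ρ).card := card_le_card hi2
        _ ≤ (Sᶜ.erase l0).card := card_image_le
        _ = Sᶜ.card - 1 := card_erase_of_mem (mem_compl.2 hl0S)
    have hSJ : (S \ J).card ≤ s := by
      have hsub : S \ J ⊆ (S \ N') ∪ (N' \ J) := by
        intro l hl
        obtain ⟨hlS, hlJ⟩ := mem_sdiff.1 hl
        by_cases hlN : l ∈ N'
        · exact mem_union_right _ (mem_sdiff.2 ⟨hlN, hlJ⟩)
        · exact mem_union_left _ (mem_sdiff.2 ⟨hlS, hlN⟩)
      have hle := (card_le_card hsub).trans (card_union_le _ _)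
      have hSN : (S \ N').card = S.card - N'.card := card_sdiff_of_subset hN'S
      have hcompl : Sᶜ.card = Fintype.card ι - S.card := card_compl S
      have hScard : S.card ≤ Fintype.card ι := card_le_univ S
      have hSJS : (S \ J).card ≤ S.card := card_le_card sdiff_subset
      have hpos : 0 < Sᶜ.card := card_pos.2 ⟨l0, mem_compl.2 hl0S⟩
      by_cases has : S.card ≤ s
      · omega
      · rw [min_eq_right (by omega)] at hN'card
        omega
    -- the section r
    obtain ⟨r, hrV, hrτ, hrS⟩ : ∃ r ∈ V, c - r ∈ Z τ ∧ ∀ l ∈ S \ J, r ∈ Z (t l) := by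
      set I : Finset F := (S \ J).image t with hI
      have hτI : τ ∉ I := by
        intro h
        obtain ⟨l, hl, hlt⟩ := mem_image.1 h
        exact hτt l (mem_sdiff.1 hl).1 hlt.symm
      have hIc : (insert τ I).card ≤ s + 1 := by
        refine (card_insert_le _ _).trans ?_
        have : I.card ≤ (S \ J).card := card_image_le
        omega
      obtain ⟨g', hg'V, hg's, hg'Z⟩ := h4 (insert τ I) ⟨τ, mem_insert_self _ _⟩ hIc c hc
      refine ⟨g' τ, hg'V τ (mem_insert_self _ _), ?_, ?_⟩
      · rw [hg's, sum_insert hτI, add_sub_cancel_left]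
        refine Submodule.sum_mem _ fun y hy => ?_
        refine hg'Z y (mem_insert_of_mem hy) τ (mem_insert_self _ _) ?_
        rintro rfl
        exact hτI hy
      · intro l hl
        have hlI : t l ∈ I := mem_image_of_mem _ hl
        refine hg'Z τ (mem_insert_self _ _) (t l) (mem_insert_of_mem hlI) ?_
        exact (hτt l (mem_sdiff.1 hl).1).symm
    have hsplit : z τ * c = z τ * (c - r) + z τ * r := by ring
    rw [hsplit, map_add, hN w' hw'V _ (h1 τ _ hrτ), zero_add, hC (z τ) (hz τ) w' hw'V r hrV]
    refine sum_eq_zero fun l _ => ?_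
    have hupV : ∀ l', (Function.update w' l (z τ)) l' ∈ V := by
      intro l'
      by_cases h : l' = l
      · subst h; simpa using hz τ
      · simpa [Function.update_of_ne h] using hw'V l'
    by_cases hlS : l ∈ S
    · by_cases hlJ : l ∈ J
      · -- use two_star at `t l`
        rw [hw'S l hlS]
        refine two_star V N φ hC hN _ hupV (z (t l)) (hz _) ?_ r hrV
        intro l''
        by_cases h : l'' = l
        · subst h
          simpa using h2 τ (t l'')
        · rw [Function.update_of_ne h]
          by_cases hl'' : l'' ∈ S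
          · rw [hw'S l'' hl'']; exact h2 _ _
          · rw [mul_comm]
            refine h1 _ _ (hw'Z l'' hl'' (t l) ?_ ?_)
            · exact mem_insert_of_mem (mem_image_of_mem _ (hJN hlJ))
            · exact ((mem_filter.1 hlJ).2 l'' hl'').symm
      · rw [hw'S l hlS]
        exact hN _ hupV _ (h1 _ _ (hrS l (mem_sdiff.2 ⟨hlS, hlJ⟩)))
    · -- induction hypothesis
      refine IH (insert l S)ᶜ.card ?_ (insert l S) rfl (Function.update t l τ)
        (Function.update w' l (z τ)) ?_ ?_ hupV _ (h5 _ (hw'V l) _ hrV)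
      · rw [← hSn, card_compl, card_compl, card_insert_of_notMem hlS]
        have : S.card < Fintype.card ι := by
          rw [← Finset.card_univ]
          refine card_lt_card (Finset.ssubset_univ_iff.2 ?_)
          rintro rfl
          exact hlS (mem_univ _)
        omega
      · intro a ha b hb hab
        rw [coe_insert] at ha hb
        by_cases h1a : a = l
        · by_cases h1b : b = l
          · rw [h1a, h1b]
          · exfalso
            subst h1a
            rw [Function.update_self, Function.update_of_ne h1b] at hab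
            have hbS : b ∈ S := by
              rcases hb with hb | hb
              · exact absurd hb h1b
              · exact hb
            exact hτt b hbS hab
        · by_cases h1b : b = l
          · exfalso
            subst h1b
            rw [Function.update_self, Function.update_of_ne h1a] at hab
            have haS : a ∈ S := by
              rcases ha with ha | ha
              · exact absurd ha h1a
              · exact ha
            exact hτt a haS hab.symm
          · rw [Function.update_of_ne h1a, Function.update_of_ne h1b] at hab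
            have haS : a ∈ S := by
              rcases ha with ha | ha
              · exact absurd ha h1a
              · exact ha
            have hbS : b ∈ S := by
              rcases hb with hb | hb
              · exact absurd hb h1b
              · exact hb
            exact hinj haS hbS hab
      · intro l' hl'
        by_cases h : l' = l
        · subst h; simp
        · rw [Function.update_of_ne h, Function.update_of_ne h]
          exact hw'S l' (mem_of_mem_insert_of_ne hl' h)
  intro w hw
  exact key _ ∅ rfl (fun _ => 0) w (by simp) (by simp) hw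

end PoolNP
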