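import Pool.Agent.helper43.NP.Equiv

/-!
Inner projection: `(N_{p+1})` for `L` implies `(N_p)` for `L - P`.
-/

namespace PoolNP

open Finset

section Algebra

variable {F A : Type*} [Field F] [CommRing A] [Algebra F A]

theorem dd_add' {n : ℕ} (φ ψ : A [⋀^Fin n]→ₗ[F] (A →ₗ[F] F)) (w : Fin (n + 1) → A) (r : A) :
    dd (φ + ψ) w r = dd φ w r + dd ψ w r := by
  simp only [dd_apply, AlternatingMap.add_apply, LinearMap.add_apply, mul_add,
    Finset.sum_add_distrib]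

/-- The data of a point `P` removed from `L`: `V' = H^0(L)`, `V = H^0(L - P)`,
`S20 = H^0(2 L - 2 P)`, `S21 = H^0(2 L - P)`, `S22 = H^0(2 L)`, `S31 = H^0(3 L - 2 P)`. -/
structure InnerData (V V' S20 S21 S22 S31 : Submodule F A) (σ : A) (s μ : A →ₗ[F] F) :
    Prop where
  VV' : V ≤ V'
  hσ : σ ∈ V'
  decV : ∀ v ∈ V', ∃ u ∈ V, ∃ c : F, v = u + c • σ
  sV : ∀ v ∈ V, s v = 0
  sσ : s σ = 1
  hle : S20 ≤ S21
  hle2 : S21 ≤ S22
  prod : ∀ v ∈ V, ∀ r ∈ V', v * r ∈ S21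
  μ0 : ∀ r ∈ S21, μ r = 0
  μσ : μ (σ * σ) = 1
  hσr : ∀ r ∈ S20, σ * r ∈ S31

namespace InnerData

variable {V V' S20 S21 S22 S31 : Submodule F A} {σ : A} {s μ : A →ₗ[F] F}

/-- the extension of a cocycle. -/
noncomputable def ext (s μ : A →ₗ[F] F) (σ : A) {n : ℕ} (φ : A [⋀^Fin n]→ₗ[F] (A →ₗ[F] F)) :
    A [⋀^Fin (n + 1)]→ₗ[F] (A →ₗ[F] F) :=
  sw s φ + tens (evAt (dd φ) σ) μ

theorem ext_apply {n : ℕ} (φ : A [⋀^Fin n]→ₗ[F] (A →ₗ[F] F)) (w : Fin (n + 1) → A) (r : A) :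
    ext s μ σ φ w r = sw s φ w r + dd φ w σ * μ r := rfl

theorem ext_V (h : InnerData V V' S20 S21 S22 S31 σ s μ) {n : ℕ}
    (φ : A [⋀^Fin n]→ₗ[F] (A →ₗ[F] F)) {w : Fin (n + 1) → A} (hw : ∀ l, w l ∈ V) (r : A) :
    ext s μ σ φ w r = dd φ w σ * μ r := by
  rw [ext_apply, sw_zero h.sV φ w hw, zero_add]

theorem ext_σ (h : InnerData V V' S20 S21 S22 S31 σ s μ) {n : ℕ}
    (φ : A [⋀^Fin n]→ₗ[F] (A →ₗ[F] F)) {w : Fin n → A} (hw : ∀ l, w l ∈ V) {r : A}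
    (hr : r ∈ S21) :
    ext s μ σ φ (Matrix.vecCons σ w) r = φ w r := by
  rw [ext_apply, sw_cons h.sV h.sσ φ w hw, h.μ0 r hr, mul_zero, add_zero]

theorem ext_cocycle (h : InnerData V V' S20 S21 S22 S31 σ s μ) {n : ℕ}
    (φ : A [⋀^Fin n]→ₗ[F] (A →ₗ[F] F))
    (hφ : ∀ w : Fin (n + 1) → A, (∀ l, w l ∈ V) → ∀ r ∈ V, dd φ w r = 0) :
    ∀ w : Fin (n + 2) → A, (∀ l, w l ∈ V') → ∀ r ∈ V', dd (ext s μ σ φ) w r = 0 := by
  intro w hw r hr
  have hz := alt_ext h.decV (evAt (dd (ext s μ σ φ)) r) ?_ ?_ w hw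
  · exact hz
  · intro w hw
    rw [evAt_apply, dd_apply]
    refine sum_eq_zero fun l _ => ?_
    rw [h.ext_V φ (removeNth_mem hw l), h.μ0 _ (h.prod _ (hw l) r hr)]
    ring
  · intro w hw
    rw [evAt_apply, dd_cons, h.ext_V φ hw]
    have e : ∑ l, ext s μ σ φ (Function.update w l σ) (w l * r) = dd φ w r := by
      rw [dd_apply]
      refine sum_congr rfl fun l _ => ?_
      rw [map_update_eq, h.ext_σ φ (removeNth_mem hw l) (h.prod _ (hw l) r hr)]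
    rw [e]
    obtain ⟨u, hu, c, rfl⟩ := h.decV r hr
    have hσu : μ (σ * u) = 0 := by
      rw [mul_comm]
      exact h.μ0 _ (h.prod u hu σ h.hσ)
    rw [mul_add, mul_smul_comm, map_add, map_smul, hσu, h.μσ, map_add, map_smul,
      hφ w hw u hu]
    simp only [smul_eq_mul]
    ring

theorem inner (h : InnerData V V' S20 S21 S22 S31 σ s μ) (n : ℕ)
    (hL : DExact V' V' S22 (n + 1)) (hD : DExact V S21 S31 n) : DExact V V S20 n := by
  cases n with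
  | zero =>
    intro φ hφ w r hr
    obtain ⟨Ψ, hΨ⟩ := hL (ext s μ σ φ) (h.ext_cocycle φ hφ)
    -- `Ψ` vanishes on `S31`
    have hΨ0 : ∀ w, ∀ r ∈ S31, Ψ w r = 0 := by
      refine hD Ψ ?_
      intro w hw r hr
      rw [← hΨ w (fun l => h.VV' (hw l)) r (h.hle2 hr), h.ext_V φ hw, h.μ0 r hr, mul_zero]
    have h1 := hΨ (Matrix.vecCons σ w) (by
      intro l
      refine Fin.cases ?_ (fun l => l.elim0) l
      simpa using h.hσ) r (h.hle2 (h.hle hr))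
    rw [h.ext_σ φ (fun l => l.elim0) (h.hle hr), dd_cons, hΨ0 w _ (h.hσr r hr)] at h1
    simpa using h1
  | succ n =>
    intro φ hφ
    obtain ⟨Ψ, hΨ⟩ := hL (ext s μ σ φ) (h.ext_cocycle φ hφ)
    obtain ⟨χ, hχ⟩ := hD Ψ (by
      intro w hw r hr
      rw [← hΨ w (fun l => h.VV' (hw l)) r (h.hle2 hr), h.ext_V φ hw, h.μ0 r hr, mul_zero])
    refine ⟨(mulT σ).compAlternatingMap χ - Ψ.curryLeft σ, fun w hw r hr => ?_⟩
    have h1 := hΨ (Matrix.vecCons σ w) (cons_mem h.hσ (fun l => h.VV' (hw l))) r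
      (h.hle2 (h.hle hr))
    rw [h.ext_σ φ hw (h.hle hr), dd_cons, hχ w hw _ (h.hσr r hr)] at h1
    rw [h1, dd_sub, AlternatingMap.sub_apply, LinearMap.sub_apply, dd_apply, dd_apply, dd_apply]
    congr 1
    · refine sum_congr rfl fun l _ => ?_
      rw [LinearMap.compAlternatingMap_apply, mulT_apply, mul_left_comm]
    · refine sum_congr rfl fun l _ => ?_
      rw [map_update_eq, AlternatingMap.curryLeft_apply_apply]

end InnerData

end Algebra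

end PoolNP
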