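import Pool.Agent.helper43.NP.Bundle

/-!
Property `(N_p)` for `L = m A + E`.
-/

namespace PoolNP

open Finset

variable {K : Type*} [Field K] [Algebra ℂ K]

theorem space_ring (D : Divisor K) :
    ∀ j : ℕ, ∀ v ∈ space (1 • D), ∀ r ∈ space (j • D), v * r ∈ space ((j + 1) • D) := by
  intro j v hv r hr
  have := space_mul hv hr
  rwa [← add_nsmul, add_comm 1 j] at this

theorem sub_single_apply_of_ne {D : Divisor K} {P Q : Place K} (h : P ≠ Q) :
    (D - (Finsupp.single P 1 : Divisor K)) Q = D Q := by
  rw [Finsupp.sub_apply, Finsupp.single_eq_of_ne (Ne.symm h), sub_zero]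

/-- `D ≥ D0` is preserved when a point is removed from `D` if `D P ≥ D0 P + 1`. -/
theorem le_sub_single {D0 D : Divisor K} {P : Place K} (h : D0 ≤ D) (hP : D0 P + 1 ≤ D P) :
    D0 ≤ D - Finsupp.single P 1 := by
  intro Q
  by_cases hQ : P = Q
  · subst hQ
    rw [Finsupp.sub_apply, Finsupp.single_eq_same]
    omega
  · rw [sub_single_apply_of_ne hQ]
    exact h Q

/-- There is a section of exact pole order `D P` at `P`. -/
theorem exists_exact {x : K} [Algebra.IsAlgebraic (IntermediateField.adjoin ℂ ({x} : Set K)) K]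
    {g : ℕ} (hg : IsGenus K g) (hfin : ∀ D : Divisor K, FiniteDimensional ℂ (space D))
    {D0 : Divisor K} (h0 : (ell D0 : ℤ) + g = degree D0 + 1) {D : Divisor K}
    (hD : 0 ≤ D) (hDD : D0 ≤ D) (P : Place K) (hP : 0 < D P → D0 P + 1 ≤ D P) :
    ∃ v ∈ space D, v ∉ P.O (D P - 1) := by
  have hDP := hD P
  simp only [Finsupp.coe_zero, Pi.zero_apply] at hDP
  by_cases hDP0 : D P = 0
  · refine ⟨1, one_mem_space hD, ?_⟩
    rw [Place.mem_O_of_ne one_ne_zero, P.ord_one, hDP0]
    omega
  · have hle := le_sub_single hDD (hP (by omega))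
    have h1 := ell_eq (x := x) hg hfin h0 hle
    have h2 := ell_eq (x := x) hg hfin h0 hDD
    have h3 : degree D = degree (D - Finsupp.single P 1) + 1 := by
      have := degree_add (D - Finsupp.single P 1) (Finsupp.single P 1)
      rwa [sub_add_cancel, degree_single] at this
    by_contra hcon
    push Not at hcon
    have h4 : space D ≤ space (D - Finsupp.single P 1) := by
      intro f hf
      rw [mem_space]
      intro Q
      by_cases hQ : P = Q
      · subst hQ
        rw [Finsupp.sub_apply, Finsupp.single_eq_same]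
        exact hcon f hf
      · rw [sub_single_apply_of_ne hQ]
        exact mem_space.1 hf Q
    have := hfin (D - Finsupp.single P 1)
    have h5 : ell D ≤ ell (D - Finsupp.single P 1) := Submodule.finrank_mono h4
    omega

/-- There is a section of exact pole order `D P` at all points `P` of the support of `D`. -/
theorem exists_generic {D : Divisor K}
    (h : ∀ P : Place K, 0 < D P → ∃ v ∈ space D, v ∉ P.O (D P - 1)) :
    ∃ G ∈ space D, ∀ P : Place K, 0 < D P → G ∉ P.O (D P - 1) := by
  classical
  let p : Place K → Submodule ℂ (space D) :=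
    fun P => (P.O (D P - 1)).comap (space D).subtype
  let s : Finset (Submodule ℂ (space D)) :=
    (D.support.filter (fun P => 0 < D P)).image p
  have hs : (⊤ : Submodule ℂ (space D)) ∉ s := by
    intro htop
    obtain ⟨P, hP, hPt⟩ := mem_image.1 htop
    obtain ⟨v, hv, hvP⟩ := h P (mem_filter.1 hP).2
    have h1 : (⟨v, hv⟩ : space D) ∈ p P := by rw [hPt]; exact Submodule.mem_top
    exact hvP h1
  have hne := Subspace.biUnion_ne_univ_of_top_notMem (k := ℂ) (E := space D) hs
  rw [Set.ne_univ_iff_exists_notMem] at hne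
  obtain ⟨G, hG⟩ := hne
  refine ⟨G, G.2, fun P hP hGP => hG ?_⟩
  have hPs : P ∈ D.support.filter (fun P => 0 < D P) := by
    rw [mem_filter, Finsupp.mem_support_iff]
    exact ⟨hP.ne', hP⟩
  exact Set.mem_biUnion (x := p P) (mem_coe.2 (mem_image_of_mem p hPs)) hGP

/-- division by a generic section. -/
theorem generic_div {D : Divisor K} (hD : 0 ≤ D) {G : K}
    (hG0 : G ≠ 0) (hG : ∀ P : Place K, 0 < D P → G ∉ P.O (D P - 1))
    {a b : ℕ} {r : K} (hr : r ∈ space (b • D)) (hGr : G * r ∈ space ((a + 1) • D)) :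
    r ∈ space (a • D) := by
  by_cases h0 : r = 0
  · rw [h0]; exact Submodule.zero_mem _
  rw [mem_space] at hr hGr ⊢
  intro P
  have h1 := hr P
  have h2 := hGr P
  have hDP := hD P
  simp only [Finsupp.coe_zero, Pi.zero_apply] at hDP
  rw [Place.mem_O_of_ne h0] at h1 ⊢
  rw [Place.mem_O_of_ne (mul_ne_zero hG0 h0), P.ord_mul _ _ hG0 h0] at h2
  simp only [Finsupp.smul_apply, nsmul_eq_mul] at h1 h2 ⊢
  by_cases h3 : D P = 0
  · rw [h3] at h1 ⊢
    simpa using h1
  · have h4 := hG P (by omega)
    rw [Place.mem_O_of_ne hG0] at h4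
    have h5 : ((a + 1 : ℕ) : ℤ) * D P = a * D P + D P := by push_cast; ring
    rw [h5] at h2
    linarith

theorem surj_of_dexact {F A : Type*} [Field F] [CommRing A] [Algebra F A]
    {V M N : Submodule F A} (h : DExact V M N 0) (f : A →ₗ[F] F)
    (hf : ∀ v ∈ V, ∀ r ∈ M, f (v * r) = 0) : ∀ r ∈ N, f r = 0 := by
  intro r hr
  refine h (AlternatingMap.constOfIsEmpty F A (Fin 0) f) ?_ (fun l => Fin.elim0 l) r hr
  intro w hw r hr
  rw [dd_apply]
  simp only [Nat.reduceAdd, Finset.univ_unique, Fin.default_eq_zero, Fin.isValue,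
    Fin.val_eq_zero, pow_zero, one_mul, sum_singleton]
  exact hf _ (hw 0) r hr

section Main

variable {x : K} [Algebra.IsAlgebraic (IntermediateField.adjoin ℂ ({x} : Set K)) K]
  {g : ℕ} {A : Divisor K} {q m : ℕ}

omit [Algebra.IsAlgebraic (IntermediateField.adjoin ℂ ({x} : Set K)) K] in
theorem A_nonneg' (hA : ∀ P : Place K, A P = max 0 (-P.ord x)) : 0 ≤ A := by
  intro P
  simp only [Finsupp.coe_zero, Pi.zero_apply, hA P]
  omega

theorem dexact_one (hx : x ≠ 0) (hA : ∀ P : Place K, A P = max 0 (-P.ord x))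
    (hg : IsGenus K g) (hfin : ∀ D : Divisor K, FiniteDimensional ℂ (space D))
    (hq : (ell (q • A) : ℤ) + g = degree (q • A) + 1) {s : ℕ} (hm : m = q + 1 + s) :
    ∀ n ≤ 2 * s + 1, DExact (F := ℂ) (space (m • A)) (space (m • A)) (space (2 • (m • A))) n := by
  intro n hn
  have hs := secData_pencil hx hA hg hfin hq
  have e1 : space ((1 * m) • A) = space (m • A) := by rw [one_mul]
  have e2 : space (((1 + 1) * m) • A) = space (2 • (m • A)) := by rw [mul_nsmul' , one_add_one_eq_two]
  cases n with
  | zero =>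
    intro φ hφ w r hr
    refine main_zero hs (m := m) (j := 1) (by omega) (φ w) ?_ r ?_
    · intro v hv r hr
      have h1 := hφ (fun _ => v) (fun _ => hv) r (by
        have : r ∈ space ((1 * m) • A) := hr
        rwa [e1] at this)
      rw [dd_apply] at h1
      simp only [Nat.reduceAdd, Finset.univ_unique, Fin.default_eq_zero, Fin.isValue,
        Fin.val_eq_zero, pow_zero, one_mul, sum_singleton] at h1
      have e : Fin.removeNth (0 : Fin 1) (fun _ => v) = w := by
        funext l; exact l.elim0
      rw [e] at h1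
      exact h1
    · change r ∈ space (((1 + 1) * m) • A)
      rw [e2]; exact hr
  | succ n =>
    intro φ hφ
    obtain ⟨ψ, hψ⟩ := main_dual hs (m := m) (s := s) (n := n) (j := 1) hm hn le_rfl φ (by
      intro w hw r hr
      refine hφ w hw r ?_
      have : r ∈ space ((1 * m) • A) := hr
      rwa [e1] at this)
    refine ⟨ψ, fun w hw r hr => hψ w hw r ?_⟩
    change r ∈ space (((1 + 1) * m) • A)
    rw [e2]; exact hr

/-- Exactness in degree `j = 2` for `L = m A + E`. -/
theorem dexact_two (hx : x ≠ 0) (hA : ∀ P : Place K, A P = max 0 (-P.ord x))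
    (hg : IsGenus K g) (hfin : ∀ D : Divisor K, FiniteDimensional ℂ (space D))
    (hq : (ell (q • A) : ℤ) + g = degree (q • A) + 1) {s : ℕ} (hm : m = q + 1 + s) :
    ∀ E : Divisor K, 0 ≤ E → ∀ n ≤ 2 * s + 1,
      DExact (F := ℂ) (space (m • A + E)) (space (m • A + E)) (space (2 • (m • A + E))) n := by
  refine eff_induction ?_ ?_
  · intro n hn
    rw [add_zero]
    exact dexact_one hx hA hg hfin hq hm n hn
  · intro E P hE ih
    rw [← add_assoc]
    set D := m • A + E with hD
    have hA0 : 0 ≤ A := A_nonneg' hA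
    have hmA : q • A ≤ m • A := nsmul_le_nsmul_left hA0 (by omega)
    have hqD : q • A ≤ D := hmA.trans (le_add_of_nonneg_right hE)
    have hD0 : 0 ≤ D := add_nonneg (nsmul_nonneg hA0 m) hE
    have hv : ∃ v ∈ space D, v ∉ P.O (D P - 1) := by
      refine exists_exact (x := x) hg hfin hq hD0 hqD P ?_
      intro hDP
      have h1 := hA0 P
      have h2 := hE P
      simp only [Finsupp.coe_zero, Pi.zero_apply] at h1 h2
      rw [hD] at hDP ⊢
      simp only [Finsupp.add_apply, Finsupp.smul_apply, nsmul_eq_mul] at hDP ⊢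
      rw [hm] at hDP ⊢
      push_cast at hDP ⊢
      by_cases h3 : A P = 0
      · rw [h3] at hDP ⊢
        simp only [mul_zero, zero_add] at hDP ⊢
        omega
      · have h4 : 1 ≤ A P := by omega
        have h5 : 0 ≤ (s : ℤ) * A P := mul_nonneg (by positivity) h1
        nlinarith
    have hell := ell_eq (x := x) hg hfin hq hqD
    have hell' := ell_eq (x := x) hg hfin hq
      (hqD.trans (le_add_of_nonneg_right (single_nonneg P)))
    obtain ⟨σ, v0, t, ev, μ1, μ2, μ3, hdata⟩ := pointData (x := x) hell hell' hfin hv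
    exact hdata.add (2 * s + 1) ih

/-- Property `(N_p)` for `L = m A + E`. -/
theorem propertyN_main (hx : x ≠ 0) (hA : ∀ P : Place K, A P = max 0 (-P.ord x))
    (hk : 0 < degree A)
    (hg : IsGenus K g)
    (hq : (ell (q • A) : ℤ) + g = degree (q • A) + 1) {E : Divisor K} (hE : 0 ≤ E) {p : ℕ}
    (hp : p + 1 ≤ 2 * (m - q)) :
    PropertyN (F := ℂ) (fun j => space (j • (m • A + E))) (space_ring (m • A + E)) p := by
  obtain ⟨P0⟩ := exists_place_of_degree hk
  have hfin := space_finite hg P0
  obtain ⟨s, hm⟩ : ∃ s, m = q + 1 + s := ⟨m - q - 1, by omega⟩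
  have hps : p ≤ 2 * s + 1 := by omega
  have h2 := dexact_two hx hA hg hfin hq hm E hE
  set D := m • A + E with hD
  have hA0 : 0 ≤ A := A_nonneg' hA
  have hmA : q • A ≤ m • A := nsmul_le_nsmul_left hA0 (by omega)
  have hqD : q • A ≤ D := hmA.trans (le_add_of_nonneg_right hE)
  have hD0 : 0 ≤ D := add_nonneg (nsmul_nonneg hA0 m) hE
  have hP : ∀ P : Place K, 0 < D P → (q • A) P + 1 ≤ D P := by
    intro P hDP
    have h1 := hA0 P
    have h2 := hE P
    simp only [Finsupp.coe_zero, Pi.zero_apply] at h1 h2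
    rw [hD] at hDP ⊢
    simp only [Finsupp.add_apply, Finsupp.smul_apply, nsmul_eq_mul] at hDP ⊢
    rw [hm] at hDP ⊢
    push_cast at hDP ⊢
    by_cases h3 : A P = 0
    · rw [h3] at hDP ⊢
      simp only [mul_zero, zero_add] at hDP ⊢
      omega
    · have h4 : 1 ≤ A P := by omega
      have h5 : 0 ≤ (s : ℤ) * A P := mul_nonneg (by positivity) h1
      nlinarith
  obtain ⟨G, hGD, hG⟩ := exists_generic (D := D)
    (fun P hDP => exists_exact (x := x) hg hfin hq hD0 hqD P (hP P))
  have hdeg : 0 < degree D := by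
    rw [hD, degree_add, degree_nsmul]
    have h3 := degree_nonneg hE
    have h4 : (0 : ℤ) < m := by omega
    have := mul_pos h4 hk
    linarith
  obtain ⟨P1, hP1⟩ : ∃ P : Place K, 0 < D P := by
    by_contra hcon
    push Not at hcon
    have : degree D ≤ 0 := Finset.sum_nonpos fun P _ => hcon P
    omega
  have hG0 : G ≠ 0 := by
    rintro rfl
    exact hG P1 hP1 (Submodule.zero_mem _)
  have hmono : ∀ a b : ℕ, a ≤ b → space (a • D) ≤ space (b • D) :=
    fun a b hab => space_mono (nsmul_le_nsmul_left hD0 hab)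
  have hGm : ∀ a : ℕ, ∀ r ∈ space (a • D), G * r ∈ space ((a + 1) • D) := by
    intro a r hr
    rw [succ_nsmul, mul_comm]
    exact space_mul hr hGD
  have hqj : ∀ j : ℕ, 1 ≤ j → q • A ≤ j • D := by
    intro j hj
    refine hqD.trans ?_
    calc D = 1 • D := (one_nsmul D).symm
      _ ≤ j • D := nsmul_le_nsmul_left hD0 hj
  have hgen : ∀ j : ℕ, 2 ≤ j → ∀ c ∈ space ((j + 1) • D),
      ∃ a ∈ space (j • D), ∃ b ∈ space (j • D), c = a + G * b := by
    intro j hj
    obtain ⟨i, rfl⟩ : ∃ i, j = i + 1 := ⟨j - 1, by omega⟩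
    refine gen_of_dim (space (i • D)) (space ((i + 1) • D)) (space ((i + 1 + 1) • D)) G hG0
      (hfin _) (hmono _ _ (by omega)) (hmono _ _ (by omega)) (hGm _) (hGm _) ?_ ?_
    · intro r hr hGr
      exact generic_div hD0 hG0 hG hr hGr
    · have e1 := ell_eq (x := x) hg hfin hq (hqj i (by omega))
      have e2 := ell_eq (x := x) hg hfin hq (hqj (i + 1) (by omega))
      have e3 := ell_eq (x := x) hg hfin hq (hqj (i + 1 + 1) (by omega))
      rw [degree_nsmul] at e1 e2 e3
      have h4 : ((ell ((i + 1 + 1) • D) + ell (i • D) : ℕ) : ℤ)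
          = ((2 * ell ((i + 1) • D) : ℕ) : ℤ) := by
        push_cast at e1 e2 e3 ⊢
        linarith
      exact_mod_cast h4
  have e1 : space (1 • D) = space D := by rw [one_nsmul]
  -- exactness for all degrees
  have hall : ∀ (j n : ℕ), 1 ≤ j → n ≤ 2 * s + 1 →
      DExact (F := ℂ) (space (1 • D)) (space (j • D)) (space ((j + 1) • D)) n := by
    intro j n hj hn
    rcases hj.eq_or_lt with rfl | hj
    · have := h2 n hn
      rw [e1]
      exact this
    · rw [e1]
      cases n with
      | zero =>
        intro φ hφ w r hr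
        obtain ⟨a, ha, b, hb, rfl⟩ := hgen j hj r hr
        have key : ∀ v ∈ space D, ∀ r ∈ space (j • D), φ w (v * r) = 0 := by
          intro v hv r hr
          have h1 := hφ (fun _ => v) (fun _ => hv) r hr
          rw [dd_apply] at h1
          simp only [Nat.reduceAdd, Finset.univ_unique, Fin.default_eq_zero, Fin.isValue,
            Fin.val_eq_zero, pow_zero, one_mul, sum_singleton] at h1
          have e : Fin.removeNth (0 : Fin 1) (fun _ => v) = w := by
            funext l; exact l.elim0
          rw [e] at h1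
          exact h1
        have k1 := key 1 (one_mem_space hD0) a ha
        rw [one_mul] at k1
        rw [map_add, k1, key G hGD b hb, add_zero]
      | succ n =>
        intro φ hφ
        refine reduce (space D) (space (j • D)) (space ((j + 1) • D)) G (one_mem_space hD0) hGD
          ?_ ?_ ?_ φ hφ
        · intro v hv r hr
          rw [succ_nsmul, mul_comm]
          exact space_mul hr hv
        · intro r hr hGr
          exact generic_div hD0 hG0 hG hr hGr
        · intro φ' _ hk0 hk1 w hw r hr
          obtain ⟨a, ha, b, hb, rfl⟩ := hgen j hj r hr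
          rw [map_add, hk0 w hw a ha, hk1 w hw b hb, add_zero]
  constructor
  · intro j hj
    exact koszul_surjective _ _ _ _ (surj_of_dexact (hall j 0 hj (by omega)))
  · intro i j hi hj
    exact koszul_exact _ _ _ _ _ _ i (hall j (i + 1) hj (by omega))

end Main

end PoolNP
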