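import Pool.Agent.helper43.NP.Semi
import Pool.Agent.helper43.NP.Main

/-!
Openness of Property `(N_p)` in the family `D - P`.
-/

open scoped TensorProduct

namespace PoolNP

open Finset

variable {K : Type*} [Field K] [Algebra ℂ K] {x : K} {g : ℕ} {A D0 : Divisor K}

theorem degree_sub_single (D : Divisor K) (P : Place K) :
    degree (D - Finsupp.single P 1) = degree D - 1 := by
  have := degree_add (D - Finsupp.single P 1) (Finsupp.single P 1)
  rw [sub_add_cancel, degree_single] at this
  omega

theorem mem_space_sub {D : Divisor K} {P : Place K} {f : K} (hf : f ∈ space D)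
    (hP : f ∈ P.O (D P - 1)) : f ∈ space (D - Finsupp.single P 1) := by
  refine mem_space_of_lc (P := P) (by rwa [sub_add_cancel]) ?_
  rwa [Finsupp.sub_apply, Finsupp.single_eq_same]

theorem mem_O_of_sub {D : Divisor K} {P : Place K} {f : K}
    (hf : f ∈ space (D - Finsupp.single P 1)) : f ∈ P.O (D P - 1) := by
  have := mem_space.1 hf P
  rwa [Finsupp.sub_apply, Finsupp.single_eq_same] at this

/-- Base point freeness is open in the family `D - P`. -/
theorem pencil_open (C : Curve x g A D0) {ev : Place K → K →ₗ[ℂ] ℂ}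
    (hev : ∀ P, IsEval P (ev P)) {D : Divisor K} {h : K} (hh : h ∈ space D) {P0 : Place K}
    (hP0 : P0 ∈ goodSet D h) {f G : K} (hp : IsPencil (D - Finsupp.single P0 1) f G) :
    {P | P ∈ goodSet D h ∧ ¬ ∃ f G, IsPencil (D - Finsupp.single P 1) f G}.Finite := by
  classical
  set L0 := D - Finsupp.single P0 1 with hL0
  have hle : space L0 ≤ space D := space_mono (sub_le_self _ (single_nonneg P0))
  set N : ℕ := (degree D0 + g).natAbs + 2 * (degree L0).natAbs + 2 with hN
  set B : Divisor K := N • Finsupp.single P0 1 with hB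
  have hdB : degree B = N := by rw [hB, degree_nsmul, degree_single, mul_one]
  have e0 : degree D0 + g ≤ degree B := by rw [hdB]; omega
  have e1 : degree D0 + g ≤ degree (B + L0) := by rw [degree_add, hdB]; omega
  have e2 : degree D0 + g + 1 ≤ degree (B + L0 + L0) := by
    rw [degree_add, degree_add, hdB]; omega
  have r0 := C.riemann e0
  have r1 := C.riemann e1
  have r2 := C.riemann (D := B + L0 + L0) (by omega)
  have hgen := hp.gen C.hfin r0 r1 r2
  have hfinS := C.hfin (B + L0 + L0)
  let b := Module.finBasis ℂ (space (B + L0 + L0))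
  choose a ha c hc hac using fun j => hgen (b j) (b j).2
  set t : Fin (Module.finrank ℂ (space (B + L0 + L0))) → Place K → K :=
    fun j P => LinearMap.mulLeft ℂ (a j) (del ev h P f)
      + LinearMap.mulLeft ℂ (c j) (del ev h P G) with ht
  have htreg : ∀ j, RegV ev (goodSet D h) (t j) := fun j =>
    (RegV.app hev hh (RegV.const hev (LinearMap.mulLeft ℂ (a j))) (hle hp.memf)).add
      (RegV.app hev hh (RegV.const hev (LinearMap.mulLeft ℂ (c j))) (hle hp.memG))
  have ht0 : (fun j => t j P0) = fun j => ((b j : space (B + L0 + L0)) : K) := by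
    funext j
    simp only [ht, LinearMap.mulLeft_apply]
    rw [del_eq hev hP0 hp.memf, del_eq hev hP0 hp.memG, hac j]
    ring
  have hli0 : LinearIndependent ℂ (fun j => t j P0) := by
    rw [ht0]
    exact b.linearIndependent.map' (space (B + L0 + L0)).subtype (Submodule.ker_subtype _)
  have hT := li_open C hev htreg hP0 hli0
  have hone : ∀ y ∈ space L0, y ≠ 0 → {P | P ∈ goodSet D h ∧ del ev h P y = 0}.Finite := by
    intro y hy hy0
    have h1 : ∀ _ : Unit, RegV ev (goodSet D h) (fun P => LinearMap.id (R := ℂ) (del ev h P y)) :=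
      fun _ => RegV.app hev hh (RegV.const hev (LinearMap.id (R := ℂ) (M := K))) (hle hy)
    have h2 := li_open C hev h1 hP0 (by
      refine linearIndependent_unique_iff.2 ?_
      simp only [LinearMap.id_apply]
      rw [del_eq hev hP0 hy]
      exact hy0)
    refine h2.subset ?_
    rintro P ⟨hPU, hP⟩
    refine ⟨hPU, fun hl => ?_⟩
    have := hl.ne_zero ()
    exact this hP
  refine (hT.union ((hone f hp.memf hp.f0).union (hone G hp.memG hp.G0))).subset ?_
  rintro P ⟨hPU, hP⟩
  by_contra hcon
  simp only [Set.mem_union, Set.mem_setOf_eq, not_or, not_and, not_not] at hcon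
  obtain ⟨c1, c2, c3⟩ := hcon
  apply hP
  have mf := del_mem hev hh hPU (hle hp.memf)
  have mG := del_mem hev hh hPU (hle hp.memG)
  refine ⟨del ev h P f, del ev h P G, c2 hPU, c3 hPU, mf, mG, ?_⟩
  intro Q
  by_contra hQ
  rw [not_or, not_not, not_not] at hQ
  have mf' := mem_space_sub mf hQ.1
  have mG' := mem_space_sub mG hQ.2
  set LPQ := D - Finsupp.single P 1 - Finsupp.single Q 1 with hLPQ
  have hdeg : degree (B + L0 + LPQ) = degree (B + L0 + L0) - 1 := by
    rw [degree_add, degree_add (B + L0), hLPQ, degree_sub_single, degree_sub_single, hL0,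
      degree_sub_single]
    ring
  have r3 := C.riemann (D := B + L0 + LPQ) (by omega)
  have hmem : ∀ j, t j P ∈ space (B + L0 + LPQ) := by
    intro j
    simp only [ht, LinearMap.mulLeft_apply]
    exact Submodule.add_mem _ (space_mul (ha j) mf') (space_mul (hc j) mG')
  have hliP : LinearIndependent ℂ (fun j => (⟨t j P, hmem j⟩ : space (B + L0 + LPQ))) :=
    LinearIndependent.of_comp (space (B + L0 + LPQ)).subtype (c1 hPU)
  have := C.hfin (B + L0 + LPQ)
  have h6 := hliP.fintype_card_le_finrank
  rw [Fintype.card_fin] at h6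
  have h7 : ell (B + L0 + L0) ≤ ell (B + L0 + LPQ) := h6
  omega

/-- `h^1(j L) = 0` for `j ≥ 1`. -/
theorem IsPencil.rr_nsmul (C : Curve x g A D0) {L : Divisor K} {f G : K} (hp : IsPencil L f G)
    (rr : (ell L : ℤ) + g = degree L + 1) :
    ∀ j : ℕ, 1 ≤ j → (ell (j • L) : ℤ) + g = degree (j • L) + 1 := by
  intro j hj
  obtain ⟨i, rfl⟩ : ∃ i, j = i + 1 := ⟨j - 1, by omega⟩
  obtain ⟨B, hB⟩ := C.exists_div hp.f0
  have hBi : ∀ P : Place K, (i • B) P = P.ord (f ^ i) := by
    intro P
    rw [Finsupp.smul_apply, hB P, P.ord_pow hp.f0, nsmul_eq_mul]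
  have hLB : 0 ≤ L + B := by
    intro P
    have h1 := mem_space.1 hp.memf P
    rw [Place.mem_O_of_ne hp.f0] at h1
    rw [Finsupp.add_apply, hB P]
    simp only [Finsupp.coe_zero, Pi.zero_apply]
    omega
  have hle : L ≤ (i + 1) • L + i • B := by
    have e : (i + 1) • L + i • B = L + i • (L + B) := by
      rw [succ_nsmul, nsmul_add]
      abel
    rw [e]
    exact le_add_of_nonneg_right (nsmul_nonneg hLB i)
  have := C.alg
  have h1 := ell_eq (x := x) C.hg C.hfin rr hle
  rw [C.ell_add_div (pow_ne_zero i hp.f0) hBi, degree_add,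
    C.degree_div (pow_ne_zero i hp.f0) hBi, add_zero] at h1
  exact h1

/-- `L` is good: `h^1(L) = 0`, there is a base point free pencil in `|L|` and
`K_{i,2}(L) = 0` for `i ≤ p` (in numerical form). -/
structure Good (g : ℕ) (L : Divisor K) (p : ℕ) : Prop where
  rr : (ell L : ℤ) + g = degree L + 1
  pencil : ∃ f G, IsPencil L f G
  surj : Module.finrank ℂ (Submodule.span ℂ
    (kSet ℂ 0 (space L : Set K) (space L : Set K))) = ell (2 • L)
  exact : ∀ i, i + 1 ≤ p →
    Module.finrank ℂ (Submodule.span ℂ
      (kSet ℂ (i + 1) (space L : Set K) (space L : Set K)))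
    + Module.finrank ℂ (Submodule.span ℂ
      (kSet ℂ i (space L : Set K) (space (2 • L) : Set K)))
    = (ell L).choose (i + 1) * ell (2 • L)

theorem hmul1 (L : Divisor K) : ∀ v ∈ space L, ∀ r ∈ space L, v * r ∈ space (2 • L) := by
  intro v hv r hr
  rw [two_nsmul]
  exact space_mul hv hr

theorem hmul2 (L : Divisor K) : ∀ v ∈ space L, ∀ r ∈ space (2 • L), v * r ∈ space (3 • L) := by
  intro v hv r hr
  have e : 3 • L = L + 2 • L := by rw [succ_nsmul']
  rw [e]
  exact space_mul hv hr

/-- Good line bundles satisfy `(N_p)`. -/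
theorem Good.propertyN (C : Curve x g A D0) {L : Divisor K} {p : ℕ} (h : Good g L p) :
    PropertyN (F := ℂ) (fun j => space (j • L)) (space_ring L) p := by
  obtain ⟨f, G, hp⟩ := h.pencil
  have hrr := hp.rr_nsmul C h.rr
  have e1 : space (1 • L) = space L := by rw [one_nsmul]
  have f1 := C.hfin L
  have f1' := C.hfin (1 • L)
  have f2 := C.hfin (2 • L)
  have hall : ∀ (j n : ℕ), 2 ≤ j →
      DExact (F := ℂ) (space (1 • L)) (space (j • L)) (space ((j + 1) • L)) n := by
    intro j n hj
    rw [e1]
    exact hp.dexact C.hfin hrr hj n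
  constructor
  · intro j hj
    rcases hj.eq_or_lt with rfl | hj
    · have h1 : Module.finrank ℂ (Submodule.span ℂ
          (kSet ℂ 0 (space (1 • L) : Set K) (space (1 • L) : Set K)))
          = Module.finrank ℂ (space (2 • L)) := by
        rw [e1]
        exact h.surj
      exact (surj_iff_rank (space (1 • L)) (space (1 • L)) (space (2 • L)) _).2 h1
    · exact koszul_surjective _ _ _ _ (surj_of_dexact (hall j 0 hj))
  · intro i j hi hj
    rcases hj.eq_or_lt with rfl | hj
    · have h1 : Module.finrank ℂ (Submodule.span ℂ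
          (kSet ℂ (i + 1) (space (1 • L) : Set K) (space (1 • L) : Set K)))
          + Module.finrank ℂ (Submodule.span ℂ
          (kSet ℂ i (space (1 • L) : Set K) (space (2 • L) : Set K)))
          = (Module.finrank ℂ (space (1 • L))).choose (i + 1)
            * Module.finrank ℂ (space (2 • L)) := by
        rw [e1]
        exact h.exact i hi
      exact (exact_iff_rank (space (1 • L)) (space (1 • L)) (space (2 • L)) (space (3 • L))
        _ _ i).2 h1
    · exact koszul_exact _ _ _ _ _ _ i (hall j (i + 1) hj)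

end PoolNP
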