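import Mathlib

/-!
Places of a function field of one variable over `ℂ`, residues and leading coefficients.
-/

namespace PoolNP

open Finset

/-- A place of `K / ℂ` (a point of the smooth projective curve with function field `K`):
a normalized discrete valuation of `K` which is trivial on `ℂ`, given by its order function on
the nonzero elements (the value at `0` is the junk value `0`). -/
structure Place (K : Type*) [Field K] [Algebra ℂ K] where
  /-- the order of vanishing at the place. -/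
  ord : K → ℤ
  ord_zero : ord 0 = 0
  ord_mul : ∀ f g, f ≠ 0 → g ≠ 0 → ord (f * g) = ord f + ord g
  ord_add : ∀ f g, f ≠ 0 → g ≠ 0 → f + g ≠ 0 → min (ord f) (ord g) ≤ ord (f + g)
  ord_const : ∀ c : ℂ, c ≠ 0 → ord (algebraMap ℂ K c) = 0
  ord_surj : ∃ t, t ≠ 0 ∧ ord t = 1

variable {K : Type*} [Field K] [Algebra ℂ K]

namespace Place

/-- the functions with a pole of order at most `n` at `P`. -/
def O (P : Place K) (n : ℤ) : Submodule ℂ K where
  carrier := {f | f = 0 ∨ -n ≤ P.ord f}
  add_mem' := by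
    rintro a b ha hb
    by_cases ha0 : a = 0
    · subst ha0; simpa using hb
    by_cases hb0 : b = 0
    · subst hb0; simpa using ha
    by_cases hab : a + b = 0
    · left; exact hab
    right
    have h1 := ha.resolve_left ha0
    have h2 := hb.resolve_left hb0
    exact (le_min h1 h2).trans (P.ord_add a b ha0 hb0 hab)
  zero_mem' := Or.inl rfl
  smul_mem' := by
    rintro c a ha
    by_cases hc : c = 0
    · left; simp [hc]
    by_cases ha0 : a = 0
    · left; simp [ha0]
    right
    have hc' : algebraMap ℂ K c ≠ 0 := by simpa using hc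
    rw [Algebra.smul_def, P.ord_mul _ _ hc' ha0, P.ord_const c hc, zero_add]
    exact ha.resolve_left ha0

theorem mem_O {P : Place K} {n : ℤ} {f : K} : f ∈ P.O n ↔ f = 0 ∨ -n ≤ P.ord f := Iff.rfl

theorem mem_O_of_ne {P : Place K} {n : ℤ} {f : K} (hf : f ≠ 0) : f ∈ P.O n ↔ -n ≤ P.ord f := by
  rw [mem_O]
  exact ⟨fun h => h.resolve_left hf, Or.inr⟩

theorem O_mono (P : Place K) {n m : ℤ} (h : n ≤ m) : P.O n ≤ P.O m := by
  rintro f (hf | hf)
  · exact Or.inl hf
  · exact Or.inr (by omega)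

theorem mul_mem_O {P : Place K} {n m : ℤ} {f g : K} (hf : f ∈ P.O n) (hg : g ∈ P.O m) :
    f * g ∈ P.O (n + m) := by
  by_cases hf0 : f = 0
  · left; simp [hf0]
  by_cases hg0 : g = 0
  · left; simp [hg0]
  right
  rw [P.ord_mul f g hf0 hg0]
  have h1 := hf.resolve_left hf0
  have h2 := hg.resolve_left hg0
  omega

theorem ord_one (P : Place K) : P.ord 1 = 0 := by
  have := P.ord_const 1 one_ne_zero
  rwa [map_one] at this

theorem ord_inv (P : Place K) {f : K} (hf : f ≠ 0) : P.ord f⁻¹ = -P.ord f := by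
  have h := P.ord_mul f f⁻¹ hf (inv_ne_zero hf)
  rw [mul_inv_cancel₀ hf, P.ord_one] at h
  omega

theorem ord_pow (P : Place K) {f : K} (hf : f ≠ 0) (n : ℕ) : P.ord (f ^ n) = n * P.ord f := by
  induction n with
  | zero => simp [P.ord_one]
  | succ n ih =>
    rw [pow_succ, P.ord_mul _ _ (pow_ne_zero n hf) hf, ih]
    push_cast
    ring

theorem ord_zpow (P : Place K) {f : K} (hf : f ≠ 0) (n : ℤ) : P.ord (f ^ n) = n * P.ord f := by
  cases n with
  | ofNat n => simpa using P.ord_pow hf n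
  | negSucc n =>
    rw [zpow_negSucc, P.ord_inv (pow_ne_zero _ hf), P.ord_pow hf, Int.negSucc_eq]
    push_cast
    ring

theorem algebraMap_mem_O (P : Place K) (c : ℂ) : algebraMap ℂ K c ∈ P.O 0 := by
  by_cases hc : c = 0
  · left; simp [hc]
  · right; rw [P.ord_const c hc]; simp

end Place

/-- In a field of transcendence degree one every element is algebraic over `ℂ(f)`, `f`
transcendental. -/
theorem isAlgebraic_of_transcendental {x : K}
    [Algebra.IsAlgebraic (IntermediateField.adjoin ℂ ({x} : Set K)) K]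
    {f : K} (hf : Transcendental ℂ f) :
    Algebra.IsAlgebraic (IntermediateField.adjoin ℂ ({f} : Set K)) K := by
  have h1 : Algebra.IsAlgebraic (Algebra.adjoin ℂ ({x} : Set K)) K := by
    open IntermediateField.algebraAdjoinAdjoin in
    exact (IsFractionRing.comap_isAlgebraic_iff (A := Algebra.adjoin ℂ ({x} : Set K))
      (K := IntermediateField.adjoin ℂ ({x} : Set K))).2 inferInstance
  have h2 : Algebra.trdeg ℂ K ≤ 1 := by
    have := Algebra.IsAlgebraic.trdeg_le_cardinalMk ℂ ({x} : Set K)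
    simpa using this
  have h3 : AlgebraicIndependent ℂ ![f] := algebraicIndependent_iff_transcendental.2 hf
  have h4 : IsTranscendenceBasis ℂ ![f] := by
    refine h3.isTranscendenceBasis_of_lift_trdeg_le_of_finite ?_
    simpa using h2
  have h5 := h4.isAlgebraic_field
  have e : Set.range ![f] = {f} := by simp
  rwa [e] at h5

namespace Place

theorem ord_aeval (P : Place K) {f : K} (h : ∀ c : ℂ, f - algebraMap ℂ K c ≠ 0)
    (h' : ∀ c : ℂ, P.ord (f - algebraMap ℂ K c) = 0) :
    ∀ (n : ℕ) (p : Polynomial ℂ), p.natDegree = n → p ≠ 0 →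
      Polynomial.aeval f p ≠ 0 ∧ P.ord (Polynomial.aeval f p) = 0 := by
  intro n
  induction n with
  | zero =>
    intro p hp hp0
    rw [Polynomial.eq_C_of_natDegree_eq_zero hp] at hp0 ⊢
    have hc : p.coeff 0 ≠ 0 := by
      intro h0
      rw [h0, map_zero] at hp0
      exact hp0 rfl
    rw [Polynomial.aeval_C]
    exact ⟨by simpa using hc, P.ord_const _ hc⟩
  | succ n ih =>
    intro p hp hp0
    have hdeg : p.degree ≠ 0 := by
      intro h0
      have h1 := Polynomial.natDegree_eq_zero_iff_degree_le_zero.2 h0.le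
      omega
    obtain ⟨r, hr⟩ := IsAlgClosed.exists_root p hdeg
    obtain ⟨q, hq⟩ := Polynomial.dvd_iff_isRoot.2 hr
    have hq0 : q ≠ 0 := by
      rintro rfl
      rw [mul_zero] at hq
      exact hp0 hq
    have hqd : q.natDegree = n := by
      rw [hq, Polynomial.natDegree_mul (Polynomial.X_sub_C_ne_zero r) hq0,
        Polynomial.natDegree_X_sub_C] at hp
      omega
    obtain ⟨h1, h2⟩ := ih q hqd hq0
    have e : Polynomial.aeval f p = (f - algebraMap ℂ K r) * Polynomial.aeval f q := by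
      rw [hq, map_mul, map_sub, Polynomial.aeval_X, Polynomial.aeval_C]
    rw [e]
    refine ⟨mul_ne_zero (h r) h1, ?_⟩
    rw [P.ord_mul _ _ (h r) h1, h' r, h2, add_zero]

/-- The residue field at a place is `ℂ`. -/
theorem residue (P : Place K) {x : K}
    [Algebra.IsAlgebraic (IntermediateField.adjoin ℂ ({x} : Set K)) K] :
    ∀ f ∈ P.O 0, ∃ c : ℂ, f - algebraMap ℂ K c ∈ P.O (-1) := by
  intro f hf
  by_contra hcon
  push Not at hcon
  have h : ∀ c : ℂ, f - algebraMap ℂ K c ≠ 0 := fun c h0 => hcon c (Or.inl h0)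
  have h' : ∀ c : ℂ, P.ord (f - algebraMap ℂ K c) = 0 := by
    intro c
    have h1 : f - algebraMap ℂ K c ∈ P.O 0 := (P.O 0).sub_mem hf (P.algebraMap_mem_O c)
    rw [mem_O_of_ne (h c)] at h1
    have h2 := hcon c
    rw [mem_O_of_ne (h c)] at h2
    omega
  have hev := P.ord_aeval h h'
  have htr : Transcendental ℂ f := by
    rw [transcendental_iff]
    intro p hp
    by_contra hp0
    exact (hev _ p rfl hp0).1 hp
  have := isAlgebraic_of_transcendental (x := x) htr
  -- elements of `ℂ(f)` have nonnegative order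
  have hE : ∀ a : IntermediateField.adjoin ℂ ({f} : Set K), (a : K) ∈ P.O 0 := by
    rintro ⟨a, ha⟩
    obtain ⟨r, s, hrs⟩ := (IntermediateField.mem_adjoin_simple_iff ℂ a).1 ha
    change a ∈ P.O 0
    by_cases hr : r = 0
    · left; rw [hrs, hr, map_zero, zero_div]
    by_cases hs : s = 0
    · left; rw [hrs, hs, map_zero, div_zero]
    right
    obtain ⟨r1, r2⟩ := hev _ r rfl hr
    obtain ⟨s1, s2⟩ := hev _ s rfl hs
    rw [hrs, div_eq_mul_inv, P.ord_mul _ _ r1 (inv_ne_zero s1), P.ord_inv s1, r2, s2]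
    simp
  obtain ⟨t, ht0, ht⟩ := P.ord_surj
  have hy : IsIntegral (IntermediateField.adjoin ℂ ({f} : Set K)) t⁻¹ :=
    (Algebra.IsAlgebraic.isAlgebraic t⁻¹).isIntegral
  obtain ⟨p, hpm, hp⟩ := hy
  have hn : p.natDegree ≠ 0 := by
    intro h0
    rw [Polynomial.eq_one_of_monic_natDegree_zero hpm h0, Polynomial.eval₂_one] at hp
    exact one_ne_zero hp
  rw [Polynomial.eval₂_eq_sum_range, Finset.sum_range_succ, hpm.coeff_natDegree, map_one,
    one_mul] at hp
  have h1 : t⁻¹ ^ p.natDegree ∈ P.O (p.natDegree - 1) := by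
    rw [add_comm, add_eq_zero_iff_eq_neg] at hp
    rw [hp]
    refine (P.O _).neg_mem ((P.O _).sum_mem fun i hi => ?_)
    rw [mem_range] at hi
    have h2 : t⁻¹ ^ i ∈ P.O i := by
      right
      rw [P.ord_pow (inv_ne_zero ht0), P.ord_inv ht0, ht]
      simp
    have h3 := mul_mem_O (hE (p.coeff i)) h2
    exact P.O_mono (by omega) h3
  rw [mem_O_of_ne (pow_ne_zero _ (inv_ne_zero ht0)), P.ord_pow (inv_ne_zero ht0), P.ord_inv ht0,
    ht] at h1
  omega

/-- Leading coefficients at `P`. -/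
theorem exists_lc (P : Place K) {x : K}
    [Algebra.IsAlgebraic (IntermediateField.adjoin ℂ ({x} : Set K)) K] :
    ∃ lc : ℤ → (K →ₗ[ℂ] ℂ), (∀ n, ∀ f ∈ P.O n, lc n f = 0 → f ∈ P.O (n - 1)) ∧
      (∀ n, ∀ f ∈ P.O (n - 1), lc n f = 0) ∧
      (∀ n m, ∀ f ∈ P.O n, ∀ g ∈ P.O m, lc (n + m) (f * g) = lc n f * lc m g) := by
  have hres := P.residue (x := x)
  obtain ⟨t, ht0, ht⟩ := P.ord_surj
  have h1 : (1 : K) ∉ P.O (-1) := by
    rw [mem_O_of_ne one_ne_zero, P.ord_one]
    omega
  obtain ⟨ρ, hρ0, hρ1⟩ := LinearMap.exists_extend_of_notMem (0 : P.O (-1) →ₗ[ℂ] ℂ) h1 1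
  have hρ : ∀ f ∈ P.O (-1), ρ f = 0 := by
    intro f hf
    have := LinearMap.congr_fun hρ0 ⟨f, hf⟩
    simpa using this
  have hρr : ∀ f ∈ P.O 0, f - algebraMap ℂ K (ρ f) ∈ P.O (-1) := by
    intro f hf
    obtain ⟨c, hc⟩ := hres f hf
    have h2 := hρ _ hc
    rw [map_sub, Algebra.algebraMap_eq_smul_one, map_smul, hρ1, smul_eq_mul, mul_one,
      sub_eq_zero] at h2
    rw [h2]
    exact hc
  have hρm : ∀ f ∈ P.O 0, ∀ g ∈ P.O 0, ρ (f * g) = ρ f * ρ g := by
    intro f hf g hg
    have h2 := mul_mem_O (hρr f hf) hg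
    have h3 := mul_mem_O (P.algebraMap_mem_O (ρ f)) (hρr g hg)
    have h4 := (P.O (-1)).add_mem (by simpa using h2) (by simpa using h3)
    have h5 := hρ _ h4
    have e : (f - algebraMap ℂ K (ρ f)) * g
        + algebraMap ℂ K (ρ f) * (g - algebraMap ℂ K (ρ g))
        = f * g - (ρ f * ρ g) • (1 : K) := by
      rw [Algebra.smul_def, map_mul]
      ring
    rw [e, map_sub, map_smul, hρ1, smul_eq_mul, mul_one, sub_eq_zero] at h5
    exact h5
  have htn : ∀ n : ℤ, t ^ n ∈ P.O (-n) := by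
    intro n
    right
    rw [P.ord_zpow ht0, ht]
    simp
  have hft : ∀ (n k : ℤ) (f : K), f ∈ P.O (n + k) → f * t ^ n ∈ P.O k := by
    intro n k f hf
    have := mul_mem_O hf (htn n)
    have e : n + k + -n = k := by ring
    rwa [e] at this
  refine ⟨fun n => ρ ∘ₗ LinearMap.mulRight ℂ (t ^ n), ?_, ?_, ?_⟩
  · intro n f hf h0
    have h2 : f * t ^ n ∈ P.O 0 := hft n 0 f (by simpa using hf)
    have h3 := hρr _ h2
    have h0' : ρ (f * t ^ n) = 0 := h0
    rw [h0', map_zero, sub_zero] at h3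
    have h4 := mul_mem_O h3 (htn (-n))
    rw [mul_assoc, ← zpow_add₀ ht0, add_neg_cancel, zpow_zero, mul_one, neg_neg] at h4
    have e : n - 1 = -1 + n := by ring
    rw [e]
    exact h4
  · intro n f hf
    exact hρ _ (hft n (-1) f (by simpa [sub_eq_add_neg] using hf))
  · intro n m f hf g hg
    change ρ (f * g * t ^ (n + m)) = ρ (f * t ^ n) * ρ (g * t ^ m)
    rw [← hρm _ (hft n 0 f (by simpa using hf)) _ (hft m 0 g (by simpa using hg)),
      zpow_add₀ ht0]
    congr 1
    ring

end Place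

end PoolNP
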