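import Pool.Agent.helper43.NP.Divisor

/-!
Principal divisors, linear equivalence, Riemann's theorem.
-/

namespace PoolNP

open Finset

variable {K : Type*} [Field K] [Algebra ℂ K]

theorem finite_of_card_le {α : Type*} {s : Set α} {N : ℕ}
    (h : ∀ t : Finset α, (t : Set α) ⊆ s → t.card ≤ N) : s.Finite := by
  by_contra hcon
  obtain ⟨t, ht, hc⟩ := Set.Infinite.exists_subset_card_eq hcon (N + 1)
  have := h t ht
  omega

/-- the sum of the points of a finite set. -/
noncomputable def ptSum (S : Finset (Place K)) : Divisor K := ∑ P ∈ S, Finsupp.single P 1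

theorem ptSum_apply [DecidableEq (Place K)] (S : Finset (Place K)) (P : Place K) :
    ptSum S P = if P ∈ S then 1 else 0 := by
  rw [ptSum, Finsupp.finsetSum_apply]
  simp only [Finsupp.single_apply]
  rw [Finset.sum_ite_eq']

theorem degree_ptSum (S : Finset (Place K)) : degree (ptSum S) = S.card := by
  classical
  induction S using Finset.induction_on with
  | empty => simp [ptSum, degree_zero]
  | insert a S ha ih =>
    rw [ptSum, Finset.sum_insert ha, degree_add, degree_single, card_insert_of_notMem ha]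
    rw [ptSum] at ih
    rw [ih]
    push_cast
    ring

theorem ptSum_nonneg (S : Finset (Place K)) : 0 ≤ ptSum S :=
  Finset.sum_nonneg fun P _ => single_nonneg P

/-- multiplication by `f` embeds `H^0(D)` into `H^0(D')` -/
theorem ell_le_of_mul {D D' : Divisor K} {f : K} (hf : f ≠ 0)
    (hfin : FiniteDimensional ℂ (space D')) (h : ∀ r ∈ space D, f * r ∈ space D') :
    ell D ≤ ell D' := by
  have hinj : Function.Injective (LinearMap.mulLeft ℂ f) := by
    intro a b hab
    exact mul_left_cancel₀ hf hab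
  have h1 : (space D).map (LinearMap.mulLeft ℂ f) ≤ space D' := by
    rintro _ ⟨r, hr, rfl⟩
    exact h r hr
  have h2 := LinearEquiv.finrank_eq (Submodule.equivMapOfInjective _ hinj (space D))
  rw [ell, h2]
  exact Submodule.finrank_mono h1

section

variable {x : K} [Algebra.IsAlgebraic (IntermediateField.adjoin ℂ ({x} : Set K)) K]
  {g : ℕ} (hg : IsGenus K g) (hfin : ∀ D : Divisor K, FiniteDimensional ℂ (space D))
  {D0 : Divisor K} (h0 : (ell D0 : ℤ) + g = degree D0 + 1)

include hg hfin h0

/-- A nonzero element of some `H^0(D)` has finitely many zeros. -/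
theorem zeros_finite (x : K) [Algebra.IsAlgebraic (IntermediateField.adjoin ℂ ({x} : Set K)) K]
    {D : Divisor K} {f : K} (hf : f ≠ 0) (hfD : f ∈ space D) :
    {P : Place K | 1 ≤ P.ord f}.Finite := by
  classical
  set D1 : Divisor K := D ⊔ 0 with hD1
  have hD1D : D ≤ D1 := le_sup_left
  have hD10 : 0 ≤ D1 := le_sup_right
  refine finite_of_card_le (N := (degree D1).toNat) fun S hS => ?_
  have h1 : ell (D0 + ptSum S) ≤ ell (D0 + D1) := by
    refine ell_le_of_mul hf (hfin _) ?_
    intro r hr
    by_cases hr0 : r = 0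
    · rw [hr0, mul_zero]; exact Submodule.zero_mem _
    rw [mem_space] at hr ⊢
    intro P
    have h2 := hr P
    have h3 := mem_space.1 hfD P
    rw [Place.mem_O_of_ne hr0, Finsupp.add_apply, ptSum_apply] at h2
    rw [Place.mem_O_of_ne hf] at h3
    rw [Place.mem_O_of_ne (mul_ne_zero hf hr0), P.ord_mul _ _ hf hr0, Finsupp.add_apply]
    have h4 := hD1D P
    have h5 := hD10 P
    simp only [Finsupp.coe_zero, Pi.zero_apply] at h5
    split_ifs at h2 with hPS
    · have h6 : 1 ≤ P.ord f := hS hPS
      omega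
    · omega
  have h2 := ell_eq (x := x) hg hfin h0 (D := D0 + ptSum S) (le_add_of_nonneg_right (ptSum_nonneg S))
  have h3 := ell_eq (x := x) hg hfin h0 (D := D0 + D1) (le_add_of_nonneg_right hD10)
  rw [degree_add, degree_ptSum] at h2
  rw [degree_add] at h3
  omega

end

/-- Elements of `ℂ[x]` have poles only at the poles of `x`. -/
theorem adjoin_mem_O {x : K} {A : Divisor K} (hA : ∀ P : Place K, A P = max 0 (-P.ord x))
    {P : Place K} (hP : A P = 0) (a : Algebra.adjoin ℂ ({x} : Set K)) : (a : K) ∈ P.O 0 := by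
  have hx : x ∈ P.O 0 := by
    right
    have := hA P
    omega
  obtain ⟨a, ha⟩ := a
  change a ∈ P.O 0
  induction ha using Algebra.adjoin_induction with
  | mem y hy => rw [Set.mem_singleton_iff] at hy; rw [hy]; exact hx
  | algebraMap r => exact P.algebraMap_mem_O r
  | add a b _ _ ha hb => exact (P.O 0).add_mem ha hb
  | mul a b _ _ ha hb => simpa using Place.mul_mem_O ha hb

theorem adjoin_mem_space {x : K} {A : Divisor K} (hA : ∀ P : Place K, A P = max 0 (-P.ord x))
    (a : Algebra.adjoin ℂ ({x} : Set K)) : ∃ N : ℕ, (a : K) ∈ space (N • A) := by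
  have hA0 : 0 ≤ A := by
    intro P
    simp only [Finsupp.coe_zero, Pi.zero_apply, hA P]
    omega
  have hmono : ∀ a b : ℕ, a ≤ b → space (a • A) ≤ space (b • A) :=
    fun a b hab => space_mono (nsmul_le_nsmul_left hA0 hab)
  obtain ⟨a, ha⟩ := a
  change ∃ N : ℕ, a ∈ space (N • A)
  induction ha using Algebra.adjoin_induction with
  | mem y hy =>
    rw [Set.mem_singleton_iff] at hy
    refine ⟨1, ?_⟩
    rw [hy, one_nsmul, mem_space]
    intro P
    right
    rw [hA P]
    omega
  | algebraMap r =>
    refine ⟨0, ?_⟩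
    rw [zero_nsmul, mem_space]
    intro P
    exact P.algebraMap_mem_O r
  | add a b _ _ ha hb =>
    obtain ⟨N, hN⟩ := ha
    obtain ⟨M, hM⟩ := hb
    exact ⟨N + M, Submodule.add_mem _ (hmono _ _ (by omega) hN) (hmono _ _ (by omega) hM)⟩
  | mul a b _ _ ha hb =>
    obtain ⟨N, hN⟩ := ha
    obtain ⟨M, hM⟩ := hb
    refine ⟨N + M, ?_⟩
    rw [add_nsmul]
    exact space_mul hN hM

/-- The basic data of the curve: `x`, its pole divisor `A`, the genus, a divisor with
vanishing `h^1`. -/
structure Curve (x : K) (g : ℕ) (A D0 : Divisor K) : Prop where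
  alg : Algebra.IsAlgebraic (IntermediateField.adjoin ℂ ({x} : Set K)) K
  hA : ∀ P : Place K, A P = max 0 (-P.ord x)
  hg : IsGenus K g
  hfin : ∀ D : Divisor K, FiniteDimensional ℂ (space D)
  h0 : (ell D0 : ℤ) + g = degree D0 + 1

namespace Curve

variable {x : K} {g : ℕ} {A D0 : Divisor K}

theorem zeros_finite (C : Curve x g A D0) {D : Divisor K} {f : K} (hf : f ≠ 0)
    (hfD : f ∈ space D) : {P : Place K | 1 ≤ P.ord f}.Finite := by
  have := C.alg
  exact PoolNP.zeros_finite C.hg C.hfin C.h0 x hf hfD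

theorem poles_finite (C : Curve x g A D0) (f : K) : {P : Place K | P.ord f < 0}.Finite := by
  have := C.alg
  have h1 : Algebra.IsAlgebraic (Algebra.adjoin ℂ ({x} : Set K)) K := by
    open IntermediateField.algebraAdjoinAdjoin in
    exact (IsFractionRing.comap_isAlgebraic_iff (A := Algebra.adjoin ℂ ({x} : Set K))
      (K := IntermediateField.adjoin ℂ ({x} : Set K))).2 inferInstance
  obtain ⟨p, hp0, hp⟩ := h1.isAlgebraic f
  have hn : p.natDegree ≠ 0 := by
    intro hn
    rw [Polynomial.eq_C_of_natDegree_eq_zero hn, Polynomial.aeval_C] at hp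
    rw [Polynomial.eq_C_of_natDegree_eq_zero hn] at hp0
    apply hp0
    have : p.coeff 0 = 0 := by
      have h2 : ((p.coeff 0 : Algebra.adjoin ℂ ({x} : Set K)) : K) = 0 := hp
      exact_mod_cast h2
    rw [this, map_zero]
  set an := p.leadingCoeff with han
  have han0 : (an : K) ≠ 0 := by
    intro h
    apply hp0
    rw [← Polynomial.leadingCoeff_eq_zero]
    exact_mod_cast h
  obtain ⟨N, hN⟩ := adjoin_mem_space C.hA an
  have hz := C.zeros_finite han0 hN
  refine (hz.union A.support.finite_toSet).subset ?_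
  intro P hP
  by_contra hcon
  rw [Set.mem_union, not_or] at hcon
  obtain ⟨hc1, hc2⟩ := hcon
  have hAP : A P = 0 := by
    simpa using hc2
  have hP' : P.ord f < 0 := hP
  have hf0 : f ≠ 0 := by
    rintro rfl
    rw [P.ord_zero] at hP'
    exact lt_irrefl _ hP'
  have hanO := adjoin_mem_O C.hA hAP an
  rw [Place.mem_O_of_ne han0] at hanO
  have hord : P.ord (an : K) = 0 := by
    have : ¬ 1 ≤ P.ord (an : K) := hc1
    omega
  rw [Polynomial.aeval_eq_sum_range, Finset.sum_range_succ] at hp
  have hlead : p.coeff p.natDegree • f ^ p.natDegree = (an : K) * f ^ p.natDegree := by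
    rw [Polynomial.coeff_natDegree]
    rfl
  rw [hlead, add_comm, add_eq_zero_iff_eq_neg] at hp
  have h2 : (an : K) * f ^ p.natDegree ∈ P.O (-((p.natDegree - 1 : ℤ) * P.ord f)) := by
    rw [hp]
    refine (P.O _).neg_mem ((P.O _).sum_mem fun i hi => ?_)
    rw [mem_range] at hi
    have e : p.coeff i • f ^ i = (p.coeff i : K) * f ^ i := rfl
    rw [e]
    have h3 : f ^ i ∈ P.O (-(i * P.ord f)) := by
      right
      rw [P.ord_pow hf0]
      omega
    have h4 := Place.mul_mem_O (adjoin_mem_O C.hA hAP (p.coeff i)) h3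
    refine P.O_mono ?_ h4
    have h5 : (i : ℤ) ≤ p.natDegree - 1 := by omega
    have h6 : (p.natDegree - 1 : ℤ) * P.ord f ≤ i * P.ord f :=
      mul_le_mul_of_nonpos_right h5 hP'.le
    omega
  rw [Place.mem_O_of_ne (mul_ne_zero han0 (pow_ne_zero _ hf0)),
    P.ord_mul _ _ han0 (pow_ne_zero _ hf0), hord, P.ord_pow hf0, neg_neg, zero_add, sub_mul,
    one_mul] at h2
  linarith

theorem exists_space (C : Curve x g A D0) (f : K) : ∃ D : Divisor K, f ∈ space D := by
  classical
  refine ⟨Finsupp.onFinset (C.poles_finite f).toFinset (fun P => max 0 (-P.ord f)) ?_, ?_⟩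
  · intro P hP
    rw [Set.Finite.mem_toFinset]
    change P.ord f < 0
    by_contra hcon
    apply hP
    omega
  · rw [mem_space]
    intro P
    right
    rw [Finsupp.onFinset_apply]
    omega

theorem support_finite (C : Curve x g A D0) {f : K} (hf : f ≠ 0) :
    {P : Place K | P.ord f ≠ 0}.Finite := by
  obtain ⟨D, hD⟩ := C.exists_space f
  refine ((C.zeros_finite hf hD).union (C.poles_finite f)).subset ?_
  intro P hP
  have hP' : P.ord f ≠ 0 := hP
  by_cases h : 0 ≤ P.ord f
  · left
    change 1 ≤ P.ord f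
    omega
  · right
    change P.ord f < 0
    omega

/-- Principal divisors. -/
theorem exists_div (C : Curve x g A D0) {f : K} (hf : f ≠ 0) :
    ∃ D : Divisor K, ∀ P : Place K, D P = P.ord f := by
  classical
  exact ⟨Finsupp.onFinset (C.support_finite hf).toFinset (fun P => P.ord f)
    (fun P hP => by rw [Set.Finite.mem_toFinset]; exact hP), fun P => rfl⟩

theorem ell_add_div (C : Curve x g A D0) {f : K} (hf : f ≠ 0) {B : Divisor K}
    (hB : ∀ P : Place K, B P = P.ord f) (D : Divisor K) : ell (D + B) = ell D := by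
  have key : ∀ (f : K) (B : Divisor K), f ≠ 0 → (∀ P : Place K, B P = P.ord f) →
      ∀ D : Divisor K, ell (D + B) ≤ ell D := by
    intro f B hf hB D
    refine ell_le_of_mul hf (C.hfin _) ?_
    intro r hr
    by_cases hr0 : r = 0
    · rw [hr0, mul_zero]; exact Submodule.zero_mem _
    rw [mem_space] at hr ⊢
    intro P
    have h1 := hr P
    rw [Place.mem_O_of_ne hr0, Finsupp.add_apply, hB P] at h1
    rw [Place.mem_O_of_ne (mul_ne_zero hf hr0), P.ord_mul _ _ hf hr0]
    omega
  apply le_antisymm (key f B hf hB D)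
  have h2 := key f⁻¹ (-B) (inv_ne_zero hf) (by
    intro P
    rw [Finsupp.neg_apply, hB P, P.ord_inv hf]) (D + B)
  rwa [add_neg_cancel_right] at h2

theorem degree_div (C : Curve x g A D0) {f : K} (hf : f ≠ 0) {B : Divisor K}
    (hB : ∀ P : Place K, B P = P.ord f) : degree B = 0 := by
  have := C.alg
  set D := D0 + (-B) ⊔ 0 with hD
  have h1 : D0 ≤ D := le_add_of_nonneg_right le_sup_right
  have h2 : D0 ≤ D + B := by
    have h3 : -B ≤ (-B) ⊔ 0 := le_sup_left
    have h4 : D0 + -B + B ≤ D + B := by
      rw [hD]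
      exact add_le_add_left (add_le_add_right h3 D0) B
    rwa [neg_add_cancel_right] at h4
  have e1 := ell_eq (x := x) C.hg C.hfin C.h0 h1
  have e2 := ell_eq (x := x) C.hg C.hfin C.h0 h2
  rw [C.ell_add_div hf hB, degree_add] at e2
  omega

/-- Riemann's theorem: `h^1(D) = 0` for `deg D` large. -/
theorem riemann (C : Curve x g A D0) {D : Divisor K} (hD : degree D0 + g ≤ degree D) :
    (ell D : ℤ) + g = degree D + 1 := by
  have := C.alg
  have h1 := C.hg.1 (D - D0)
  have h2 : degree D = degree (D - D0) + degree D0 := by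
    rw [← degree_add, sub_add_cancel]
  have h3 : 0 < ell (D - D0) := by omega
  have h4 : space (D - D0) ≠ ⊥ := by
    intro hbot
    have : ell (D - D0) = 0 := by
      rw [ell, hbot]
      exact finrank_bot ℂ K
    omega
  obtain ⟨f, hf, hf0⟩ := Submodule.exists_mem_ne_zero_of_ne_bot h4
  obtain ⟨B, hB⟩ := C.exists_div hf0
  have h5 : D0 ≤ D + B := by
    intro P
    have h6 := mem_space.1 hf P
    rw [Place.mem_O_of_ne hf0, Finsupp.sub_apply] at h6
    rw [Finsupp.add_apply, hB P]
    omega
  have h6 := ell_eq (x := x) C.hg C.hfin C.h0 h5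
  rw [C.ell_add_div hf0 hB, degree_add, C.degree_div hf0 hB, add_zero] at h6
  exact h6

end Curve

end PoolNP
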