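import Pool.Agent.helper43.NP.Inner

/-!
Inner projection of curves.
-/

namespace PoolNP

open Finset

variable {K : Type*} [Field K] [Algebra ℂ K] {x : K} {g : ℕ} {A D0 : Divisor K}

/-- If `h^1(L) = 0` and `D` is effective up to linear equivalence then `h^1(L + D) = 0`. -/
theorem rr_add (C : Curve x g A D0) {L D : Divisor K} (hrr : (ell L : ℤ) + g = degree L + 1)
    {f : K} (hf : f ≠ 0) (hfD : f ∈ space D) :
    (ell (L + D) : ℤ) + g = degree (L + D) + 1 := by
  obtain ⟨B, hB⟩ := C.exists_div hf
  have hle : L ≤ L + D + B := by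
    intro P
    have h6 := mem_space.1 hfD P
    rw [Place.mem_O_of_ne hf] at h6
    rw [Finsupp.add_apply, Finsupp.add_apply, hB P]
    omega
  have := C.alg
  have h1 := ell_eq (x := x) C.hg C.hfin hrr hle
  rw [C.ell_add_div hf hB, degree_add, C.degree_div hf hB, add_zero] at h1
  exact h1

/-- A space of positive dimension has a nonzero element. -/
theorem exists_ne_zero {D : Divisor K} (h : 0 < ell D) : ∃ f ∈ space D, f ≠ 0 := by
  have h4 : space D ≠ ⊥ := by
    intro hbot
    have : ell D = 0 := by
      rw [ell, hbot]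
      exact finrank_bot ℂ K
    omega
  exact Submodule.exists_mem_ne_zero_of_ne_bot h4

/-- Exactness in higher degree, with coefficients in `B + j L`. -/
theorem IsPencil.dexactB {L : Divisor K} {f G : K} (h : IsPencil L f G)
    (hfin : ∀ D : Divisor K, FiniteDimensional ℂ (space D)) {B : Divisor K}
    (h0 : (ell B : ℤ) + g = degree B + 1)
    (h1 : (ell (B + L) : ℤ) + g = degree (B + L) + 1)
    (h2 : (ell (B + L + L) : ℤ) + g = degree (B + L + L) + 1) (n : ℕ) :
    DExact (F := ℂ) (space L) (space (B + L)) (space (B + L + L)) n := by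
  have hgen := h.gen hfin h0 h1 h2
  cases n with
  | zero =>
    intro φ hφ w r hr
    obtain ⟨a, ha, b, hb, rfl⟩ := hgen r hr
    have key : ∀ v ∈ space L, ∀ r ∈ space (B + L), φ w (v * r) = 0 := by
      intro v hv r hr
      have h1 := hφ (fun _ => v) (fun _ => hv) r hr
      rw [dd_apply] at h1
      simp only [Nat.reduceAdd, Finset.univ_unique, Fin.default_eq_zero, Fin.isValue,
        Fin.val_eq_zero, pow_zero, one_mul, sum_singleton] at h1
      have e : Fin.removeNth (0 : Fin 1) (fun _ => v) = w := by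
        funext l; exact l.elim0
      rw [e] at h1
      exact h1
    rw [map_add, key f h.memf a ha, key G h.memG b hb, add_zero]
  | succ n =>
    intro φ hφ
    refine reduce2 (space L) (space (B + L)) (space (B + L + L)) f G h.f0 h.memf h.memG
      ?_ ?_ ?_ φ hφ
    · intro v hv r hr
      rw [mul_comm]
      exact space_mul hr hv
    · intro r hr r' hr' hrr
      exact h.div hr hr' hrr
    · intro φ' hk0 hk1 w hw r hr
      obtain ⟨a, ha, b, hb, rfl⟩ := hgen r hr
      rw [map_add, hk0 w hw a ha, hk1 w hw b hb, add_zero]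

/-- There is a section of exact pole order `D P` at all points `P` of a finite set. -/
theorem exists_generic_of_finite {D : Divisor K} {S : Set (Place K)} (hS : S.Finite)
    (h : ∀ P ∈ S, ∃ v ∈ space D, v ∉ P.O (D P - 1)) :
    ∃ G ∈ space D, ∀ P ∈ S, G ∉ P.O (D P - 1) := by
  classical
  let p : Place K → Submodule ℂ (space D) :=
    fun P => (P.O (D P - 1)).comap (space D).subtype
  let s : Finset (Submodule ℂ (space D)) := hS.toFinset.image p
  have hs : (⊤ : Submodule ℂ (space D)) ∉ s := by
    intro htop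
    obtain ⟨P, hP, hPt⟩ := mem_image.1 htop
    obtain ⟨v, hv, hvP⟩ := h P (hS.mem_toFinset.1 hP)
    have h1 : (⟨v, hv⟩ : space D) ∈ p P := by rw [hPt]; exact Submodule.mem_top
    exact hvP h1
  have hne := Subspace.biUnion_ne_univ_of_top_notMem (k := ℂ) (E := space D) hs
  rw [Set.ne_univ_iff_exists_notMem] at hne
  obtain ⟨G, hG⟩ := hne
  refine ⟨G, G.2, fun P hP hGP => hG ?_⟩
  exact Set.mem_biUnion (x := p P) (mem_coe.2 (mem_image_of_mem p (hS.mem_toFinset.2 hP))) hGP

/-- A base point free linear system contains a base point free pencil. -/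
theorem exists_pencil (C : Curve x g A D0) (P0 : Place K) {D : Divisor K}
    (h : ∀ P : Place K, ∃ v ∈ space D, v ∉ P.O (D P - 1)) : ∃ f G, IsPencil D f G := by
  obtain ⟨f, hf, hfP⟩ := h P0
  have hf0 : f ≠ 0 := by
    rintro rfl
    exact hfP (Submodule.zero_mem _)
  set S : Set (Place K) := {P | f ∈ P.O (D P - 1)} ∪ {P0} with hS
  have hfin : S.Finite := by
    refine Set.Finite.union ?_ (Set.finite_singleton P0)
    refine (D.support.finite_toSet.union (C.support_finite hf0)).subset ?_
    intro P hP
    have hP' : f ∈ P.O (D P - 1) := hP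
    rw [Place.mem_O_of_ne hf0] at hP'
    by_cases hD : D P = 0
    · right
      change P.ord f ≠ 0
      omega
    · left
      simpa using hD
  obtain ⟨G, hG, hGS⟩ := exists_generic_of_finite hfin (fun P _ => h P)
  refine ⟨f, G, hf0, ?_, hf, hG, ?_⟩
  · rintro rfl
    exact hGS P0 (Or.inr rfl) (Submodule.zero_mem _)
  · intro P
    by_cases hP : f ∈ P.O (D P - 1)
    · exact Or.inr (hGS P (Or.inl hP))
    · exact Or.inl hP

/-- The dual version of `Good`. -/
structure GoodD (g : ℕ) (L : Divisor K) (p : ℕ) : Prop where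
  rr : (ell L : ℤ) + g = degree L + 1
  pencil : ∃ f G, IsPencil L f G
  dex : ∀ n ≤ p, DExact (F := ℂ) (space L) (space L) (space (2 • L)) n

theorem GoodD.good (hfin : ∀ D : Divisor K, FiniteDimensional ℂ (space D)) {L : Divisor K}
    {p : ℕ} (h : GoodD g L p) : Good g L p := by
  have f1 := hfin L
  have f2 := hfin (2 • L)
  refine ⟨h.rr, h.pencil, ?_, ?_⟩
  · exact (surj_iff_rank (space L) (space L) (space (2 • L)) (hmul1 L)).1
      (koszul_surjective _ _ _ _ (surj_of_dexact (h.dex 0 (by omega))))
  · intro i hi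
    exact (exact_iff_rank (space L) (space L) (space (2 • L)) (space (3 • L)) (hmul1 L)
      (hmul2 L) i).1 (koszul_exact _ _ _ _ _ _ i (h.dex (i + 1) (by omega)))

/-- removing a base point free point. -/
theorem rr_sub (C : Curve x g A D0) {L : Divisor K} {P : Place K}
    (hrr : (ell L : ℤ) + g = degree L + 1)
    (hP : ∃ v ∈ space L, v ∉ P.O (L P - 1)) :
    (ell (L - Finsupp.single P 1) : ℤ) + g = degree (L - Finsupp.single P 1) + 1 := by
  have h1 := C.hg.1 (L - Finsupp.single P 1)
  rw [degree_sub_single] at h1 ⊢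
  obtain ⟨v, hv, hvP⟩ := hP
  have fL := C.hfin L
  have hlt : space (L - Finsupp.single P 1) < space L := by
    refine lt_of_le_of_ne (space_mono (sub_le_self _ (single_nonneg P))) ?_
    intro he
    exact hvP (mem_O_of_sub (he ▸ hv))
  have h2 : ell (L - Finsupp.single P 1) < ell L := Submodule.finrank_lt_finrank_of_lt hlt
  omega

theorem IsPencil.exact_at {L : Divisor K} {f G : K} (h : IsPencil L f G) (P : Place K) :
    ∃ v ∈ space L, v ∉ P.O (L P - 1) := by
  rcases h.free P with h1 | h1
  · exact ⟨f, h.memf, h1⟩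
  · exact ⟨G, h.memG, h1⟩

/-- If `L` is normally generated then `L - P` is base point free. -/
theorem bpf_sub (C : Curve x g A D0) {L : Divisor K} {p : ℕ} (h : GoodD g L p)
    (h2 : 2 ≤ ell L) (P Q : Place K) :
    ∃ v ∈ space (L - Finsupp.single P 1),
      v ∉ Q.O ((L - Finsupp.single P 1 : Divisor K) Q - 1) := by
  by_contra hcon
  push Not at hcon
  have := C.alg
  obtain ⟨f, G, hp⟩ := h.pencil
  obtain ⟨σ, hσ, hσP⟩ := hp.exact_at P
  obtain ⟨lc, hlc1, hlc2, hlc3⟩ := P.exists_lc (x := x)
  set D := L - Finsupp.single P 1 with hD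
  have hDQ : space D ≤ space (D - Finsupp.single Q 1) := fun v hv => mem_space_sub hv (hcon v hv)
  have rrD := rr_sub C h.rr ⟨σ, hσ, hσP⟩
  have rr2 := hp.rr_nsmul C h.rr 2 (by norm_num)
  have hlQ : 0 < ell (L - Finsupp.single Q 1) := by
    have h3 := ell_add_single_le (x := x) C.hfin (L - Finsupp.single Q 1) Q
    rw [sub_add_cancel] at h3
    omega
  obtain ⟨y, hy, hy0⟩ := exists_ne_zero hlQ
  have rr3 := rr_add C rrD hy0 hy
  have hσσ : lc (L P) σ ≠ 0 := fun h0 => hσP (hlc1 _ _ (mem_space.1 hσ P) h0)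
  have hdec : ∀ v ∈ space L, ∃ u ∈ space D, ∃ c : ℂ, v = u + c • σ := by
    intro v hv
    refine ⟨v - (lc (L P) v / lc (L P) σ) • σ, ?_, lc (L P) v / lc (L P) σ, by ring⟩
    refine mem_space_sub (Submodule.sub_mem _ hv (Submodule.smul_mem _ _ hσ)) ?_
    refine hlc1 _ _ ((P.O _).sub_mem (mem_space.1 hv P)
      ((P.O _).smul_mem _ (mem_space.1 hσ P))) ?_
    rw [map_sub, map_smul, smul_eq_mul, div_mul_cancel₀ _ hσσ, sub_self]
  have hspan := span_mul_of_surj (space L) (space L) (space (2 • L)) (hmul1 L)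
    (koszul_surjective _ _ _ _ (surj_of_dexact (h.dex 0 (by omega))))
  set Y := D + (L - Finsupp.single Q 1) with hY
  have hYeq : Y = D - Finsupp.single Q 1 + L := by rw [hY]; abel
  have hle : space (2 • L) ≤ space Y ⊔ Submodule.span ℂ {σ * σ} := by
    rw [← hspan, Submodule.span_le]
    rintro _ ⟨v, hv, r, hr, rfl⟩
    obtain ⟨u, hu, c, rfl⟩ := hdec v hv
    obtain ⟨u', hu', c', rfl⟩ := hdec r hr
    have hDL : space D ≤ space L := space_mono (sub_le_self _ (single_nonneg P))
    have m1 : u * u' ∈ space Y := by rw [hYeq]; exact space_mul (hDQ hu) (hDL hu')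
    have m2 : u * σ ∈ space Y := by rw [hYeq]; exact space_mul (hDQ hu) hσ
    have m3 : u' * σ ∈ space Y := by rw [hYeq]; exact space_mul (hDQ hu') hσ
    have e : (u + c • σ) * (u' + c' • σ)
        = (u * u' + c' • (u * σ) + c • (u' * σ)) + (c * c') • (σ * σ) := by
      simp only [Algebra.smul_def, map_mul]
      ring
    rw [e]
    exact Submodule.add_mem_sup (Submodule.add_mem _ (Submodule.add_mem _ m1
      (Submodule.smul_mem _ _ m2)) (Submodule.smul_mem _ _ m3))
      (Submodule.smul_mem _ _ (Submodule.mem_span_singleton_self _))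
  have fY := C.hfin Y
  have h5 : ell (2 • L) ≤ ell Y + 1 := by
    calc ell (2 • L) ≤ Module.finrank ℂ ↥(space Y ⊔ Submodule.span ℂ {σ * σ}) :=
          Submodule.finrank_mono hle
      _ ≤ Module.finrank ℂ (space Y) + Module.finrank ℂ (Submodule.span ℂ {σ * σ}) :=
          Submodule.finrank_add_le_finrank_add_finrank _ _
      _ ≤ ell Y + 1 := by
          have h2 : Module.finrank ℂ (Submodule.span ℂ {σ * σ}) ≤ 1 :=
            (finrank_span_le_card {σ * σ}).trans (by simp)
          exact Nat.add_le_add_left h2 _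
  have hdY : degree Y = 2 * degree L - 2 := by
    rw [hY, degree_add, hD, degree_sub_single, degree_sub_single]
    ring
  rw [degree_nsmul] at rr2
  push_cast at rr2
  omega

/-- Inner projection. -/
theorem GoodD.inner (C : Curve x g A D0) {L : Divisor K} {p : ℕ} (h : GoodD g L (p + 1))
    (h2 : 2 ≤ ell L) (P : Place K) : GoodD g (L - Finsupp.single P 1) p := by
  have := C.alg
  obtain ⟨f, G, hp⟩ := h.pencil
  obtain ⟨σ0, hσ0, hσ0P⟩ := hp.exact_at P
  obtain ⟨lc, hlc1, hlc2, hlc3⟩ := P.exists_lc (x := x)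
  set D := L - Finsupp.single P 1 with hD
  have rrD := rr_sub C h.rr ⟨σ0, hσ0, hσ0P⟩
  have hpen := exists_pencil C P (bpf_sub C h h2 P)
  obtain ⟨f', G', hp'⟩ := hpen
  refine ⟨rrD, ⟨f', G', hp'⟩, fun n hn => ?_⟩
  have rr1 := rr_add C h.rr hp'.f0 hp'.memf
  have rr2 := rr_add C rr1 hp'.f0 hp'.memf
  have hex := hp'.dexactB C.hfin h.rr rr1 rr2 n
  -- leading coefficients
  set m := L P with hm
  have hlσ0 : lc m σ0 ≠ 0 := fun h0 => hσ0P (hlc1 _ _ (mem_space.1 hσ0 P) h0)
  set σ := (lc m σ0)⁻¹ • σ0 with hσdef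
  have hσ : σ ∈ space L := Submodule.smul_mem _ _ hσ0
  have hlσ : lc m σ = 1 := by
    rw [hσdef, map_smul, smul_eq_mul, inv_mul_cancel₀ hlσ0]
  have hDL : space D ≤ space L := space_mono (sub_le_self _ (single_nonneg P))
  have hOD : ∀ v ∈ space D, v ∈ P.O (m - 1) := fun v hv => mem_O_of_sub hv
  have hDP : D P = m - 1 := by
    rw [hD, Finsupp.sub_apply, Finsupp.single_eq_same]
  have hdata : InnerData (F := ℂ) (space D) (space L) (space (2 • D)) (space (L + D))
      (space (2 • L)) (space (L + D + D)) σ (lc m) (lc (m + m)) :=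
    { VV' := hDL
      hσ := hσ
      decV := by
        intro v hv
        refine ⟨v - lc m v • σ, ?_, lc m v, by ring⟩
        refine mem_space_sub (Submodule.sub_mem _ hv (Submodule.smul_mem _ _ hσ)) ?_
        refine hlc1 _ _ ((P.O _).sub_mem (mem_space.1 hv P)
          ((P.O _).smul_mem _ (mem_space.1 hσ P))) ?_
        rw [map_sub, map_smul, hlσ, smul_eq_mul, mul_one, sub_self]
      sV := fun v hv => hlc2 m v (hOD v hv)
      sσ := hlσ
      hle := by
        refine space_mono ?_
        rw [two_nsmul]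
        exact add_le_add_left (sub_le_self _ (single_nonneg P)) D
      hle2 := by
        refine space_mono ?_
        rw [two_nsmul]
        exact add_le_add_right (sub_le_self _ (single_nonneg P)) L
      prod := by
        intro v hv r hr
        rw [add_comm L D]
        exact space_mul hv hr
      μ0 := by
        intro r hr
        refine hlc2 (m + m) r ?_
        have h1 := mem_space.1 hr P
        rw [Finsupp.add_apply, hDP] at h1
        have e : m + m - 1 = L P + (m - 1) := by rw [← hm]; ring
        rw [e]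
        exact h1
      μσ := by
        rw [hlc3 m m σ (mem_space.1 hσ P) σ (mem_space.1 hσ P), hlσ, mul_one]
      hσr := by
        intro r hr
        rw [two_nsmul] at hr
        rw [add_assoc]
        exact space_mul hσ hr }
  exact hdata.inner n (h.dex (n + 1) (by omega)) hex

/-- `h^0(L - E) = h^0(L) - deg E` for good bundles; iterated inner projection. -/
theorem GoodD.sub (C : Curve x g A D0) {L : Divisor K} (rrL : (ell L : ℤ) + g = degree L + 1) :
    ∀ Z : Divisor K, 0 ≤ Z → ∀ p q : ℕ, GoodD g L q → (p : ℤ) + degree Z = q →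
      degree Z + 1 ≤ ell L → GoodD g (L - Z) p := by
  refine eff_induction ?_ ?_
  · intro p q h hpq _
    rw [degree_zero, add_zero] at hpq
    have e : p = q := by exact_mod_cast hpq
    rw [sub_zero, e]
    exact h
  · intro Z P hZ ih p q h hpq hell
    rw [degree_add, degree_single] at hpq hell
    have h1 := ih (p + 1) q h (by push_cast; omega) (by omega)
    rw [sub_add_eq_sub_sub]
    refine h1.inner C ?_ P
    have h2 := h1.rr
    have h3 : degree L = degree (L - Z) + degree Z := by
      rw [← degree_add, sub_add_cancel]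
    omega

end PoolNP
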