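import Pool.Agent.helper43.NP.Reg

/-!
Ranks of the Koszul differentials.
-/

open scoped TensorProduct

namespace PoolNP

open Finset

section Abstract

theorem sep_top' {F E : Type*} [Field F] [AddCommGroup E] [Module F E] {S : Submodule F E}
    (h : ∀ lam : E →ₗ[F] F, (∀ s ∈ S, lam s = 0) → lam = 0) : S = ⊤ := by
  rw [Submodule.eq_top_iff']
  intro ζ
  by_contra hn
  obtain ⟨lam, hlam, hle⟩ := Submodule.exists_le_ker_of_notMem hn
  apply hlam
  rw [h lam fun s hs => LinearMap.mem_ker.1 (hle hs), LinearMap.zero_apply]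

theorem complex_rank_le' {F E G H : Type*} [Field F] [AddCommGroup E] [Module F E]
    [AddCommGroup G] [Module F G] [AddCommGroup H] [Module F H]
    [Module.Finite F G] (f : E →ₗ[F] G) (g : G →ₗ[F] H)
    (hgf : ∀ y, g (f y) = 0) :
    Module.finrank F (LinearMap.range f) + Module.finrank F (LinearMap.range g)
      ≤ Module.finrank F G := by
  rw [← LinearMap.finrank_range_add_finrank_ker g, add_comm]
  refine Nat.add_le_add_left (Submodule.finrank_mono ?_) _
  rintro _ ⟨ζ, rfl⟩
  exact LinearMap.mem_ker.2 (hgf ζ)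

theorem complex_exact_iff' {F E G H : Type*} [Field F] [AddCommGroup E] [Module F E]
    [AddCommGroup G] [Module F G] [AddCommGroup H] [Module F H]
    [Module.Finite F G] (f : E →ₗ[F] G) (g : G →ₗ[F] H)
    (hgf : ∀ y, g (f y) = 0) :
    Function.Exact f g ↔ Module.finrank F (LinearMap.range f) + Module.finrank F (LinearMap.range g)
      = Module.finrank F G := by
  rw [← LinearMap.finrank_range_add_finrank_ker g, add_comm, Nat.add_left_cancel_iff,
    LinearMap.exact_iff]
  constructor
  · intro h
    rw [h]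
  · intro h
    refine (Submodule.eq_of_le_of_finrank_eq ?_ h).symm
    rintro _ ⟨ζ, rfl⟩
    exact LinearMap.mem_ker.2 (hgf ζ)

theorem surj_iff' {F E G : Type*} [Field F] [AddCommGroup E] [Module F E]
    [AddCommGroup G] [Module F G] [Module.Finite F G] (f : E →ₗ[F] G) :
    Function.Surjective f ↔ Module.finrank F (LinearMap.range f) = Module.finrank F G := by
  rw [← LinearMap.range_eq_top]
  constructor
  · intro h
    rw [h, finrank_top]
  · intro h
    exact Submodule.eq_top_of_finrank_eq h

theorem range_rank_le' {F E G : Type*} [Field F] [AddCommGroup E] [Module F E]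
    [AddCommGroup G] [Module F G] [Module.Finite F G] (f : E →ₗ[F] G) :
    Module.finrank F (LinearMap.range f) ≤ Module.finrank F G :=
  Submodule.finrank_le _

variable {F E G H : Type*} [Field F] [iE : AddCommMonoid E] [Module F E] [iG : AddCommMonoid G]
  [Module F G] [iH : AddCommMonoid H] [Module F H]

theorem sep_top {S : Submodule F E}
    (h : ∀ lam : E →ₗ[F] F, (∀ s ∈ S, lam s = 0) → lam = 0) : S = ⊤ := by
  letI : AddCommGroup E := Module.addCommMonoidToAddCommGroup F
  exact sep_top' h

theorem complex_rank_le [Module.Finite F G] (f : E →ₗ[F] G) (g : G →ₗ[F] H)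
    (hgf : ∀ y, g (f y) = 0) :
    Module.finrank F (LinearMap.range f) + Module.finrank F (LinearMap.range g)
      ≤ Module.finrank F G := by
  letI : AddCommGroup E := Module.addCommMonoidToAddCommGroup F
  letI : AddCommGroup G := Module.addCommMonoidToAddCommGroup F
  letI : AddCommGroup H := Module.addCommMonoidToAddCommGroup F
  exact complex_rank_le' f g hgf

theorem complex_exact_iff [Module.Finite F G] (f : E →ₗ[F] G) (g : G →ₗ[F] H)
    (hgf : ∀ y, g (f y) = 0) :
    Function.Exact f g ↔ Module.finrank F (LinearMap.range f) + Module.finrank F (LinearMap.range g)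
      = Module.finrank F G := by
  letI : AddCommGroup E := Module.addCommMonoidToAddCommGroup F
  letI : AddCommGroup G := Module.addCommMonoidToAddCommGroup F
  letI : AddCommGroup H := Module.addCommMonoidToAddCommGroup F
  exact complex_exact_iff' f g hgf

theorem surj_iff [Module.Finite F G] (f : E →ₗ[F] G) :
    Function.Surjective f ↔ Module.finrank F (LinearMap.range f) = Module.finrank F G := by
  letI : AddCommGroup E := Module.addCommMonoidToAddCommGroup F
  letI : AddCommGroup G := Module.addCommMonoidToAddCommGroup F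
  exact surj_iff' f

theorem range_rank_le [Module.Finite F G] (f : E →ₗ[F] G) :
    Module.finrank F (LinearMap.range f) ≤ Module.finrank F G := by
  letI : AddCommGroup E := Module.addCommMonoidToAddCommGroup F
  letI : AddCommGroup G := Module.addCommMonoidToAddCommGroup F
  exact range_rank_le' f

end Abstract

section Rank

variable {F A : Type*} [Field F] [CommRing A] [Algebra F A]

variable (F A) in
/-- The Koszul differential of the whole algebra. -/
noncomputable def dK (i : ℕ) : (⋀[F]^(i + 1) A) ⊗[F] A →ₗ[F] (⋀[F]^i A) ⊗[F] A :=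
  koszulGen (exteriorPower.ιMulti F i) (LinearMap.mul F A)

theorem dK_apply (i : ℕ) (v : Fin (i + 1) → A) (r : A) :
    dK F A i (exteriorPower.ιMulti F (i + 1) v ⊗ₜ[F] r)
      = ∑ l : Fin (i + 1), (-1 : F) ^ (l : ℕ) •
        ((exteriorPower.ιMulti F i (Fin.removeNth l v)) ⊗ₜ[F] (v l * r)) :=
  koszulGen_apply _ _ _ _

/-- A type synonym for `⋀^i A ⊗ A`. -/
def Amb (F A : Type*) [Field F] [CommRing A] [Algebra F A] (i : ℕ) : Type _ :=
  (⋀[F]^i A) ⊗[F] A

noncomputable instance instAddCommMonoidAmb (F A : Type*) [Field F] [CommRing A] [Algebra F A]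
    (i : ℕ) : AddCommMonoid (Amb F A i) :=
  inferInstanceAs (AddCommMonoid ((⋀[F]^i A) ⊗[F] A))

noncomputable instance instModuleAmb (F A : Type*) [Field F] [CommRing A] [Algebra F A]
    (i : ℕ) : Module F (Amb F A i) :=
  inferInstanceAs (Module F ((⋀[F]^i A) ⊗[F] A))

variable (F A) in
/-- The identity. -/
noncomputable def toAmb (i : ℕ) : (⋀[F]^i A) ⊗[F] A →ₗ[F] Amb F A i where
  toFun x := x
  map_add' _ _ := rfl
  map_smul' _ _ := rfl

theorem toAmb_injective (i : ℕ) : Function.Injective (toAmb F A i) := fun _ _ h => h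

variable (F A) in
/-- The Koszul differential with values in `Amb`. -/
noncomputable def dA (i : ℕ) : (⋀[F]^(i + 1) A) ⊗[F] A →ₗ[F] Amb F A i :=
  toAmb F A i ∘ₗ dK F A i

variable (F) in
/-- The images of the decomposable elements `(w_0 ∧ ⋯ ∧ w_i) ⊗ r`, `w_l ∈ V`, `r ∈ M`. -/
def kSet (i : ℕ) (V M : Set A) : Set (Amb F A i) :=
  {s | ∃ (w : Fin (i + 1) → A) (r : A), (∀ l, w l ∈ V) ∧ r ∈ M ∧
    s = dA F A i (exteriorPower.ιMulti F (i + 1) w ⊗ₜ[F] r)}

/-- `⋀^i V ⊗ N → ⋀^i A ⊗ A`. -/
noncomputable def embed (i : ℕ) (V N : Submodule F A) :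
    (⋀[F]^i V) ⊗[F] N →ₗ[F] (⋀[F]^i A) ⊗[F] A :=
  TensorProduct.map (exteriorPower.map i V.subtype) N.subtype

theorem embed_injective (i : ℕ) (V N : Submodule F A) : Function.Injective (embed i V N) := by
  obtain ⟨π, hπ⟩ := V.subtype.exists_leftInverse_of_injective (Submodule.ker_subtype V)
  obtain ⟨ρ, hρ⟩ := N.subtype.exists_leftInverse_of_injective (Submodule.ker_subtype N)
  have h1 : TensorProduct.map (exteriorPower.map i π) ρ ∘ₗ embed i V N = LinearMap.id := by
    rw [embed, ← TensorProduct.map_comp, ← exteriorPower.map_comp, hπ, hρ, exteriorPower.map_id,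
      TensorProduct.map_id]
  intro a b hab
  have h2 := LinearMap.congr_fun h1 a
  have h3 := LinearMap.congr_fun h1 b
  rw [LinearMap.comp_apply, LinearMap.id_apply] at h2 h3
  rw [← h2, ← h3, hab]

theorem decomp_top {V M : Submodule F A} {n : ℕ} {S : Submodule F ((⋀[F]^n V) ⊗[F] M)}
    (h : ∀ (w : Fin n → V) (r : M), exteriorPower.ιMulti F n w ⊗ₜ[F] r ∈ S) : S = ⊤ := by
  refine sep_top fun lam hlam => ?_
  refine ext_decomp fun w r => ?_
  rw [LinearMap.zero_apply]
  exact hlam _ (h w r)

theorem embed_koszul (V M N : Submodule F A) (h : ∀ v ∈ V, ∀ r ∈ M, v * r ∈ N) (i : ℕ)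
    (w : Fin (i + 1) → V) (r : M) :
    embed i V N (koszul V M N h i (exteriorPower.ιMulti F (i + 1) w ⊗ₜ[F] r))
      = dK F A i (exteriorPower.ιMulti F (i + 1) (fun l => (w l : A)) ⊗ₜ[F] (r : A)) := by
  rw [koszul_apply, dK_apply, map_sum]
  refine sum_congr rfl fun l _ => ?_
  rw [map_smul, embed, TensorProduct.map_tmul, exteriorPower.map_apply_ιMulti]
  rfl

theorem embedA_injective (i : ℕ) (V N : Submodule F A) :
    Function.Injective (toAmb F A i ∘ₗ embed i V N) :=
  (toAmb_injective i).comp (embed_injective i V N)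

theorem map_range_koszul (V M N : Submodule F A) (h : ∀ v ∈ V, ∀ r ∈ M, v * r ∈ N) (i : ℕ) :
    (LinearMap.range (koszul V M N h i)).map (toAmb F A i ∘ₗ embed i V N)
      = Submodule.span F (kSet F i (V : Set A) (M : Set A)) := by
  apply le_antisymm
  · rw [← LinearMap.range_comp, LinearMap.range_eq_map, Submodule.map_le_iff_le_comap,
      top_le_iff]
    refine decomp_top fun w r => ?_
    rw [Submodule.mem_comap, LinearMap.comp_apply, LinearMap.comp_apply, embed_koszul]
    exact Submodule.subset_span ⟨fun l => (w l : A), r, fun l => (w l).2, r.2, rfl⟩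
  · rw [Submodule.span_le]
    rintro s ⟨w, r, hw, hr, rfl⟩
    refine ⟨koszul V M N h i (exteriorPower.ιMulti F (i + 1) (fun l => ⟨w l, hw l⟩) ⊗ₜ[F]
      ⟨r, hr⟩), LinearMap.mem_range_self _ _, ?_⟩
    rw [LinearMap.comp_apply, embed_koszul]
    rfl

theorem finrank_range_koszul (V M N : Submodule F A) (h : ∀ v ∈ V, ∀ r ∈ M, v * r ∈ N) (i : ℕ) :
    Module.finrank F (LinearMap.range (koszul V M N h i))
      = Module.finrank F (Submodule.span F (kSet F i (V : Set A) (M : Set A))) := by
  rw [← map_range_koszul V M N h i]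
  exact LinearEquiv.finrank_eq (Submodule.equivMapOfInjective _ (embedA_injective i V N) _)

theorem finite_kSet (V M : Submodule F A) [FiniteDimensional F V] [FiniteDimensional F M]
    (i : ℕ) : Module.Finite F (Submodule.span F (kSet F i (V : Set A) (M : Set A))) := by
  rw [← map_range_koszul V M ⊤ (fun _ _ _ _ => Submodule.mem_top) i]
  infer_instance

theorem finrank_dom (V M : Submodule F A) [FiniteDimensional F V] [FiniteDimensional F M]
    (i : ℕ) : Module.finrank F ((⋀[F]^i V) ⊗[F] M)
      = (Module.finrank F V).choose i * Module.finrank F M := by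
  rw [Module.finrank_tensorProduct, exteriorPower.finrank_eq]

theorem rank_add_le (V M0 M1 M2 : Submodule F A) [FiniteDimensional F V]
    [FiniteDimensional F M1] (h0 : ∀ v ∈ V, ∀ r ∈ M0, v * r ∈ M1)
    (h1 : ∀ v ∈ V, ∀ r ∈ M1, v * r ∈ M2) (i : ℕ) :
    Module.finrank F (Submodule.span F (kSet F (i + 1) (V : Set A) (M0 : Set A)))
      + Module.finrank F (Submodule.span F (kSet F i (V : Set A) (M1 : Set A)))
      ≤ (Module.finrank F V).choose (i + 1) * Module.finrank F M1 := by
  rw [← finrank_range_koszul V M0 M1 h0 (i + 1), ← finrank_range_koszul V M1 M2 h1 i,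
    ← finrank_dom V M1 (i + 1)]
  exact complex_rank_le (koszul V M0 M1 h0 (i + 1)) (koszul V M1 M2 h1 i)
    (koszul_koszul V M0 M1 M2 h0 h1 i)

theorem exact_iff_rank (V M0 M1 M2 : Submodule F A) [FiniteDimensional F V]
    [FiniteDimensional F M1] (h0 : ∀ v ∈ V, ∀ r ∈ M0, v * r ∈ M1)
    (h1 : ∀ v ∈ V, ∀ r ∈ M1, v * r ∈ M2) (i : ℕ) :
    Function.Exact (koszul V M0 M1 h0 (i + 1)) (koszul V M1 M2 h1 i) ↔
    Module.finrank F (Submodule.span F (kSet F (i + 1) (V : Set A) (M0 : Set A)))
      + Module.finrank F (Submodule.span F (kSet F i (V : Set A) (M1 : Set A)))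
      = (Module.finrank F V).choose (i + 1) * Module.finrank F M1 := by
  rw [← finrank_range_koszul V M0 M1 h0 (i + 1), ← finrank_range_koszul V M1 M2 h1 i,
    ← finrank_dom V M1 (i + 1)]
  exact complex_exact_iff (koszul V M0 M1 h0 (i + 1)) (koszul V M1 M2 h1 i)
    (koszul_koszul V M0 M1 M2 h0 h1 i)

theorem surj_iff_rank (V M N : Submodule F A) [FiniteDimensional F V]
    [FiniteDimensional F N] (h : ∀ v ∈ V, ∀ r ∈ M, v * r ∈ N) :
    Function.Surjective (koszul V M N h 0) ↔
    Module.finrank F (Submodule.span F (kSet F 0 (V : Set A) (M : Set A)))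
      = Module.finrank F N := by
  have e := finrank_dom V N 0
  rw [Nat.choose_zero_right, one_mul] at e
  rw [← finrank_range_koszul V M N h 0, ← e]
  exact surj_iff (koszul V M N h 0)

theorem rank_zero_le (V M N : Submodule F A) [FiniteDimensional F V]
    [FiniteDimensional F N] (h : ∀ v ∈ V, ∀ r ∈ M, v * r ∈ N) :
    Module.finrank F (Submodule.span F (kSet F 0 (V : Set A) (M : Set A)))
      ≤ Module.finrank F N := by
  have e := finrank_dom V N 0
  rw [Nat.choose_zero_right, one_mul] at e
  rw [← finrank_range_koszul V M N h 0, ← e]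
  exact range_rank_le (koszul V M N h 0)

/-- enlarging `M` to its span does not change the span of `kSet`. -/
theorem span_kSet_span (i : ℕ) (V M : Set A) :
    Submodule.span F (kSet F i V (Submodule.span F M : Submodule F A))
      = Submodule.span F (kSet F i V M) := by
  apply le_antisymm
  · rw [Submodule.span_le]
    rintro s ⟨w, r, hw, hr, rfl⟩
    have key : ∀ r ∈ Submodule.span F M, dA F A i (exteriorPower.ιMulti F (i + 1) w ⊗ₜ[F] r)
        ∈ Submodule.span F (kSet F i V M) := by
      intro r hr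
      induction hr using Submodule.span_induction with
      | mem r hr => exact Submodule.subset_span ⟨w, r, hw, hr, rfl⟩
      | zero =>
        rw [TensorProduct.tmul_zero, map_zero]
        exact Submodule.zero_mem _
      | add a b _ _ ha hb =>
        rw [TensorProduct.tmul_add, map_add]
        exact Submodule.add_mem _ ha hb
      | smul c a _ ha =>
        rw [TensorProduct.tmul_smul, map_smul]
        exact Submodule.smul_mem _ _ ha
    exact key r hr
  · refine Submodule.span_mono ?_
    rintro s ⟨w, r, hw, hr, rfl⟩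
    exact ⟨w, r, hw, Submodule.subset_span hr, rfl⟩

theorem kSet_mono (i : ℕ) {V V' M M' : Set A} (hV : V ⊆ V') (hM : M ⊆ M') :
    kSet F i V M ⊆ kSet F i V' M' := by
  rintro s ⟨w, r, hw, hr, rfl⟩
  exact ⟨w, r, fun l => hV (hw l), hM hr, rfl⟩

/-- if `V ⊗ M → N` is surjective, `N` is spanned by the products. -/
theorem span_mul_of_surj (V M N : Submodule F A) (h : ∀ v ∈ V, ∀ r ∈ M, v * r ∈ N)
    (hs : Function.Surjective (koszul V M N h 0)) :
    Submodule.span F {y : A | ∃ v ∈ V, ∃ r ∈ M, y = v * r} = N := by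
  apply le_antisymm
  · rw [Submodule.span_le]
    rintro y ⟨v, hv, r, hr, rfl⟩
    exact h v hv r hr
  · intro y hy
    by_contra hn
    obtain ⟨lam, hlam, hle⟩ := Submodule.exists_le_ker_of_notMem hn
    apply hlam
    have hl : ∀ v ∈ V, ∀ r ∈ M, lam (v * r) = 0 := fun v hv r hr =>
      LinearMap.mem_ker.1 (hle (Submodule.subset_span ⟨v, hv, r, hr, rfl⟩))
    set ψ : A [⋀^Fin 0]→ₗ[F] (A →ₗ[F] F) := AlternatingMap.constOfIsEmpty F A (Fin 0) lam with hψ
    have h1 : ofAlt V N ψ ∘ₗ koszul V M N h 0 = 0 := by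
      rw [ofAlt_comp_koszul]
      refine ext_decomp fun w r => ?_
      rw [ofAlt_apply, dd_apply]
      simp only [Nat.reduceAdd, Finset.univ_unique, Fin.default_eq_zero, Fin.isValue,
        Fin.val_eq_zero, pow_zero, one_mul, sum_singleton]
      exact hl _ (w 0).2 r r.2
    obtain ⟨η, hη⟩ := hs (exteriorPower.ιMulti F 0 (fun l => Fin.elim0 l) ⊗ₜ[F] (⟨y, hy⟩ : N))
    have h2 := LinearMap.congr_fun h1 η
    rw [LinearMap.comp_apply, hη, ofAlt_apply] at h2
    exact h2

end Rank

end PoolNP
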