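import Pool.Agent.helper43.NP.Princ
import Pool.Agent.helper43.NP.Bundle

/-!
Reduction by a pencil `F, G` without common zeros; the vanishing of `K_{i,j}`, `j ≥ 3`.
-/

namespace PoolNP

open Finset

section

variable {F A : Type*} [Field F] [Field A] [Algebra F A]

theorem exists_lam2 (M0 M1 : Submodule F A) (f G : A)
    (hG : ∀ r ∈ M1, ∀ r' ∈ M1, G * r = f * r' → ∃ r0 ∈ M0, r = f * r0) :
    ∃ lam : A →ₗ[F] A, (∀ r ∈ M1, ∃ r0 ∈ M0, lam (G * r) - r = f * r0) ∧
      ∀ r ∈ M1, lam (f * r) = 0 := by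
  let N := M1.map (LinearMap.mulLeft F f)
  let u : M1 →ₗ[F] A ⧸ N := N.mkQ ∘ₗ LinearMap.mulLeft F G ∘ₗ M1.subtype
  obtain ⟨h, hh⟩ := u.rangeRestrict.exists_rightInverse_of_surjective
    (LinearMap.range_rangeRestrict u)
  obtain ⟨g, hg⟩ := LinearMap.exists_extend h
  refine ⟨M1.subtype ∘ₗ g ∘ₗ N.mkQ, ?_, ?_⟩
  · intro r hr
    have h1 : u (g (u ⟨r, hr⟩)) = u ⟨r, hr⟩ := by
      have e1 : g (u ⟨r, hr⟩) = h (u.rangeRestrict ⟨r, hr⟩) := by
        rw [← hg]; rfl
      rw [e1]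
      have e2 := LinearMap.congr_fun hh (u.rangeRestrict ⟨r, hr⟩)
      exact congrArg Subtype.val e2
    have h2 : u (g (u ⟨r, hr⟩) - ⟨r, hr⟩) = 0 := by rw [map_sub, h1, sub_self]
    have h3 : G * ((g (u ⟨r, hr⟩) : A) - r) ∈ N := by
      have : N.mkQ (G * ((g (u ⟨r, hr⟩) : A) - r)) = 0 := h2
      rwa [Submodule.mkQ_apply, Submodule.Quotient.mk_eq_zero] at this
    obtain ⟨r', hr', hrr'⟩ := h3
    exact hG _ (M1.sub_mem (g (u ⟨r, hr⟩)).2 hr) r' hr' hrr'.symm
  · intro r hr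
    have : N.mkQ (f * r) = 0 := by
      rw [Submodule.mkQ_apply, Submodule.Quotient.mk_eq_zero]
      exact ⟨r, hr, rfl⟩
    simp [this]

theorem reduce2 {n : ℕ} (V M0 M1 : Submodule F A) (f G : A) (hf : f ≠ 0) (hfV : f ∈ V)
    (hGV : G ∈ V)
    (hVM : ∀ v ∈ V, ∀ r ∈ M0, v * r ∈ M1)
    (hG : ∀ r ∈ M1, ∀ r' ∈ M1, G * r = f * r' → ∃ r0 ∈ M0, r = f * r0)
    (hkill : ∀ φ : A [⋀^Fin (n + 1)]→ₗ[F] (A →ₗ[F] F),
      (∀ w : Fin (n + 1) → A, (∀ l, w l ∈ V) → ∀ r ∈ M0, φ w (f * r) = 0) →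
      (∀ w : Fin (n + 1) → A, (∀ l, w l ∈ V) → ∀ r ∈ M0, φ w (G * r) = 0) →
      ∀ w : Fin (n + 1) → A, (∀ l, w l ∈ V) → ∀ r ∈ M1, φ w r = 0)
    (φ : A [⋀^Fin (n + 1)]→ₗ[F] (A →ₗ[F] F))
    (hφ : ∀ w : Fin (n + 2) → A, (∀ l, w l ∈ V) → ∀ r ∈ M0, dd φ w r = 0) :
    ∃ ψ : A [⋀^Fin n]→ₗ[F] (A →ₗ[F] F),
      ∀ w : Fin (n + 1) → A, (∀ l, w l ∈ V) → ∀ r ∈ M1, φ w r = dd ψ w r := by
  obtain ⟨lam, hl1, hl2⟩ := exists_lam2 M0 M1 f G hG
  have hup : ∀ (w : Fin (n + 1) → A), (∀ l, w l ∈ V) → ∀ (l : Fin (n + 1)) (v : A), v ∈ V →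
      ∀ l', Function.update w l v l' ∈ V := by
    intro w hw l v hv l'
    by_cases h : l' = l
    · subst h; simpa using hv
    · simpa [Function.update_of_ne h] using hw l'
  -- first reduction
  set ψ1 : A [⋀^Fin n]→ₗ[F] (A →ₗ[F] F) :=
    (LinearMap.lcomp F F (LinearMap.mulLeft F f⁻¹)).compAlternatingMap (φ.curryLeft f) with hψ1
  set φ1 : A [⋀^Fin (n + 1)]→ₗ[F] (A →ₗ[F] F) := φ - dd ψ1 with hφ1
  have hφ1c : ∀ w r, dd φ1 w r = dd φ w r := by
    intro w r
    rw [hφ1, dd_sub, AlternatingMap.sub_apply, LinearMap.sub_apply, dd_dd]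
    simp
  have hφ1k : ∀ w : Fin (n + 1) → A, (∀ l, w l ∈ V) → ∀ r ∈ M0, φ1 w (f * r) = 0 := by
    intro w hw r hr
    have h1 := dd_cons φ f w r
    rw [hφ (Matrix.vecCons f w) (by
      intro l
      refine Fin.cases ?_ (fun l => ?_) l
      · simpa using hfV
      · simpa using hw l) r hr] at h1
    rw [hφ1, AlternatingMap.sub_apply, LinearMap.sub_apply, hψ1, dd_curry, h1]
    congr 1
    refine sum_congr rfl fun l _ => ?_
    congr 1
    rw [LinearMap.mulLeft_apply]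
    field_simp
  -- second reduction
  set ψ2 : A [⋀^Fin n]→ₗ[F] (A →ₗ[F] F) :=
    (LinearMap.lcomp F F lam).compAlternatingMap (φ1.curryLeft G) with hψ2
  set φ2 : A [⋀^Fin (n + 1)]→ₗ[F] (A →ₗ[F] F) := φ1 - dd ψ2 with hφ2
  have hk0 : ∀ w : Fin (n + 1) → A, (∀ l, w l ∈ V) → ∀ r ∈ M0, φ2 w (f * r) = 0 := by
    intro w hw r hr
    rw [hφ2, AlternatingMap.sub_apply, LinearMap.sub_apply, hφ1k w hw r hr, hψ2, dd_curry,
      zero_sub, neg_eq_zero]
    refine sum_eq_zero fun l _ => ?_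
    have e : w l * (f * r) = f * (w l * r) := by ring
    rw [e, hl2 _ (hVM _ (hw l) r hr), map_zero]
  have hk1 : ∀ w : Fin (n + 1) → A, (∀ l, w l ∈ V) → ∀ r ∈ M0, φ2 w (G * r) = 0 := by
    intro w hw r hr
    have h1 := dd_cons φ1 G w r
    rw [hφ1c, hφ (Matrix.vecCons G w) (by
      intro l
      refine Fin.cases ?_ (fun l => ?_) l
      · simpa using hGV
      · simpa using hw l) r hr] at h1
    rw [hφ2, AlternatingMap.sub_apply, LinearMap.sub_apply, hψ2, dd_curry]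
    rw [eq_comm, sub_eq_zero] at h1
    rw [h1, sub_eq_zero]
    refine sum_congr rfl fun l _ => ?_
    have h2 : w l * (G * r) = G * (w l * r) := by ring
    obtain ⟨r0, hr0, hrr⟩ := hl1 (w l * r) (hVM _ (hw l) r hr)
    have h3 := hφ1k _ (hup w hw l G hGV) _ hr0
    rw [← hrr, map_sub, sub_eq_zero] at h3
    rw [h2, h3]
  refine ⟨ψ1 + ψ2, fun w hw r hr => ?_⟩
  have hz := hkill φ2 hk0 hk1 w hw r hr
  have hadd : dd (ψ1 + ψ2) w r = dd ψ1 w r + dd ψ2 w r := by
    simp only [dd_apply, AlternatingMap.add_apply, LinearMap.add_apply, mul_add,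
      Finset.sum_add_distrib]
  rw [hφ2, hφ1, AlternatingMap.sub_apply, LinearMap.sub_apply, AlternatingMap.sub_apply,
    LinearMap.sub_apply] at hz
  rw [hadd]
  linear_combination hz

end

variable {K : Type*} [Field K] [Algebra ℂ K]

/-- `f, G` are sections of `L` without common zeros. -/
structure IsPencil (L : Divisor K) (f G : K) : Prop where
  f0 : f ≠ 0
  G0 : G ≠ 0
  memf : f ∈ space L
  memG : G ∈ space L
  free : ∀ P : Place K, f ∉ P.O (L P - 1) ∨ G ∉ P.O (L P - 1)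

namespace IsPencil

variable {L : Divisor K} {f G : K}

theorem symm (h : IsPencil L f G) : IsPencil L G f :=
  ⟨h.G0, h.f0, h.memG, h.memf, fun P => (h.free P).symm⟩

/-- Division: if `G a = f b` with `a ∈ H^0(B + L)`, `b ∈ H^0(B + L)` then `a = f c`,
`c ∈ H^0(B)`. -/
theorem div (h : IsPencil L f G) {B : Divisor K} {a b : K} (ha : a ∈ space (B + L))
    (hb : b ∈ space (B + L)) (hab : G * a = f * b) : ∃ c ∈ space B, a = f * c := by
  refine ⟨a / f, ?_, by rw [mul_div_cancel₀ _ h.f0]⟩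
  by_cases ha0 : a = 0
  · rw [ha0, zero_div]; exact Submodule.zero_mem _
  have hb0 : b ≠ 0 := by
    rintro rfl
    rw [mul_zero] at hab
    exact (mul_ne_zero h.G0 ha0) hab
  rw [mem_space] at ha hb ⊢
  intro P
  rw [Place.mem_O_of_ne (div_ne_zero ha0 h.f0)]
  have h1 := ha P
  have h2 := hb P
  rw [Place.mem_O_of_ne ha0, Finsupp.add_apply] at h1
  rw [Place.mem_O_of_ne hb0, Finsupp.add_apply] at h2
  rcases h.free P with h3 | h3
  · rw [Place.mem_O_of_ne h.f0] at h3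
    rw [div_eq_mul_inv, P.ord_mul _ _ ha0 (inv_ne_zero h.f0), P.ord_inv h.f0]
    omega
  · rw [Place.mem_O_of_ne h.G0] at h3
    have h4 := congrArg P.ord hab
    rw [P.ord_mul _ _ h.G0 ha0, P.ord_mul _ _ h.f0 hb0] at h4
    rw [div_eq_mul_inv, P.ord_mul _ _ ha0 (inv_ne_zero h.f0), P.ord_inv h.f0]
    omega

/-- `H^0(B + 2 L) = f H^0(B + L) + G H^0(B + L)` if the `h^1` vanish. -/
theorem gen (h : IsPencil L f G) {g : ℕ} (hfin : ∀ D : Divisor K, FiniteDimensional ℂ (space D))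
    {B : Divisor K} (h0 : (ell B : ℤ) + g = degree B + 1)
    (h1 : (ell (B + L) : ℤ) + g = degree (B + L) + 1)
    (h2 : (ell (B + L + L) : ℤ) + g = degree (B + L + L) + 1) :
    ∀ c ∈ space (B + L + L), ∃ a ∈ space (B + L), ∃ b ∈ space (B + L), c = f * a + G * b := by
  have := hfin B
  have := hfin (B + L)
  have := hfin (B + L + L)
  have inj : ∀ y : K, y ≠ 0 → Function.Injective (LinearMap.mulLeft ℂ y) := by
    intro y hy a b hab
    exact mul_left_cancel₀ hy hab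
  set U1 := (space (B + L)).map (LinearMap.mulLeft ℂ f) with hU1
  set U2 := (space (B + L)).map (LinearMap.mulLeft ℂ G) with hU2
  set U0 := (space B).map (LinearMap.mulLeft ℂ (f * G)) with hU0
  have f1 : Module.finrank ℂ U1 = ell (B + L) :=
    (LinearEquiv.finrank_eq (Submodule.equivMapOfInjective _ (inj f h.f0) (space (B + L)))).symm
  have f2 : Module.finrank ℂ U2 = ell (B + L) :=
    (LinearEquiv.finrank_eq (Submodule.equivMapOfInjective _ (inj G h.G0) (space (B + L)))).symm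
  have f0 : Module.finrank ℂ U0 = ell B :=
    (LinearEquiv.finrank_eq (Submodule.equivMapOfInjective _ (inj (f * G)
      (mul_ne_zero h.f0 h.G0)) (space B))).symm
  have hinf : U1 ⊓ U2 = U0 := by
    apply le_antisymm
    · rintro _ ⟨⟨b, hb, rfl⟩, a, ha, hab⟩
      have hab' : G * a = f * b := hab
      obtain ⟨c, hc, rfl⟩ := h.div ha hb hab'
      refine ⟨c, hc, ?_⟩
      change f * G * c = f * b
      rw [← hab']
      ring
    · rintro _ ⟨c, hc, rfl⟩
      refine ⟨⟨c * G, space_mul hc h.memG, ?_⟩, ⟨c * f, space_mul hc h.memf, ?_⟩⟩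
      · change f * (c * G) = f * G * c
        ring
      · change G * (c * f) = f * G * c
        ring
  have hsup : U1 ⊔ U2 ≤ space (B + L + L) := by
    refine sup_le ?_ ?_
    · rintro _ ⟨b, hb, rfl⟩
      change f * b ∈ _
      rw [mul_comm]
      exact space_mul hb h.memf
    · rintro _ ⟨b, hb, rfl⟩
      change G * b ∈ _
      rw [mul_comm]
      exact space_mul hb h.memG
  have hd := Submodule.finrank_sup_add_finrank_inf_eq U1 U2
  rw [hinf, f1, f2, f0] at hd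
  rw [degree_add, degree_add] at h2
  rw [degree_add] at h1
  have heq : U1 ⊔ U2 = space (B + L + L) := by
    refine Submodule.eq_of_le_of_finrank_eq hsup ?_
    change Module.finrank ℂ ↥(U1 ⊔ U2) = ell (B + L + L)
    omega
  intro c hc
  rw [← heq] at hc
  obtain ⟨_, ⟨a, ha, rfl⟩, _, ⟨b, hb, rfl⟩, rfl⟩ := Submodule.mem_sup.1 hc
  exact ⟨a, ha, b, hb, rfl⟩

/-- Vanishing of `K_{n,j+1}`, `j ≥ 2`, in dual form. -/
theorem dexact (h : IsPencil L f G) {g : ℕ}
    (hfin : ∀ D : Divisor K, FiniteDimensional ℂ (space D))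
    (hell : ∀ j : ℕ, 1 ≤ j → (ell (j • L) : ℤ) + g = degree (j • L) + 1)
    {j : ℕ} (hj : 2 ≤ j) (n : ℕ) :
    DExact (F := ℂ) (space L) (space (j • L)) (space ((j + 1) • L)) n := by
  obtain ⟨i, rfl⟩ : ∃ i, j = i + 1 := ⟨j - 1, by omega⟩
  have hi : 1 ≤ i := by omega
  have e1 : (i + 1) • L = i • L + L := succ_nsmul L i
  have e2 : (i + 1 + 1) • L = i • L + L + L := by rw [succ_nsmul, e1]
  have a0 := hell i hi
  have a1 := hell (i + 1) (by omega)
  have a2 := hell (i + 1 + 1) (by omega)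
  rw [e1] at a1
  rw [e2] at a2
  have hgen := h.gen hfin a0 a1 a2
  rw [e1, e2]
  cases n with
  | zero =>
    intro φ hφ w r hr
    obtain ⟨a, ha, b, hb, rfl⟩ := hgen r hr
    have key : ∀ v ∈ space L, ∀ r ∈ space (i • L + L), φ w (v * r) = 0 := by
      intro v hv r hr
      have h1 := hφ (fun _ => v) (fun _ => hv) r hr
      rw [dd_apply] at h1
      simp only [Nat.reduceAdd, Finset.univ_unique, Fin.default_eq_zero, Fin.isValue,
        Fin.val_eq_zero, pow_zero, one_mul, sum_singleton] at h1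
      have e : Fin.removeNth (0 : Fin 1) (fun _ => v) = w := by
        funext l; exact l.elim0
      rw [e] at h1
      exact h1
    rw [map_add, key f h.memf a ha, key G h.memG b hb, add_zero]
  | succ n =>
    intro φ hφ
    refine reduce2 (space L) (space (i • L + L)) (space (i • L + L + L)) f G h.f0 h.memf h.memG
      ?_ ?_ ?_ φ hφ
    · intro v hv r hr
      rw [mul_comm]
      exact space_mul hr hv
    · intro r hr r' hr' hrr
      exact h.div hr hr' hrr
    · intro φ' hk0 hk1 w hw r hr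
      obtain ⟨a, ha, b, hb, rfl⟩ := hgen r hr
      rw [map_add, hk0 w hw a ha, hk1 w hw b hb, add_zero]

end IsPencil

end PoolNP
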