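import Pool.Agent.helper43.NP.Reduce2

/-!
Semicontinuity: families of vectors depending algebraically on a point of the curve.
-/

namespace PoolNP

open Finset

variable {K : Type*} [Field K] [Algebra ℂ K]

/-- `ρ` is the evaluation at the point `P`. -/
structure IsEval (P : Place K) (ρ : K →ₗ[ℂ] ℂ) : Prop where
  one : ρ 1 = 1
  van : ∀ f ∈ P.O (-1), ρ f = 0
  ker : ∀ f ∈ P.O 0, ρ f = 0 → f ∈ P.O (-1)
  mul : ∀ f ∈ P.O 0, ∀ g ∈ P.O 0, ρ (f * g) = ρ f * ρ g

theorem exists_eval {x : K} [Algebra.IsAlgebraic (IntermediateField.adjoin ℂ ({x} : Set K)) K]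
    (P : Place K) : ∃ ρ : K →ₗ[ℂ] ℂ, IsEval P ρ := by
  obtain ⟨lc, h1, h2, h3⟩ := P.exists_lc (x := x)
  have hm : ∀ f ∈ P.O 0, ∀ g ∈ P.O 0, lc 0 (f * g) = lc 0 f * lc 0 g := by
    intro f hf g hg
    have := h3 0 0 f hf g hg
    rwa [add_zero] at this
  have hone : (1 : K) ∈ P.O 0 := by
    right
    rw [P.ord_one, neg_zero]
  have hne : lc 0 1 ≠ 0 := by
    intro h0
    have := h1 0 1 hone h0
    rw [Place.mem_O_of_ne one_ne_zero, P.ord_one] at this
    omega
  refine ⟨lc 0, ?_, ?_, ?_, hm⟩
  · have := hm 1 hone 1 hone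
    rw [mul_one] at this
    have h4 : lc 0 1 * lc 0 1 = lc 0 1 * 1 := by rw [mul_one]; exact this.symm
    exact mul_left_cancel₀ hne h4
  · intro f hf
    exact h2 0 f (by simpa using hf)
  · intro f hf h0
    have := h1 0 f hf h0
    simpa using this

/-- `φ` is given on `U` by the values of a function regular on `U`. -/
def Reg (ev : Place K → K →ₗ[ℂ] ℂ) (U : Set (Place K)) (φ : Place K → ℂ) : Prop :=
  ∃ F : K, ∀ P ∈ U, F ∈ P.O 0 ∧ ev P F = φ P

namespace Reg

variable {ev : Place K → K →ₗ[ℂ] ℂ} {U : Set (Place K)} {φ ψ : Place K → ℂ}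

theorem const (hev : ∀ P, IsEval P (ev P)) (c : ℂ) : Reg ev U (fun _ => c) := by
  refine ⟨algebraMap ℂ K c, fun P _ => ⟨P.algebraMap_mem_O c, ?_⟩⟩
  rw [Algebra.algebraMap_eq_smul_one, map_smul, (hev P).one, smul_eq_mul, mul_one]

theorem add (h1 : Reg ev U φ) (h2 : Reg ev U ψ) : Reg ev U (fun P => φ P + ψ P) := by
  obtain ⟨F, hF⟩ := h1
  obtain ⟨G, hG⟩ := h2
  refine ⟨F + G, fun P hP => ⟨(P.O 0).add_mem (hF P hP).1 (hG P hP).1, ?_⟩⟩
  rw [map_add, (hF P hP).2, (hG P hP).2]

theorem mul (hev : ∀ P, IsEval P (ev P)) (h1 : Reg ev U φ) (h2 : Reg ev U ψ) :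
    Reg ev U (fun P => φ P * ψ P) := by
  obtain ⟨F, hF⟩ := h1
  obtain ⟨G, hG⟩ := h2
  refine ⟨F * G, fun P hP => ⟨?_, ?_⟩⟩
  · have := Place.mul_mem_O (hF P hP).1 (hG P hP).1
    rwa [add_zero] at this
  · rw [(hev P).mul _ (hF P hP).1 _ (hG P hP).1, (hF P hP).2, (hG P hP).2]

theorem sub (h1 : Reg ev U φ) (h2 : Reg ev U ψ) : Reg ev U (fun P => φ P - ψ P) := by
  obtain ⟨F, hF⟩ := h1
  obtain ⟨G, hG⟩ := h2
  refine ⟨F - G, fun P hP => ⟨(P.O 0).sub_mem (hF P hP).1 (hG P hP).1, ?_⟩⟩
  rw [map_sub, (hF P hP).2, (hG P hP).2]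

theorem sum (hev : ∀ P, IsEval P (ev P)) {ι : Type*} (s : Finset ι) {φ : ι → Place K → ℂ}
    (h : ∀ i ∈ s, Reg ev U (φ i)) : Reg ev U (fun P => ∑ i ∈ s, φ i P) := by
  classical
  induction s using Finset.induction_on with
  | empty => simpa using const hev 0
  | insert a s ha ih =>
    have h1 := (h a (mem_insert_self a s)).add (ih fun i hi => h i (mem_insert_of_mem hi))
    simpa [sum_insert ha] using h1

theorem prod (hev : ∀ P, IsEval P (ev P)) {ι : Type*} (s : Finset ι) {φ : ι → Place K → ℂ}
    (h : ∀ i ∈ s, Reg ev U (φ i)) : Reg ev U (fun P => ∏ i ∈ s, φ i P) := by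
  classical
  induction s using Finset.induction_on with
  | empty => simpa using const hev 1
  | insert a s ha ih =>
    have h1 := (h a (mem_insert_self a s)).mul hev (ih fun i hi => h i (mem_insert_of_mem hi))
    simpa [prod_insert ha] using h1

theorem det (hev : ∀ P, IsEval P (ev P)) {ι : Type*} [Fintype ι] [DecidableEq ι]
    {φ : ι → ι → Place K → ℂ} (h : ∀ i j, Reg ev U (φ i j)) :
    Reg ev U (fun P => (Matrix.of fun i j => φ i j P).det) := by
  simp only [Matrix.det_apply', Matrix.of_apply]
  refine sum hev _ fun σ _ => ?_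
  exact (const hev _).mul hev (prod hev _ fun i _ => h (σ i) i)

end Reg

/-- vector valued regular functions. -/
def RegV {T : Type*} [AddCommMonoid T] [Module ℂ T] (ev : Place K → K →ₗ[ℂ] ℂ)
    (U : Set (Place K)) (t : Place K → T) : Prop :=
  ∀ lam : T →ₗ[ℂ] ℂ, Reg ev U (fun P => lam (t P))

namespace RegV

variable {ev : Place K → K →ₗ[ℂ] ℂ} {U : Set (Place K)} {T S : Type*} [AddCommMonoid T]
  [Module ℂ T] [AddCommMonoid S] [Module ℂ S] {t s : Place K → T}

theorem const (hev : ∀ P, IsEval P (ev P)) (t0 : T) : RegV ev U (fun _ => t0) :=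
  fun lam => Reg.const hev (lam t0)

theorem comp (f : T →ₗ[ℂ] S) (h : RegV ev U t) : RegV ev U (fun P => f (t P)) :=
  fun lam => h (lam ∘ₗ f)

theorem add (h1 : RegV ev U t) (h2 : RegV ev U s) : RegV ev U (fun P => t P + s P) := by
  intro lam
  simpa only [map_add] using (h1 lam).add (h2 lam)

theorem sub {T : Type*} [AddCommGroup T] [Module ℂ T] {t s : Place K → T}
    (h1 : RegV ev U t) (h2 : RegV ev U s) : RegV ev U (fun P => t P - s P) := by
  intro lam
  simpa only [map_sub] using (h1 lam).sub (h2 lam)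

theorem smul (hev : ∀ P, IsEval P (ev P)) {φ : Place K → ℂ} (h1 : Reg ev U φ)
    (h2 : RegV ev U t) : RegV ev U (fun P => φ P • t P) := by
  intro lam
  simpa only [map_smul, smul_eq_mul] using h1.mul hev (h2 lam)

end RegV

/-- the projection `H^0(D) → H^0(D - P)` along `h`. -/
noncomputable def del (ev : Place K → K →ₗ[ℂ] ℂ) (h : K) (P : Place K) (w : K) : K :=
  w - ev P (w / h) • h

section Family

variable {ev : Place K → K →ₗ[ℂ] ℂ} (hev : ∀ P, IsEval P (ev P)) {D : Divisor K} {h : K}
  (hh : h ∈ space D)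

/-- the points where `h` has pole order exactly `D P`. -/
def goodSet (D : Divisor K) (h : K) : Set (Place K) := {P | h ∉ P.O (D P - 1)}

theorem div_mem_O {P : Place K} (hP : P ∈ goodSet D h) {w : K} {n : ℤ}
    (hw : w ∈ P.O (D P + n)) : w / h ∈ P.O n := by
  have hP' : h ∉ P.O (D P - 1) := hP
  have h0 : h ≠ 0 := by
    rintro rfl
    exact hP' (Submodule.zero_mem _)
  by_cases hw0 : w = 0
  · rw [hw0, zero_div]; exact Submodule.zero_mem _
  rw [Place.mem_O_of_ne h0] at hP'
  rw [Place.mem_O_of_ne hw0] at hw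
  rw [Place.mem_O_of_ne (div_ne_zero hw0 h0), div_eq_mul_inv,
    P.ord_mul _ _ hw0 (inv_ne_zero h0), P.ord_inv h0]
  omega

theorem reg_coef {w : K} (hw : w ∈ space D) :
    Reg ev (goodSet D h) (fun P => ev P (w / h)) := by
  refine ⟨w / h, fun P hP => ⟨div_mem_O hP ?_, rfl⟩⟩
  rw [add_zero]
  exact mem_space.1 hw P

include hev hh

theorem del_mem {P : Place K} (hP : P ∈ goodSet D h) {w : K} (hw : w ∈ space D) :
    del ev h P w ∈ space (D - Finsupp.single P 1) := by
  have hP' : h ∉ P.O (D P - 1) := hP
  have h0 : h ≠ 0 := by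
    rintro rfl
    exact hP' (Submodule.zero_mem _)
  have h1 : del ev h P w ∈ space D := Submodule.sub_mem _ hw (Submodule.smul_mem _ _ hh)
  refine mem_space_of_lc (P := P) (by rwa [sub_add_cancel]) ?_
  rw [Finsupp.sub_apply, Finsupp.single_eq_same]
  have h2 : w / h ∈ P.O 0 := div_mem_O hP (by rw [add_zero]; exact mem_space.1 hw P)
  have h3 : w / h - algebraMap ℂ K (ev P (w / h)) ∈ P.O (-1) := by
    refine (hev P).ker _ ((P.O 0).sub_mem h2 (P.algebraMap_mem_O _)) ?_
    rw [map_sub, Algebra.algebraMap_eq_smul_one, map_smul, (hev P).one, smul_eq_mul, mul_one,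
      sub_self]
  have h4 := Place.mul_mem_O h3 (mem_space.1 hh P)
  have e : (w / h - algebraMap ℂ K (ev P (w / h))) * h = del ev h P w := by
    rw [del, sub_mul, div_mul_cancel₀ _ h0, Algebra.smul_def]
  rw [e, neg_add_eq_sub] at h4
  exact h4

omit hh in
theorem del_eq {P : Place K} (hP : P ∈ goodSet D h) {w : K}
    (hw : w ∈ space (D - Finsupp.single P 1)) : del ev h P w = w := by
  have h1 : w / h ∈ P.O (-1) := by
    refine div_mem_O hP ?_
    have := mem_space.1 hw P
    rwa [Finsupp.sub_apply, Finsupp.single_eq_same] at this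
  rw [del, (hev P).van _ h1, zero_smul, sub_zero]

theorem RegV.app' {T : Type*} [AddCommGroup T] [Module ℂ T] {t : Place K → (K →ₗ[ℂ] T)}
    (ht : RegV ev (goodSet D h) t) {r : K} (hr : r ∈ space D) :
    RegV ev (goodSet D h) (fun P => t P (del ev h P r)) := by
  have h1 : RegV ev (goodSet D h) (fun P => t P r) := ht.comp (LinearMap.applyₗ r)
  have h2 : RegV ev (goodSet D h) (fun P => t P h) := ht.comp (LinearMap.applyₗ h)
  have h3 := h1.sub (RegV.smul hev (reg_coef (ev := ev) hr) h2)
  have e : (fun P => t P (del ev h P r)) = fun P => t P r - ev P (r / h) • t P h := by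
    funext P
    rw [del, map_sub, map_smul]
  rw [e]
  exact h3

/-- plugging `δ_P r` into a regular family of linear maps. -/
theorem RegV.app {T : Type*} [AddCommMonoid T] [Module ℂ T] {t : Place K → (K →ₗ[ℂ] T)}
    (ht : RegV ev (goodSet D h) t) {r : K} (hr : r ∈ space D) :
    RegV ev (goodSet D h) (fun P => t P (del ev h P r)) := by
  let _ : AddCommGroup T := Module.addCommMonoidToAddCommGroup ℂ
  exact RegV.app' hev hh ht hr

theorem regV_multi' {T : Type*} [AddCommGroup T] [Module ℂ T] {ι : Type*} [Fintype ι]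
    [DecidableEq ι] (Λ : MultilinearMap ℂ (fun _ : ι => K) T) {w : ι → K}
    (hw : ∀ j, w j ∈ space D) :
    RegV ev (goodSet D h) (fun P => Λ (fun j => del ev h P (w j))) := by
  have key : ∀ s : Finset ι, ∀ w : ι → K, (∀ j, w j ∈ space D) →
      RegV ev (goodSet D h) (fun P => Λ (fun j => if j ∈ s then del ev h P (w j) else w j)) := by
    intro s
    induction s using Finset.induction_on with
    | empty =>
      intro w hw
      simpa using RegV.const hev (Λ w)
    | insert a s ha ih =>
      intro w hw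
      have hw' : ∀ j, Function.update w a h j ∈ space D := by
        intro j
        by_cases hj : j = a
        · subst hj; rw [Function.update_self]; exact hh
        · rw [Function.update_of_ne hj]; exact hw j
      have h1 := (ih w hw).sub (RegV.smul hev (reg_coef (ev := ev) (hw a))
        (ih (Function.update w a h) hw'))
      have e : (fun P => Λ (fun j => if j ∈ insert a s then del ev h P (w j) else w j))
          = fun P => Λ (fun j => if j ∈ s then del ev h P (w j) else w j)
            - ev P (w a / h) • Λ (fun j => if j ∈ s then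
              del ev h P (Function.update w a h j) else Function.update w a h j) := by
        funext P
        have e1 : (fun j => if j ∈ insert a s then del ev h P (w j) else w j)
            = Function.update (fun j => if j ∈ s then del ev h P (w j) else w j) a
              (w a - ev P (w a / h) • h) := by
          funext j
          by_cases hj : j = a
          · subst hj
            rw [Function.update_self, if_pos (mem_insert_self _ _), del]
          · rw [Function.update_of_ne hj]
            by_cases hjs : j ∈ s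
            · rw [if_pos hjs, if_pos (mem_insert_of_mem hjs)]
            · rw [if_neg hjs, if_neg]
              rw [mem_insert, not_or]
              exact ⟨hj, hjs⟩
        have e2 : Function.update (fun j => if j ∈ s then del ev h P (w j) else w j) a (w a)
            = fun j => if j ∈ s then del ev h P (w j) else w j := by
          funext j
          by_cases hj : j = a
          · subst hj
            rw [Function.update_self, if_neg ha]
          · rw [Function.update_of_ne hj]
        have e3 : Function.update (fun j => if j ∈ s then del ev h P (w j) else w j) a h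
            = fun j => if j ∈ s then
              del ev h P (Function.update w a h j) else Function.update w a h j := by
          funext j
          by_cases hj : j = a
          · subst hj
            rw [Function.update_self, if_neg ha, Function.update_self]
          · rw [Function.update_of_ne hj, Function.update_of_ne hj]
        rw [e1, Λ.map_update_sub, Λ.map_update_smul, e2, e3]
      rw [e]
      exact h1
  have := key univ w hw
  simpa using this

/-- plugging `δ_P w_j` into a multilinear map. -/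
theorem regV_multi {T : Type*} [AddCommMonoid T] [Module ℂ T] {ι : Type*} [Fintype ι]
    [DecidableEq ι] (Λ : MultilinearMap ℂ (fun _ : ι => K) T) {w : ι → K}
    (hw : ∀ j, w j ∈ space D) :
    RegV ev (goodSet D h) (fun P => Λ (fun j => del ev h P (w j))) := by
  let _ : AddCommGroup T := Module.addCommMonoidToAddCommGroup ℂ
  exact regV_multi' hev hh Λ hw

end Family

/-- Linear independence is an open condition. -/
theorem li_open {x : K} {g : ℕ} {A D0 : Divisor K} (C : Curve x g A D0)
    {ev : Place K → K →ₗ[ℂ] ℂ} (hev : ∀ P, IsEval P (ev P)) {U : Set (Place K)}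
    {T : Type*} [AddCommGroup T] [Module ℂ T] {ι : Type*} [Fintype ι]
    {t : ι → Place K → T} (ht : ∀ a, RegV ev U (t a)) {P0 : Place K} (hP0 : P0 ∈ U)
    (hli : LinearIndependent ℂ (fun a => t a P0)) :
    {P | P ∈ U ∧ ¬ LinearIndependent ℂ (fun a => t a P)}.Finite := by
  classical
  have hinj : Function.Injective (Fintype.linearCombination ℂ (fun a => t a P0)) :=
    linearIndependent_iff_injective_fintypeLinearCombination.1 hli
  obtain ⟨π, hπ⟩ := LinearMap.exists_leftInverse_of_injective
    (Fintype.linearCombination ℂ (fun a => t a P0)) (LinearMap.ker_eq_bot.2 hinj)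
  have hπ1 : ∀ a, π (t a P0) = Pi.single a 1 := by
    intro a
    have h1 := LinearMap.congr_fun hπ (Pi.single a 1)
    rw [LinearMap.comp_apply, Fintype.linearCombination_apply_single, one_smul] at h1
    exact h1
  have hreg : ∀ a b, Reg ev U (fun P => π (t a P) b) := fun a b =>
    ht a (LinearMap.proj b ∘ₗ π)
  obtain ⟨F, hF⟩ := Reg.det hev hreg
  have hF0 : F ≠ 0 := by
    rintro rfl
    have h1 : (ev P0) 0 = (Matrix.of fun i j => π (t i P0) j).det := (hF P0 hP0).2
    rw [map_zero] at h1
    have h2 : (Matrix.of fun i j => π (t i P0) j) = (1 : Matrix ι ι ℂ) := by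
      ext i j
      rw [Matrix.of_apply, hπ1, Matrix.one_apply, Pi.single_apply]
      simp [eq_comm]
    rw [h2, Matrix.det_one] at h1
    exact zero_ne_one h1
  refine (C.support_finite hF0).subset ?_
  rintro P ⟨hPU, hPli⟩
  change P.ord F ≠ 0
  intro hord
  apply hPli
  obtain ⟨hF1, hF2⟩ := hF P hPU
  replace hF2 : (ev P) F = (Matrix.of fun i j => π (t i P) j).det := hF2
  have hdet : (Matrix.of fun i j => π (t i P) j).det ≠ 0 := by
    intro h0
    rw [h0] at hF2
    have := (hev P).ker _ hF1 hF2
    rw [Place.mem_O_of_ne hF0, hord] at this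
    omega
  have hrow := Matrix.linearIndependent_rows_of_det_ne_zero hdet
  exact LinearIndependent.of_comp π hrow

theorem rank_open' {x : K} {g : ℕ} {A D0 : Divisor K} (C : Curve x g A D0)
    {ev : Place K → K →ₗ[ℂ] ℂ} (hev : ∀ P, IsEval P (ev P)) {U : Set (Place K)}
    {T : Type*} [AddCommGroup T] [Module ℂ T] (S : Place K → Set T)
    (hfin : ∀ P, FiniteDimensional ℂ (Submodule.span ℂ (S P)))
    {P0 : Place K} (hP0 : P0 ∈ U)
    (hS : ∀ s ∈ S P0, ∃ t : Place K → T, t P0 = s ∧ RegV ev U t ∧ ∀ P ∈ U, t P ∈ S P) :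
    {P | P ∈ U ∧ Module.finrank ℂ (Submodule.span ℂ (S P)) <
      Module.finrank ℂ (Submodule.span ℂ (S P0))}.Finite := by
  classical
  obtain ⟨b, hbS, hbspan, hbli⟩ := exists_linearIndependent ℂ (S P0)
  have h1 := hfin P0
  have hbfin : Finite b := by
    have h2 : LinearIndependent ℂ (fun a : b => (⟨a, by
        rw [← hbspan]; exact Submodule.subset_span a.2⟩ : Submodule.span ℂ (S P0))) := by
      refine LinearIndependent.of_comp (Submodule.span ℂ (S P0)).subtype ?_
      exact hbli
    exact h2.finite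
  have : Fintype b := Fintype.ofFinite b
  choose t ht1 ht2 ht3 using fun a : b => hS a (hbS a.2)
  have hli : LinearIndependent ℂ (fun a => t a P0) := by
    have e : (fun a => t a P0) = ((↑) : b → T) := by
      funext a; exact ht1 a
    rw [e]; exact hbli
  refine (li_open C hev ht2 hP0 hli).subset ?_
  rintro P ⟨hPU, hPlt⟩
  refine ⟨hPU, fun hPli => ?_⟩
  have h3 : Module.finrank ℂ (Submodule.span ℂ (S P0)) = Fintype.card b := by
    rw [← hbspan]
    have := finrank_span_eq_card hbli
    rw [Subtype.range_coe] at this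
    exact this
  have h4 := hfin P
  have h5 : LinearIndependent ℂ (fun a : b => (⟨t a P, Submodule.subset_span (ht3 a P hPU)⟩ :
      Submodule.span ℂ (S P))) := by
    refine LinearIndependent.of_comp (Submodule.span ℂ (S P)).subtype ?_
    exact hPli
  have h6 := h5.fintype_card_le_finrank
  omega

/-- Semicontinuity of rank. -/
theorem rank_open {x : K} {g : ℕ} {A D0 : Divisor K} (C : Curve x g A D0)
    {ev : Place K → K →ₗ[ℂ] ℂ} (hev : ∀ P, IsEval P (ev P)) {U : Set (Place K)}
    {T : Type*} [AddCommMonoid T] [Module ℂ T] (S : Place K → Set T)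
    (hfin : ∀ P, Module.Finite ℂ (Submodule.span ℂ (S P)))
    {P0 : Place K} (hP0 : P0 ∈ U)
    (hS : ∀ s ∈ S P0, ∃ t : Place K → T, t P0 = s ∧ RegV ev U t ∧ ∀ P ∈ U, t P ∈ S P) :
    {P | P ∈ U ∧ Module.finrank ℂ (Submodule.span ℂ (S P)) <
      Module.finrank ℂ (Submodule.span ℂ (S P0))}.Finite := by
  let _ : AddCommGroup T := Module.addCommMonoidToAddCommGroup ℂ
  exact rank_open' C hev S hfin hP0 hS

end PoolNP
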