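import Pool.Agent.helper43.NP.Rank

/-!
Semicontinuity of the Koszul ranks and of base point freeness in the family `D - P`.
-/

open scoped TensorProduct

namespace PoolNP

open Finset

variable {K : Type*} [Field K] [Algebra ℂ K]

section Family

variable {ev : Place K → K →ₗ[ℂ] ℂ} (hev : ∀ P, IsEval P (ev P)) {D : Divisor K} {h : K}
  (hh : h ∈ space D)

/-- products of two elements of `V`. -/
def prodSet (V : Set K) : Set K := {y | ∃ r ∈ V, ∃ s ∈ V, y = r * s}

include hev hh

theorem kSet_family {i : ℕ} {P0 : Place K} (hP0 : P0 ∈ goodSet D h)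
    {s : Amb ℂ K i}
    (hs : s ∈ kSet ℂ i (space (D - Finsupp.single P0 1) : Set K)
      (space (D - Finsupp.single P0 1) : Set K)) :
    ∃ t : Place K → Amb ℂ K i, t P0 = s ∧ RegV ev (goodSet D h) t ∧
      ∀ P ∈ goodSet D h, t P ∈ kSet ℂ i (space (D - Finsupp.single P 1) : Set K)
        (space (D - Finsupp.single P 1) : Set K) := by
  obtain ⟨w, r, hw, hr, rfl⟩ := hs
  have hle : space (D - Finsupp.single P0 1) ≤ space D :=
    space_mono (sub_le_self _ (single_nonneg P0))
  refine ⟨fun P => dA ℂ K i (exteriorPower.ιMulti ℂ (i + 1) (fun l => del ev h P (w l))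
    ⊗ₜ[ℂ] del ev h P r), ?_, ?_, ?_⟩
  · simp only
    rw [del_eq hev hP0 hr]
    have e : (fun l => del ev h P0 (w l)) = w := by
      funext l
      exact del_eq hev hP0 (hw l)
    rw [e]
  · have h1 := regV_multi hev hh ((TensorProduct.curry (dA ℂ K i)).compAlternatingMap
      (exteriorPower.ιMulti ℂ (i + 1))).toMultilinearMap (w := w) (fun l => hle (hw l))
    exact RegV.app hev hh h1 (hle hr)
  · intro P hP
    exact ⟨_, _, fun l => del_mem hev hh hP (hle (hw l)), del_mem hev hh hP (hle hr), rfl⟩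

theorem kSet_family2 {i : ℕ} {P0 : Place K} (hP0 : P0 ∈ goodSet D h)
    {s : Amb ℂ K i}
    (hs : s ∈ kSet ℂ i (space (D - Finsupp.single P0 1) : Set K)
      (prodSet (space (D - Finsupp.single P0 1) : Set K))) :
    ∃ t : Place K → Amb ℂ K i, t P0 = s ∧ RegV ev (goodSet D h) t ∧
      ∀ P ∈ goodSet D h, t P ∈ kSet ℂ i (space (D - Finsupp.single P 1) : Set K)
        (prodSet (space (D - Finsupp.single P 1) : Set K)) := by
  obtain ⟨w, _, hw, ⟨r, hr, s, hs, rfl⟩, rfl⟩ := hs
  have hle : space (D - Finsupp.single P0 1) ≤ space D :=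
    space_mono (sub_le_self _ (single_nonneg P0))
  refine ⟨fun P => dA ℂ K i (exteriorPower.ιMulti ℂ (i + 1) (fun l => del ev h P (w l))
    ⊗ₜ[ℂ] (del ev h P r * del ev h P s)), ?_, ?_, ?_⟩
  · simp only
    rw [del_eq hev hP0 hr, del_eq hev hP0 hs]
    have e : (fun l => del ev h P0 (w l)) = w := by
      funext l
      exact del_eq hev hP0 (hw l)
    rw [e]
  · have h1 := regV_multi hev hh (((TensorProduct.lcurry (RingHom.id ℂ) K K
      (Amb ℂ K i)) ∘ₗ
      TensorProduct.curry (dA ℂ K i ∘ₗ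
        (LinearMap.lTensor (⋀[ℂ]^(i + 1) K) (LinearMap.mul' ℂ K)))).compAlternatingMap
      (exteriorPower.ιMulti ℂ (i + 1))).toMultilinearMap (w := w) (fun l => hle (hw l))
    exact RegV.app hev hh (RegV.app hev hh h1 (hle hr)) (hle hs)
  · intro P hP
    exact ⟨_, _, fun l => del_mem hev hh hP (hle (hw l)),
      ⟨_, del_mem hev hh hP (hle hr), _, del_mem hev hh hP (hle hs), rfl⟩, rfl⟩

end Family

end PoolNP
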