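import Pool.Agent.helper43.NP.Open

/-!
Openness of the good line bundles, general points.
-/

open scoped TensorProduct

namespace PoolNP

open Finset

section Abstract

theorem finite_of_span_le' {F T : Type*} [Field F] [AddCommGroup T] [Module F T]
    {S S' : Submodule F T} (h : S ≤ S') (h' : Module.Finite F S') : Module.Finite F S :=
  Submodule.finiteDimensional_of_le h

theorem finite_of_span_le {F T : Type*} [Field F] [AddCommMonoid T] [Module F T]
    {S S' : Submodule F T} (h : S ≤ S') (h' : Module.Finite F S') : Module.Finite F S := by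
  let _ : AddCommGroup T := Module.addCommMonoidToAddCommGroup F
  exact finite_of_span_le' h h'

theorem finrank_le_of_span_le' {F T : Type*} [Field F] [AddCommGroup T] [Module F T]
    {S S' : Submodule F T} (h : S ≤ S') (h' : Module.Finite F S') :
    Module.finrank F S ≤ Module.finrank F S' :=
  Submodule.finrank_mono h

theorem finrank_le_of_span_le {F T : Type*} [Field F] [AddCommMonoid T] [Module F T]
    {S S' : Submodule F T} (h : S ≤ S') (h' : Module.Finite F S') :
    Module.finrank F S ≤ Module.finrank F S' := by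
  let _ : AddCommGroup T := Module.addCommMonoidToAddCommGroup F
  exact finrank_le_of_span_le' h h'

end Abstract

variable {K : Type*} [Field K] [Algebra ℂ K] {x : K} {g : ℕ} {A D0 : Divisor K}

theorem prodSet_subset (L : Divisor K) :
    prodSet (space L : Set K) ⊆ (space (2 • L) : Set K) := by
  rintro y ⟨r, hr, s, hs, rfl⟩
  exact hmul1 L r hr s hs

theorem span_prodSet {L : Divisor K} (hfin : ∀ D : Divisor K, FiniteDimensional ℂ (space D))
    (hs : Module.finrank ℂ (Submodule.span ℂ
      (kSet ℂ 0 (space L : Set K) (space L : Set K))) = ell (2 • L)) :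
    Submodule.span ℂ (prodSet (space L : Set K)) = space (2 • L) := by
  have := hfin L
  have := hfin (2 • L)
  have h1 := (surj_iff_rank (space L) (space L) (space (2 • L)) (hmul1 L)).2 hs
  exact span_mul_of_surj (space L) (space L) (space (2 • L)) (hmul1 L) h1

/-- the rank of `⋀^{i+1} V ⊗ V → ⋀^i V ⊗ R_2`. -/
noncomputable def rk1 (i : ℕ) (L : Divisor K) : ℕ :=
  Module.finrank ℂ (Submodule.span ℂ (kSet ℂ i (space L : Set K) (space L : Set K)))

/-- the rank of `⋀^{i+1} V ⊗ V ⊗ V → ⋀^i V ⊗ R_3`. -/
noncomputable def rk2 (i : ℕ) (L : Divisor K) : ℕ :=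
  Module.finrank ℂ (Submodule.span ℂ (kSet ℂ i (space L : Set K) (prodSet (space L : Set K))))

/-- the rank of `⋀^{i+1} V ⊗ R_2 → ⋀^i V ⊗ R_3`. -/
noncomputable def rk3 (i : ℕ) (L : Divisor K) : ℕ :=
  Module.finrank ℂ (Submodule.span ℂ (kSet ℂ i (space L : Set K) (space (2 • L) : Set K)))

theorem finite_rk3 (hfin : ∀ D : Divisor K, FiniteDimensional ℂ (space D)) (i : ℕ)
    (L : Divisor K) : Module.Finite ℂ (Submodule.span ℂ
      (kSet ℂ i (space L : Set K) (space (2 • L) : Set K))) := by
  have := hfin L
  have := hfin (2 • L)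
  exact finite_kSet _ _ i

theorem span_rk2_le (i : ℕ) (L : Divisor K) : Submodule.span ℂ
      (kSet ℂ i (space L : Set K) (prodSet (space L : Set K))) ≤
      Submodule.span ℂ (kSet ℂ i (space L : Set K) (space (2 • L) : Set K)) :=
  Submodule.span_mono (kSet_mono i (le_refl _) (prodSet_subset _))

theorem rk2_le (hfin : ∀ D : Divisor K, FiniteDimensional ℂ (space D)) (i : ℕ)
    (L : Divisor K) : rk2 i L ≤ rk3 i L :=
  finrank_le_of_span_le (span_rk2_le i L) (finite_rk3 hfin i L)

theorem rk2_eq (hfin : ∀ D : Divisor K, FiniteDimensional ℂ (space D)) (i : ℕ)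
    (L : Divisor K) (hs : rk1 0 L = ell (2 • L)) : rk2 i L = rk3 i L := by
  have h3 := span_kSet_span (F := ℂ) i (space L : Set K) (prodSet (space L : Set K))
  rw [span_prodSet hfin hs] at h3
  rw [rk2, rk3, h3]

theorem rk1_open (C : Curve x g A D0) {ev : Place K → K →ₗ[ℂ] ℂ}
    (hev : ∀ P, IsEval P (ev P)) {D : Divisor K} {h : K} (hh : h ∈ space D) {P0 : Place K}
    (hP0 : P0 ∈ goodSet D h) (i : ℕ) :
    {P | P ∈ goodSet D h ∧
      rk1 i (D - Finsupp.single P 1) < rk1 i (D - Finsupp.single P0 1)}.Finite := by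
  have h2 := rank_open C hev (U := goodSet D h) (T := Amb ℂ K i)
    (fun P => kSet ℂ i (space (D - Finsupp.single P 1) : Set K)
      (space (D - Finsupp.single P 1) : Set K)) (P0 := P0)
  have h3 : ∀ P : Place K, Module.Finite ℂ (Submodule.span ℂ
      (kSet ℂ i (space (D - Finsupp.single P 1) : Set K)
        (space (D - Finsupp.single P 1) : Set K))) := by
    intro P
    have := C.hfin (D - Finsupp.single P 1)
    exact finite_kSet _ _ i
  have h5 := h2 h3
  have h6 := h5 hP0
  have h7 := h6 (fun _ hs => kSet_family hev hh hP0 hs)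
  exact h7

theorem rk2_open (C : Curve x g A D0) {ev : Place K → K →ₗ[ℂ] ℂ}
    (hev : ∀ P, IsEval P (ev P)) {D : Divisor K} {h : K} (hh : h ∈ space D) {P0 : Place K}
    (hP0 : P0 ∈ goodSet D h) (i : ℕ) :
    {P | P ∈ goodSet D h ∧
      rk2 i (D - Finsupp.single P 1) < rk2 i (D - Finsupp.single P0 1)}.Finite := by
  have h2 := rank_open C hev (U := goodSet D h) (T := Amb ℂ K i)
    (fun P => kSet ℂ i (space (D - Finsupp.single P 1) : Set K)
      (prodSet (space (D - Finsupp.single P 1) : Set K))) (P0 := P0)
  have h3 : ∀ P : Place K, Module.Finite ℂ (Submodule.span ℂ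
      (kSet ℂ i (space (D - Finsupp.single P 1) : Set K)
        (prodSet (space (D - Finsupp.single P 1) : Set K)))) := fun P =>
    finite_of_span_le (span_rk2_le i _) (finite_rk3 C.hfin i _)
  have h5 := h2 h3
  have h6 := h5 hP0
  have h7 := h6 (fun _ hs => kSet_family2 hev hh hP0 hs)
  exact h7

/-- The good locus is open in the family `D - P`. -/
theorem step (C : Curve x g A D0) {D : Divisor K} {P0 : Place K} {p : ℕ}
    (hgood : Good g (D - Finsupp.single P0 1) p) :
    {P : Place K | ¬ Good g (D - Finsupp.single P 1) p}.Finite := by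
  classical
  have := C.alg
  choose ev hev using fun P : Place K => exists_eval (x := x) P
  have hle : D - Finsupp.single P0 1 ≤ D := sub_le_self _ (single_nonneg P0)
  have rrD := ell_eq (x := x) C.hg C.hfin hgood.rr hle
  have rr0 := hgood.rr
  rw [degree_sub_single] at rr0
  have fD := C.hfin D
  obtain ⟨h0, hh0, hh0'⟩ : ∃ h0 ∈ space D, h0 ∉ space (D - Finsupp.single P0 1) := by
    by_contra hcon
    push Not at hcon
    have fD0 := C.hfin (D - Finsupp.single P0 1)
    have h1 : ell D ≤ ell (D - Finsupp.single P0 1) := Submodule.finrank_mono hcon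
    omega
  have hP0 : P0 ∈ goodSet D h0 := fun hc => hh0' (mem_space_sub hh0 hc)
  have h00 : h0 ≠ 0 := by
    rintro rfl
    exact hh0' (Submodule.zero_mem _)
  have hUc : {P : Place K | P ∉ goodSet D h0}.Finite := by
    refine (D.support.finite_toSet.union (C.support_finite h00)).subset ?_
    intro P hP
    have hP' : ¬ (h0 ∉ P.O (D P - 1)) := hP
    rw [not_not, Place.mem_O_of_ne h00] at hP'
    by_cases hD : D P = 0
    · right
      change P.ord h0 ≠ 0
      omega
    · left
      simpa using hD
  have rrP : ∀ P ∈ goodSet D h0, (ell (D - Finsupp.single P 1) : ℤ) + g = degree D := by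
    intro P hP
    have h1 := C.hg.1 (D - Finsupp.single P 1)
    rw [degree_sub_single] at h1
    have hlt : space (D - Finsupp.single P 1) < space D := by
      refine lt_of_le_of_ne (space_mono (sub_le_self _ (single_nonneg P))) ?_
      intro he
      exact hP (mem_O_of_sub (he ▸ hh0))
    have h2 : ell (D - Finsupp.single P 1) < ell D := Submodule.finrank_lt_finrank_of_lt hlt
    omega
  obtain ⟨f, G, hp⟩ := hgood.pencil
  have F1 := pencil_open C hev hh0 hP0 hp
  have F2' := Set.Finite.biUnion (Set.finite_Iio (p + 1)) (fun i _ => rk1_open C hev hh0 hP0 i)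
  have F3' := Set.Finite.biUnion (Set.finite_Iio (p + 1)) (fun i _ => rk2_open C hev hh0 hP0 i)
  refine (((hUc.union F1).union F2').union F3').subset ?_
  intro P hP
  by_contra hcon
  simp only [Set.mem_union, Set.mem_iUnion, Set.mem_ofPred_eq, not_or, not_and, not_not,
    not_exists, Set.mem_Iio, not_lt] at hcon
  obtain ⟨⟨⟨c1, c2⟩, c3⟩, c4⟩ := hcon
  apply hP
  have c2' : ∃ f G, IsPencil (D - Finsupp.single P 1) f G := by
    by_contra hc
    push Not at hc
    exact c2 c1 hc
  obtain ⟨f', G', hp'⟩ := c2'
  have rr1 := rrP P c1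
  have rrP' : (ell (D - Finsupp.single P 1) : ℤ) + g = degree (D - Finsupp.single P 1) + 1 := by
    rw [degree_sub_single]
    omega
  have r2 := hp'.rr_nsmul C rrP' 2 (by norm_num)
  have r20 := hp.rr_nsmul C hgood.rr 2 (by norm_num)
  rw [degree_nsmul, degree_sub_single] at r2 r20
  have e1 : ell (D - Finsupp.single P 1) = ell (D - Finsupp.single P0 1) := by omega
  have e2 : ell (2 • (D - Finsupp.single P 1)) = ell (2 • (D - Finsupp.single P0 1)) := by omega
  have fP := C.hfin (D - Finsupp.single P 1)
  have fP2 := C.hfin (2 • (D - Finsupp.single P 1))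
  have gs : rk1 0 (D - Finsupp.single P0 1) = ell (2 • (D - Finsupp.single P0 1)) := hgood.surj
  refine ⟨rrP', ⟨f', G', hp'⟩, ?_, ?_⟩
  · change rk1 0 (D - Finsupp.single P 1) = _
    apply le_antisymm
    · exact rank_zero_le (space (D - Finsupp.single P 1)) (space (D - Finsupp.single P 1))
        (space (2 • (D - Finsupp.single P 1))) (hmul1 _)
    · rw [e2, ← gs]
      exact c3 0 (by omega) c1
  · intro i hi
    change rk1 (i + 1) (D - Finsupp.single P 1) + rk3 i (D - Finsupp.single P 1) = _
    have ge : rk1 (i + 1) (D - Finsupp.single P0 1) + rk3 i (D - Finsupp.single P0 1)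
      = (ell (D - Finsupp.single P0 1)).choose (i + 1) * ell (2 • (D - Finsupp.single P0 1)) :=
      hgood.exact i hi
    apply le_antisymm
    · exact rank_add_le (space (D - Finsupp.single P 1)) (space (D - Finsupp.single P 1))
        (space (2 • (D - Finsupp.single P 1))) (space (3 • (D - Finsupp.single P 1)))
        (hmul1 _) (hmul2 _) i
    · rw [e1, e2, ← ge, ← rk2_eq C.hfin i (D - Finsupp.single P0 1) gs]
      exact Nat.add_le_add (c3 (i + 1) (by omega) c1)
        ((c4 i (by omega) c1).trans (rk2_le C.hfin i _))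

end PoolNP
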